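import Mathlib
import Pool.Agent.H13R3.WB.Lin

/-! Linear extensions of disjoint sums and direct sums of finite posets. -/

open Finset

namespace Pool.Agent.H931R3.Bal

open Pool.Agent.H13R3.WB

/-- linear extensions of `P` with values in `Fin n` -/
abbrev LEn (P : Type) [PartialOrder P] (n : ℕ) := {f : P ≃ Fin n // Monotone f}

noncomputable instance (P : Type) [PartialOrder P] (n : ℕ) : Fintype (LEn P n) := by
  classical
  by_cases h : Nonempty (P ≃ Fin n)
  · have : Finite P := Finite.of_equiv _ h.some.symm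
    exact Fintype.ofFinite _
  · have : IsEmpty (P ≃ Fin n) := not_nonempty_iff.1 h
    exact Fintype.ofFinite _

lemma rank_unique {P : Type} {n : ℕ} (σ τ : P ≃ Fin n) (h : ∀ x y, σ x < σ y ↔ τ x < τ y) :
    σ = τ := by
  let e : Fin n ≃o Fin n := ⟨σ.symm.trans τ, by
    intro a b
    have := h (σ.symm b) (σ.symm a)
    simp only [Equiv.apply_symm_apply] at this
    simp only [Equiv.trans_apply]
    rw [← not_lt, ← not_lt, ← this]⟩
  have he : e = OrderIso.refl _ := Subsingleton.elim _ _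
  ext x
  have : e (σ x) = σ x := by rw [he]; rfl
  have h2 : e (σ x) = τ x := by
    show τ (σ.symm (σ x)) = τ x
    simp
  rw [← h2, this]

lemma exists_rank {P : Type} [Fintype P] {L : Type} [LinearOrder L] (g : P → L)
    (hg : Function.Injective g) {n : ℕ} (hn : Fintype.card P = n) :
    ∃ σ : P ≃ Fin n, ∀ x x', σ x < σ x' ↔ g x < g x' := by
  classical
  let e : P ≃ Set.range g := Equiv.ofInjective g hg
  haveI : Fintype (Set.range g) := Fintype.ofEquiv P e
  have hc : Fintype.card (Set.range g) = n := by rw [← hn]; exact (Fintype.card_congr e).symm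
  let μ := monoEquivOfFin (Set.range g) hc
  refine ⟨e.trans μ.symm.toEquiv, fun x x' => ?_⟩
  show μ.symm (e x) < μ.symm (e x') ↔ g x < g x'
  rw [OrderIso.lt_iff_lt]
  rfl

lemma lt_of_mono {P : Type} [PartialOrder P] {n : ℕ} {f : P ≃ Fin n} (hf : Monotone f) {x y : P}
    (h : x < y) : f x < f y :=
  lt_of_le_of_ne (hf h.le) fun he => h.ne (f.injective he)

lemma mono_of_lt {P : Type} [PartialOrder P] {n : ℕ} {f : P ≃ Fin n}
    (hf : ∀ x y : P, x < y → f x < f y) : Monotone f := by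
  intro x y h
  rcases h.lt_or_eq with h | h
  · exact (hf x y h).le
  · rw [h]

/-- average of a function of the rank of `x` -/
noncomputable def avg (P : Type) [PartialOrder P] (n : ℕ) (x : P) (φ : ℕ → ℝ) : ℝ :=
  (∑ f : LEn P n, φ (f.1 x)) / Fintype.card (LEn P n)

/-- probability that `x` comes before `y` -/
noncomputable def pr (P : Type) [PartialOrder P] (n : ℕ) (x y : P) : ℝ :=
  (∑ f : LEn P n, if f.1 x < f.1 y then (1 : ℝ) else 0) / Fintype.card (LEn P n)

lemma prob_eq {P : Type} [Fintype P] [PartialOrder P] {n : ℕ} (hn : Fintype.card P = n)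
    (x y : P) : prob P x y = pr P n x y := by
  classical
  subst hn
  unfold prob pr
  congr 1
  · rw [Finset.sum_boole]
    congr 1
    rw [← Nat.card_congr (Equiv.subtypeSubtypeEquivSubtypeInter
      (fun f : P ≃ Fin (Fintype.card P) => Monotone f) (fun f => f x < f y))]
    rw [Nat.card_eq_fintype_card, Fintype.card_subtype]
  · rw [Nat.card_eq_fintype_card]

/-- transport along an order isomorphism -/
def isoE {P Q : Type} [PartialOrder P] [PartialOrder Q] (e : P ≃o Q) (n : ℕ) :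
    LEn P n ≃ LEn Q n where
  toFun f := ⟨e.symm.toEquiv.trans f.1, fun _ _ h => f.2 (e.symm.monotone h)⟩
  invFun f := ⟨e.toEquiv.trans f.1, fun _ _ h => f.2 (e.monotone h)⟩
  left_inv f := by ext x; simp
  right_inv f := by ext x; simp

lemma isoE_apply {P Q : Type} [PartialOrder P] [PartialOrder Q] (e : P ≃o Q) (n : ℕ)
    (f : LEn P n) (x : P) : (isoE e n f).1 (e x) = f.1 x := by
  show f.1 (e.symm (e x)) = f.1 x
  simp

lemma avg_iso {P Q : Type} [PartialOrder P] [PartialOrder Q] (e : P ≃o Q) (n : ℕ) (x : P)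
    (φ : ℕ → ℝ) : avg Q n (e x) φ = avg P n x φ := by
  unfold avg
  rw [Fintype.card_congr (isoE e n)]
  congr 1
  symm
  apply Fintype.sum_equiv (isoE e n)
  intro f
  rw [isoE_apply]

lemma pr_iso {P Q : Type} [PartialOrder P] [PartialOrder Q] (e : P ≃o Q) (n : ℕ) (x y : P) :
    pr Q n (e x) (e y) = pr P n x y := by
  unfold pr
  rw [Fintype.card_congr (isoE e n)]
  congr 1
  symm
  apply Fintype.sum_equiv (isoE e n)
  intro f
  rw [isoE_apply, isoE_apply]

section lex

variable {P Q : Type} [PartialOrder P] [PartialOrder Q] {n m : ℕ}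

/-- linear extensions of a direct sum -/
def lexF (σ : LEn P n) (τ : LEn Q m) : LEn (P ⊕ₗ Q) (n + m) :=
  ⟨(ofLex : Lex (P ⊕ Q) ≃ P ⊕ Q).trans ((Equiv.sumCongr σ.1 τ.1).trans finSumFinEquiv), by
    intro a b h
    rcases a with a | a <;> rcases b with b | b
    · have h' : a ≤ b := Sum.Lex.inl_le_inl_iff.1 h
      have h2 := σ.2 h'
      show Fin.castAdd m (σ.1 a) ≤ Fin.castAdd m (σ.1 b)
      rw [Fin.le_def] at h2 ⊢
      exact h2
    · show Fin.castAdd m (σ.1 a) ≤ Fin.natAdd n (τ.1 b)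
      rw [Fin.le_def]; simp; omega
    · exact absurd h Sum.Lex.not_inr_le_inl
    · have h' : a ≤ b := Sum.Lex.inr_le_inr_iff.1 h
      have h2 := τ.2 h'
      show Fin.natAdd n (τ.1 a) ≤ Fin.natAdd n (τ.1 b)
      rw [Fin.le_def] at h2 ⊢
      simpa using h2⟩

lemma lexF_inl (σ : LEn P n) (τ : LEn Q m) (x : P) :
    (((lexF σ τ).1 (toLex (Sum.inl x)) : Fin (n + m)) : ℕ) = σ.1 x := rfl

lemma lexF_inr (σ : LEn P n) (τ : LEn Q m) (y : Q) :
    (((lexF σ τ).1 (toLex (Sum.inr y)) : Fin (n + m)) : ℕ) = n + τ.1 y := rfl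

lemma lexF_bij [Fintype P] [Fintype Q] (hn : Fintype.card P = n) (hm : Fintype.card Q = m) :
    Function.Bijective (fun z : LEn P n × LEn Q m => lexF z.1 z.2) := by
  constructor
  · rintro ⟨σ, τ⟩ ⟨σ', τ'⟩ h
    have h1 : ∀ z, (lexF σ τ).1 z = (lexF σ' τ').1 z := fun z => by
      have := congrArg Subtype.val h
      exact congrFun (congrArg (fun e : (P ⊕ₗ Q) ≃ Fin (n + m) => (e : (P ⊕ₗ Q) → Fin (n + m))) this) z
    refine Prod.ext (Subtype.ext (Equiv.ext fun x => ?_)) (Subtype.ext (Equiv.ext fun y => ?_))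
    · have := congrArg Fin.val (h1 (toLex (Sum.inl x)))
      rw [lexF_inl, lexF_inl] at this
      exact Fin.ext this
    · have := congrArg Fin.val (h1 (toLex (Sum.inr y)))
      rw [lexF_inr, lexF_inr] at this
      exact Fin.ext (by simpa using this)
  · intro f
    obtain ⟨σ, hσ⟩ := exists_rank (fun x : P => f.1 (toLex (Sum.inl x)))
      (fun a b h => Sum.inl_injective (toLex.injective (f.1.injective h))) hn
    obtain ⟨τ, hτ⟩ := exists_rank (fun x : Q => f.1 (toLex (Sum.inr x)))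
      (fun a b h => Sum.inr_injective (toLex.injective (f.1.injective h))) hm
    have hσm : Monotone σ := mono_of_lt fun x y h => (hσ x y).2
      (lt_of_mono f.2 (Sum.Lex.inl_lt_inl_iff.2 h))
    have hτm : Monotone τ := mono_of_lt fun x y h => (hτ x y).2
      (lt_of_mono f.2 (Sum.Lex.inr_lt_inr_iff.2 h))
    refine ⟨(⟨σ, hσm⟩, ⟨τ, hτm⟩), Subtype.ext (rank_unique _ _ fun a b => ?_)⟩
    rcases a with a | a <;> rcases b with b | b
    · have e1 := lexF_inl (⟨σ, hσm⟩ : LEn P n) (⟨τ, hτm⟩ : LEn Q m) a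
      have e2 := lexF_inl (⟨σ, hσm⟩ : LEn P n) (⟨τ, hτm⟩ : LEn Q m) b
      have := hσ a b
      constructor
      · intro h
        exact this.1 (by rw [Fin.lt_def] at h ⊢; exact h)
      · intro h
        have := this.2 h
        rw [Fin.lt_def] at this ⊢
        exact this
    · constructor
      · intro _
        exact lt_of_mono f.2 (Sum.Lex.inl_lt_inr a b)
      · intro _
        exact lt_of_mono (lexF _ _).2 (Sum.Lex.inl_lt_inr a b)
    · constructor
      · intro h
        exact absurd h (lt_asymm (lt_of_mono (lexF _ _).2 (Sum.Lex.inl_lt_inr b a)))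
      · intro h
        exact absurd h (lt_asymm (lt_of_mono f.2 (Sum.Lex.inl_lt_inr b a)))
    · have e1 := lexF_inr (⟨σ, hσm⟩ : LEn P n) (⟨τ, hτm⟩ : LEn Q m) a
      have e2 := lexF_inr (⟨σ, hσm⟩ : LEn P n) (⟨τ, hτm⟩ : LEn Q m) b
      have := hτ a b
      constructor
      · intro h
        refine this.1 ?_
        rw [Fin.lt_def] at h ⊢
        change (((lexF (⟨σ, hσm⟩ : LEn P n) (⟨τ, hτm⟩ : LEn Q m)).1 (toLex (Sum.inr a)) : Fin (n + m)) : ℕ) <
          ((lexF (⟨σ, hσm⟩ : LEn P n) (⟨τ, hτm⟩ : LEn Q m)).1 (toLex (Sum.inr b)) : Fin (n + m)) at h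
        rw [e1, e2] at h
        simpa using h
      · intro h
        have := this.2 h
        rw [Fin.lt_def] at this ⊢
        change (((lexF (⟨σ, hσm⟩ : LEn P n) (⟨τ, hτm⟩ : LEn Q m)).1 (toLex (Sum.inr a)) : Fin (n + m)) : ℕ) <
          ((lexF (⟨σ, hσm⟩ : LEn P n) (⟨τ, hτm⟩ : LEn Q m)).1 (toLex (Sum.inr b)) : Fin (n + m))
        rw [e1, e2]
        simpa using this

end lex

end Pool.Agent.H931R3.Bal
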