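import Mathlib
import Pool.Agent.H931R3.Bal2

/-! Rank distributions in the posets of the class `𝒟`. -/

open Finset

namespace Pool.Agent.H931R3.Bal

open Pool.Agent.H13R3.WB

/-- table of rank counts in the three-element poset -/
def tab : Fin 2 ⊕ Fin 1 → Fin 3 → ℕ
  | Sum.inl 0, 0 => 2
  | Sum.inl 0, 1 => 1
  | Sum.inl 0, 2 => 0
  | Sum.inl 1, 0 => 0
  | Sum.inl 1, 1 => 1
  | Sum.inl 1, 2 => 2
  | Sum.inr _, _ => 1

instance : DecidableLE (Fin 2 ⊕ Fin 1) := fun a b => by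
  change Decidable (Sum.LiftRel (· ≤ ·) (· ≤ ·) a b)
  infer_instance

lemma cntE0 : ∀ (z : Fin 2 ⊕ Fin 1) (r : Fin 3),
    #{f : Fin 2 ⊕ Fin 1 ≃ Fin 3 | (∀ a b : Fin 2 ⊕ Fin 1, a ≤ b → f a ≤ f b) ∧ f z = r} =
      tab z r := by
  decide +kernel

lemma cardE0 :
    #{f : Fin 2 ⊕ Fin 1 ≃ Fin 3 | (∀ a b : Fin 2 ⊕ Fin 1, a ≤ b → f a ≤ f b)} = 3 := by
  decide +kernel

lemma cardE : Fintype.card (LEn (Fin 2 ⊕ Fin 1) 3) = 3 := by
  classical
  refine Eq.trans ?_ cardE0
  rw [← Nat.card_eq_fintype_card, ← Fintype.card_subtype, ← Nat.card_eq_fintype_card]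
  have key : ∀ f : Fin 2 ⊕ Fin 1 ≃ Fin 3, Monotone f ↔
      (∀ a b : Fin 2 ⊕ Fin 1, a ≤ b → f a ≤ f b) :=
    fun f => ⟨fun h a b => @h a b, fun h a b => h a b⟩
  exact Nat.card_congr (Equiv.subtypeEquivRight key)

lemma sumE (z : Fin 2 ⊕ Fin 1) (φ : ℕ → ℝ) :
    ∑ f : LEn (Fin 2 ⊕ Fin 1) 3, φ (f.1 z) = ∑ r : Fin 3, (tab z r : ℝ) * φ r := by
  classical
  rw [← Finset.sum_fiberwise (s := Finset.univ) (g := fun f : LEn (Fin 2 ⊕ Fin 1) 3 => f.1 z)]
  apply Finset.sum_congr rfl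
  intro r _
  have h1 : ∀ f ∈ Finset.univ.filter (fun f : LEn (Fin 2 ⊕ Fin 1) 3 => f.1 z = r),
      φ (f.1 z) = φ r := by
    intro f hf
    rw [(Finset.mem_filter.1 hf).2]
  rw [Finset.sum_congr rfl h1, Finset.sum_const, nsmul_eq_mul]
  congr 2
  rw [← cntE0 z r]
  rw [← Fintype.card_subtype, ← Fintype.card_subtype, ← Nat.card_eq_fintype_card,
    ← Nat.card_eq_fintype_card]
  rw [Nat.card_congr (Equiv.subtypeSubtypeEquivSubtypeInter
      (fun f : Fin 2 ⊕ Fin 1 ≃ Fin 3 => Monotone f) (fun f => f z = r))]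
  apply Nat.card_congr
  exact Equiv.subtypeEquivRight fun f =>
    ⟨fun h => ⟨fun a b => @h.1 a b, h.2⟩, fun h => ⟨fun a b => h.1 a b, h.2⟩⟩

lemma avgE (z : Fin 2 ⊕ Fin 1) (φ : ℕ → ℝ) :
    avg (Fin 2 ⊕ Fin 1) 3 z φ = ((tab z 0 : ℝ) * φ 0 + (tab z 1 : ℝ) * φ 1 +
      (tab z 2 : ℝ) * φ 2) / 3 := by
  unfold avg
  rw [sumE, cardE, Fin.sum_univ_three]
  norm_num

lemma avg_one (φ : ℕ → ℝ) : avg (Fin 1) 1 0 φ = φ 0 := by
  unfold avg
  have h1 : (Fintype.card (LEn (Fin 1) 1) : ℝ) ≠ 0 := card_ne (by simp)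
  have h2 : ∀ f : LEn (Fin 1) 1, ((f.1 0 : Fin 1) : ℕ) = 0 := fun f => by omega
  simp_rw [h2]
  rw [Finset.sum_const, Finset.card_univ, nsmul_eq_mul]
  field_simp

/-- the averages of `φ (s + rank)` over the elements of a poset of the class `𝒟` described by a
list of blocks -/
noncomputable def vals (φ : ℕ → ℝ) : ℕ → List Bool → List ℝ
  | _, [] => []
  | s, false :: w => φ s :: vals φ (s + 1) w
  | s, true :: w => (2 * φ s + φ (s + 1)) / 3 :: (φ s + φ (s + 1) + φ (s + 2)) / 3 ::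
      (φ (s + 1) + 2 * φ (s + 2)) / 3 :: vals φ (s + 3) w

/-- number of elements -/
def len : List Bool → ℕ
  | [] => 0
  | false :: w => 1 + len w
  | true :: w => 3 + len w

lemma len_append (w v : List Bool) : len (w ++ v) = len w + len v := by
  induction w with
  | nil => simp [len]
  | cons b w ih => cases b <;> simp [len, ih] <;> ring

lemma vals_append (φ : ℕ → ℝ) (w v : List Bool) (s : ℕ) :
    vals φ s (w ++ v) = vals φ s w ++ vals φ (s + len w) v := by
  induction w generalizing s with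
  | nil => simp [len, vals]
  | cons b w ih =>
    cases b
    · simp only [List.cons_append, vals, len, ih]
      rw [show s + 1 + len w = s + (1 + len w) by ring]
    · simp only [List.cons_append, vals, len, ih]
      rw [show s + 3 + len w = s + (3 + len w) by ring]

/-- blocks of a poset of the class `𝒟` -/
lemma blocks {P : Type} [PartialOrder P] (h : InD P) :
    ∃ w : List Bool, w ≠ [] ∧ Nat.card P = len w ∧ Finite P ∧ ∀ (φ : ℕ → ℝ) (s : ℕ),
      ∀ v ∈ vals φ s w, ∃ x : P, avg P (len w) x (fun i => φ (s + i)) = v := by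
  induction h with
  | one P e =>
    obtain ⟨e⟩ := e
    refine ⟨[false], by simp, ?_, Finite.of_equiv _ e.symm.toEquiv, ?_⟩
    · rw [Nat.card_congr e.toEquiv]; simp [len]
    · intro φ s v hv
      simp only [vals, List.mem_singleton] at hv
      refine ⟨e.symm 0, ?_⟩
      rw [show len [false] = 1 by rfl, avg_iso e.symm 1 0, avg_one, hv]
      simp
  | three P e =>
    obtain ⟨e⟩ := e
    refine ⟨[true], by simp, ?_, Finite.of_equiv _ e.symm.toEquiv, ?_⟩
    · rw [Nat.card_congr e.toEquiv]; simp [len]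
    · intro φ s v hv
      simp only [vals, List.mem_cons, List.not_mem_nil, or_false] at hv
      rcases hv with rfl | rfl | rfl
      · refine ⟨e.symm (Sum.inl 0), ?_⟩
        rw [show len [true] = 3 by rfl, avg_iso e.symm 3 (Sum.inl 0), avgE]
        simp [tab]
      · refine ⟨e.symm (Sum.inr 0), ?_⟩
        rw [show len [true] = 3 by rfl, avg_iso e.symm 3 (Sum.inr 0), avgE]
        simp [tab]
      · refine ⟨e.symm (Sum.inl 1), ?_⟩
        rw [show len [true] = 3 by rfl, avg_iso e.symm 3 (Sum.inl 1), avgE]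
        simp [tab]
  | sum P Q R hP hQ e ihP ihQ =>
    obtain ⟨e⟩ := e
    obtain ⟨w, hw, hcw, hfw, hvw⟩ := ihP
    obtain ⟨v, hv, hcv, hfv, hvv⟩ := ihQ
    have := Fintype.ofFinite P
    have := Fintype.ofFinite Q
    have h1 : Fintype.card P = len w := by rw [← hcw, Nat.card_eq_fintype_card]
    have h2 : Fintype.card Q = len v := by rw [← hcv, Nat.card_eq_fintype_card]
    have hfs : Finite (P ⊕ₗ Q) := (inferInstance : Finite (P ⊕ Q))
    refine ⟨w ++ v, by simp [hw], ?_, Finite.of_equiv _ e.symm.toEquiv, ?_⟩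
    · rw [Nat.card_congr e.toEquiv, len_append, ← hcw, ← hcv]
      exact Nat.card_sum
    · intro φ s a ha
      rw [vals_append, List.mem_append] at ha
      rw [len_append]
      rcases ha with ha | ha
      · obtain ⟨x, hx⟩ := hvw φ s a ha
        refine ⟨e.symm (toLex (Sum.inl x)), ?_⟩
        rw [avg_iso e.symm, avg_lex_inl h1 h2, hx]
      · obtain ⟨y, hy⟩ := hvv φ (s + len w) a ha
        refine ⟨e.symm (toLex (Sum.inr y)), ?_⟩
        rw [avg_iso e.symm, avg_lex_inr h1 h2, ← hy]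
        congr 1
        funext i
        rw [add_assoc]

end Pool.Agent.H931R3.Bal
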