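import Mathlib
import Pool.Agent.H931R3.Bal3

/-! Interleavings of two chains. -/

open Finset

namespace Pool.Agent.H931R3.Bal

section count

variable {α : Type} [Fintype α] [DecidableEq α]

lemma card_inter (A : Finset α) {t m : ℕ} (ht : t ≤ m) :
    #{T ∈ powersetCard m (univ : Finset α) | #(T ∩ A) = t} =
      (#A).choose t * (#Aᶜ).choose (m - t) := by
  rw [← card_powersetCard, ← card_powersetCard, ← card_product]
  apply Finset.card_nbij' (fun T => (T ∩ A, T ∩ Aᶜ)) (fun z => z.1 ∪ z.2)
  · intro T hT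
    simp only [coe_filter, mem_powersetCard, subset_univ, true_and, Set.mem_setOf_eq] at hT
    simp only [coe_product, Set.mem_prod, mem_coe, mem_powersetCard]
    refine ⟨⟨inter_subset_right, hT.2⟩, inter_subset_right, ?_⟩
    have h1 : #(T ∩ A) + #(T ∩ Aᶜ) = #T := by
      rw [← sdiff_eq_inter_compl]
      exact card_inter_add_card_sdiff T A
    omega
  · rintro ⟨B, C⟩ hz
    simp only [coe_product, Set.mem_prod, mem_coe, mem_powersetCard] at hz
    obtain ⟨⟨h1, h2⟩, h3, h4⟩ := hz
    simp only [coe_filter, mem_powersetCard, subset_univ, true_and, Set.mem_setOf_eq]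
    have hd : Disjoint B C := disjoint_of_subset_left h1 (disjoint_of_subset_right h3
      disjoint_compl_right)
    constructor
    · rw [card_union_of_disjoint hd, h2, h4]; omega
    · rw [union_inter_distrib_right, inter_eq_left.2 h1,
        disjoint_iff_inter_eq_empty.1 (disjoint_of_subset_left h3 disjoint_compl_left)]
      simpa using h2
  · intro T _
    show T ∩ A ∪ T ∩ Aᶜ = T
    rw [← inter_union_distrib_left, union_compl]
    simp
  · rintro ⟨B, C⟩ hz
    simp only [coe_product, Set.mem_prod, mem_coe, mem_powersetCard] at hz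
    obtain ⟨⟨h1, h2⟩, h3, h4⟩ := hz
    show ((B ∪ C) ∩ A, (B ∪ C) ∩ Aᶜ) = (B, C)
    rw [union_inter_distrib_right, union_inter_distrib_right, inter_eq_left.2 h1,
        disjoint_iff_inter_eq_empty.1 (disjoint_of_subset_left h3 disjoint_compl_left),
        inter_eq_left.2 h3,
        disjoint_iff_inter_eq_empty.1 (disjoint_of_subset_left h1 disjoint_compl_right)]
    simp

lemma card_inter_le (A : Finset α) {j m : ℕ} (hj : j < m) :
    #{T ∈ powersetCard m (univ : Finset α) | #(T ∩ A) ≤ j} =
      ∑ t ∈ range (j + 1), (#A).choose t * (#Aᶜ).choose (m - t) := by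
  rw [Finset.card_eq_sum_card_fiberwise (f := fun T => #(T ∩ A)) (t := range (j + 1))]
  · apply Finset.sum_congr rfl
    intro t ht
    rw [← card_inter A (show t ≤ m by rw [mem_range] at ht; omega), filter_filter]
    congr 1
    apply filter_congr
    intro T _
    constructor
    · rintro ⟨_, h⟩
      exact h
    · intro h
      exact ⟨by rw [mem_range] at ht; omega, h⟩
  · intro T hT
    simp only [coe_filter, mem_powersetCard, subset_univ, true_and, Set.mem_setOf_eq] at hT
    simp only [coe_range, Set.mem_Iio]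
    omega

end count

variable {n m : ℕ}

lemma event_iff (s : LEn (Fin n ⊕ Fin m) (n + m)) (i : Fin n) (j : Fin m) :
    s.1 (Sum.inl i) < s.1 (Sum.inr j) ↔
      #{k : Fin m | (s.1 (Sum.inr k) : ℕ) ≤ i + j} ≤ (j : ℕ) := by
  have hi := i.2
  have hj := j.2
  set a := #{k : Fin n | (s.1 (Sum.inl k) : ℕ) ≤ i + j} with ha
  set b := #{k : Fin m | (s.1 (Sum.inr k) : ℕ) ≤ i + j} with hb
  have hab : a + b = i + j + 1 := by
    have h1 : #{p : Fin (n + m) | (p : ℕ) ≤ i + j} = i + j + 1 := by
      have : ({p : Fin (n + m) | (p : ℕ) ≤ i + j} : Finset (Fin (n + m))) =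
          Finset.Iic ⟨i + j, by omega⟩ := by
        ext p
        simp [Fin.le_def]
      rw [this, Fin.card_Iic]
    have h2 : #{p : Fin (n + m) | (p : ℕ) ≤ i + j} = a + b := by
      rw [ha, hb, card_filter, card_filter, card_filter,
        ← Equiv.sum_comp s.1 (fun p : Fin (n + m) => if (p : ℕ) ≤ i + j then 1 else 0),
        Fintype.sum_sum_type]
    omega
  have F1 : (s.1 (Sum.inr j) : ℕ) ≤ i + j → (j : ℕ) + 1 ≤ b := by
    intro h
    have : #(Finset.Iic j) ≤ b := by
      apply card_le_card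
      intro k hk
      rw [mem_filter]
      refine ⟨mem_univ _, ?_⟩
      have : s.1 (Sum.inr k) ≤ s.1 (Sum.inr j) := s.2 (Sum.inr_le_inr_iff.2 (mem_Iic.1 hk))
      rw [Fin.le_def] at this
      omega
    rwa [Fin.card_Iic] at this
  have F2 : ¬ (s.1 (Sum.inr j) : ℕ) ≤ i + j → b ≤ (j : ℕ) := by
    intro h
    have : b ≤ #(Finset.Iio j) := by
      apply card_le_card
      intro k hk
      rw [mem_filter] at hk
      rw [mem_Iio]
      by_contra hc
      have : s.1 (Sum.inr j) ≤ s.1 (Sum.inr k) := s.2 (Sum.inr_le_inr_iff.2 (not_lt.1 hc))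
      rw [Fin.le_def] at this
      omega
    rwa [Fin.card_Iio] at this
  have F3 : (s.1 (Sum.inl i) : ℕ) ≤ i + j → (i : ℕ) + 1 ≤ a := by
    intro h
    have : #(Finset.Iic i) ≤ a := by
      apply card_le_card
      intro k hk
      rw [mem_filter]
      refine ⟨mem_univ _, ?_⟩
      have : s.1 (Sum.inl k) ≤ s.1 (Sum.inl i) := s.2 (Sum.inl_le_inl_iff.2 (mem_Iic.1 hk))
      rw [Fin.le_def] at this
      omega
    rwa [Fin.card_Iic] at this
  have F4 : ¬ (s.1 (Sum.inl i) : ℕ) ≤ i + j → a ≤ (i : ℕ) := by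
    intro h
    have : a ≤ #(Finset.Iio i) := by
      apply card_le_card
      intro k hk
      rw [mem_filter] at hk
      rw [mem_Iio]
      by_contra hc
      have : s.1 (Sum.inl i) ≤ s.1 (Sum.inl k) := s.2 (Sum.inl_le_inl_iff.2 (not_lt.1 hc))
      rw [Fin.le_def] at this
      omega
    rwa [Fin.card_Iio] at this
  rw [Fin.lt_def]
  constructor
  · intro h
    by_contra hc
    have h1 : (s.1 (Sum.inr j) : ℕ) ≤ i + j := by
      by_contra h2
      exact hc (F2 h2)
    have h3 := F3 (by omega)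
    omega
  · intro h
    have h1 : ¬ (s.1 (Sum.inr j) : ℕ) ≤ i + j := by
      intro h2
      have := F1 h2
      omega
    have h2 : (s.1 (Sum.inl i) : ℕ) ≤ i + j := by
      by_contra h3
      have := F4 h3
      omega
    omega

/-- positions of the second chain -/
def posT (s : LEn (Fin n ⊕ Fin m) (n + m)) : Finset (Fin (n + m)) :=
  univ.image (fun k : Fin m => s.1 (Sum.inr k))

lemma inr_inj (s : LEn (Fin n ⊕ Fin m) (n + m)) :
    Function.Injective (fun k : Fin m => s.1 (Sum.inr k)) :=
  fun _ _ h => Sum.inr_injective (s.1.injective h)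

lemma posT_mem (s : LEn (Fin n ⊕ Fin m) (n + m)) :
    posT s ∈ powersetCard m (univ : Finset (Fin (n + m))) := by
  rw [mem_powersetCard]
  refine ⟨subset_univ _, ?_⟩
  rw [posT, card_image_of_injective _ (inr_inj s)]
  simp

lemma posT_inj : Function.Injective (posT : LEn (Fin n ⊕ Fin m) (n + m) → _) := by
  intro s s' h
  have hc : ∀ u : LEn (Fin n ⊕ Fin m) (n + m), #(posT u) = m := fun u =>
    (mem_powersetCard.1 (posT_mem u)).2
  have hcc : ∀ u : LEn (Fin n ⊕ Fin m) (n + m), #(posT u)ᶜ = n := fun u => by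
    rw [card_compl, hc, Fintype.card_fin]; omega
  have key1 : ∀ u : LEn (Fin n ⊕ Fin m) (n + m), (fun k : Fin m => u.1 (Sum.inr k)) =
      (posT u).orderEmbOfFin (hc u) := fun u =>
    Finset.orderEmbOfFin_unique (hc u) (fun k => mem_image_of_mem _ (mem_univ k))
      (fun a b hab => (s_inr_lt u a b).2 hab)
  have key2 : ∀ u : LEn (Fin n ⊕ Fin m) (n + m), (fun k : Fin n => u.1 (Sum.inl k)) =
      (posT u)ᶜ.orderEmbOfFin (hcc u) := fun u =>
    Finset.orderEmbOfFin_unique (hcc u) (fun k => by
      rw [mem_compl, posT, mem_image]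
      rintro ⟨l, _, hl⟩
      exact absurd (u.1.injective hl) (by simp))
      (fun a b hab => (s_inl_lt u a b).2 hab)
  apply Subtype.ext
  apply Equiv.ext
  intro z
  rcases z with z | z
  · have h1 := congrFun (key2 s) z
    have h2 := congrFun (key2 s') z
    simp only [h] at h1
    rw [h1, h2]
  · have h1 := congrFun (key1 s) z
    have h2 := congrFun (key1 s') z
    simp only [h] at h1
    rw [h1, h2]

lemma posT_surj (T : Finset (Fin (n + m))) (hT : #T = m) :
    ∃ s : LEn (Fin n ⊕ Fin m) (n + m), posT s = T := by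
  have hTc : #Tᶜ = n := by rw [card_compl, hT, Fintype.card_fin]; omega
  refine ⟨⟨(Equiv.sumComm _ _).trans (finSumEquivOfFinset hT hTc), ?_⟩, ?_⟩
  · intro a b h
    rcases a with a | a <;> rcases b with b | b
    · show finSumEquivOfFinset hT hTc (Sum.inr a) ≤ finSumEquivOfFinset hT hTc (Sum.inr b)
      rw [finSumEquivOfFinset_inr, finSumEquivOfFinset_inr]
      exact (OrderEmbedding.le_iff_le _).2 (Sum.inl_le_inl_iff.1 h)
    · exact absurd h Sum.not_inl_le_inr
    · exact absurd h Sum.not_inr_le_inl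
    · show finSumEquivOfFinset hT hTc (Sum.inl a) ≤ finSumEquivOfFinset hT hTc (Sum.inl b)
      rw [finSumEquivOfFinset_inl, finSumEquivOfFinset_inl]
      exact (OrderEmbedding.le_iff_le _).2 (Sum.inr_le_inr_iff.1 h)
  · apply Finset.eq_of_subset_of_card_le
    · intro p hp
      rw [posT, mem_image] at hp
      obtain ⟨k, _, rfl⟩ := hp
      show finSumEquivOfFinset hT hTc (Sum.inl k) ∈ T
      rw [finSumEquivOfFinset_inl]
      exact Finset.orderEmbOfFin_mem T hT k
    · rw [hT, (mem_powersetCard.1 (posT_mem _)).2]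

lemma card_Sh : Fintype.card (LEn (Fin n ⊕ Fin m) (n + m)) = (n + m).choose m := by
  rw [← card_univ, ← card_image_of_injective _ (posT_inj (n := n) (m := m))]
  rw [show (n + m).choose m = #(powersetCard m (univ : Finset (Fin (n + m)))) by
    rw [card_powersetCard]; simp]
  congr 1
  ext T
  rw [mem_image]
  constructor
  · rintro ⟨s, _, rfl⟩
    exact posT_mem s
  · intro hT
    obtain ⟨s, hs⟩ := posT_surj T (mem_powersetCard.1 hT).2
    exact ⟨s, mem_univ _, hs⟩

/-- closed form of the crossing probabilities -/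
lemma FF_eq {i j : ℕ} (hi : i < n) (hj : j < m) : FF n m i j =
    ((∑ t ∈ range (j + 1), (i + j + 1).choose t * (n + m - (i + j + 1)).choose (m - t) : ℕ) : ℝ) /
      (n + m).choose m := by
  classical
  unfold FF
  rw [card_Sh]
  congr 1
  rw [Finset.sum_boole]
  congr 1
  set A : Finset (Fin (n + m)) := Finset.Iic ⟨i + j, by omega⟩ with hA
  have hAc : #A = i + j + 1 := by rw [hA, Fin.card_Iic]
  have hAc' : #Aᶜ = n + m - (i + j + 1) := by rw [card_compl, hAc, Fintype.card_fin]
  have := card_inter_le A hj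
  rw [hAc, hAc'] at this
  rw [← this]
  rw [← card_image_of_injective _ (posT_inj (n := n) (m := m))]
  congr 1
  ext T
  rw [mem_image, mem_filter]
  have hev : ∀ s : LEn (Fin n ⊕ Fin m) (n + m), (∀ (hi : i < n) (hj : j < m),
      s.1 (Sum.inl ⟨i, hi⟩) < s.1 (Sum.inr ⟨j, hj⟩)) ↔ #(posT s ∩ A) ≤ j := by
    intro s
    have h1 : #(posT s ∩ A) = #{k : Fin m | (s.1 (Sum.inr k) : ℕ) ≤ i + j} := by
      rw [← card_image_of_injective _ (inr_inj s)]
      congr 1
      ext p
      simp only [mem_inter, posT, mem_image, mem_univ, true_and, mem_filter, hA, mem_Iic,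
        Fin.le_def]
      constructor
      · rintro ⟨⟨k, rfl⟩, h⟩
        exact ⟨k, h, rfl⟩
      · rintro ⟨k, h, rfl⟩
        exact ⟨⟨k, rfl⟩, h⟩
    rw [h1]
    have := event_iff s ⟨i, hi⟩ ⟨j, hj⟩
    simp only at this
    constructor
    · intro h
      exact this.1 (h hi hj)
    · intro h _ _
      exact this.2 h
  constructor
  · rintro ⟨s, hs, rfl⟩
    rw [mem_filter] at hs
    exact ⟨posT_mem s, (hev s).1 hs.2⟩
  · rintro ⟨h1, h2⟩
    obtain ⟨s, rfl⟩ := posT_surj T (mem_powersetCard.1 h1).2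
    exact ⟨s, mem_filter.2 ⟨mem_univ _, (hev s).2 h2⟩, rfl⟩

end Pool.Agent.H931R3.Bal
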