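import Mathlib
import Pool.Agent.H931R3.Bal10

/-! Series-parallel posets, and an extremal example. -/

open Finset

namespace Pool.Agent.H931R3.Bal

open Pool.Agent.H13R3.WB

/-- The smallest class of posets closed under isomorphism that contains the one-element poset and
every finite poset satisfying `base`, and is closed under disjoint sums and direct (ordinal)
sums. -/
inductive Built (base : (P : Type) → [PartialOrder P] → Prop) :
    (P : Type) → [PartialOrder P] → Prop
  | of (P : Type) [PartialOrder P] : base P → Built base P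
  | one (P : Type) [PartialOrder P] : Nonempty (P ≃o Fin 1) → Built base P
  | disj (P Q R : Type) [PartialOrder P] [PartialOrder Q] [PartialOrder R] :
      Built base P → Built base Q → Nonempty (R ≃o (P ⊕ Q)) → Built base R
  | direct (P Q R : Type) [PartialOrder P] [PartialOrder Q] [PartialOrder R] :
      Built base P → Built base Q → Nonempty (R ≃o (P ⊕ₗ Q)) → Built base R

theorem Built.gap {base : (P : Type) → [PartialOrder P] → Prop} {c : ℝ} (hc : c ≤ 8 / 21)
    (hb : ∀ (P : Type) [Fintype P] [PartialOrder P], base P → Nonempty P ∧ (InD P ∨ c ≤ balance P))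
    {R : Type} [PartialOrder R] (h : Built base R) :
    ∀ [Fintype R], Nonempty R ∧ (InD R ∨ c ≤ balance R) := by
  induction h with
  | of P hP => intro _; exact hb P hP
  | one P e =>
    intro _
    obtain ⟨e⟩ := e
    exact ⟨⟨e.symm 0⟩, Or.inl (InD.one P ⟨e⟩)⟩
  | disj P Q R _ _ e ihP ihQ =>
    intro hR
    obtain ⟨e⟩ := e
    have fP : Finite P := Finite.of_injective (fun x : P => e.symm (Sum.inl x))
      (fun a b h => Sum.inl_injective (e.symm.injective h))
    have fQ : Finite Q := Finite.of_injective (fun x : Q => e.symm (Sum.inr x))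
      (fun a b h => Sum.inr_injective (e.symm.injective h))
    have := Fintype.ofFinite P
    have := Fintype.ofFinite Q
    obtain ⟨n1, h1⟩ := ihP
    obtain ⟨n2, h2⟩ := ihQ
    have h3 := gap_sum hc h1 h2
    refine ⟨⟨e.symm (Sum.inl n1.some)⟩, ?_⟩
    rcases h3 with h3 | h3
    · exact Or.inl (InD.iso h3 e.symm)
    · exact Or.inr (h3.trans (balance_iso e.symm))
  | direct P Q R _ _ e ihP ihQ =>
    intro hR
    obtain ⟨e⟩ := e
    have fP : Finite P := Finite.of_injective (fun x : P => e.symm (toLex (Sum.inl x)))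
      (fun a b h => Sum.inl_injective (toLex.injective (e.symm.injective h)))
    have fQ : Finite Q := Finite.of_injective (fun x : Q => e.symm (toLex (Sum.inr x)))
      (fun a b h => Sum.inr_injective (toLex.injective (e.symm.injective h)))
    have := Fintype.ofFinite P
    have := Fintype.ofFinite Q
    obtain ⟨n1, h1⟩ := ihP
    obtain ⟨n2, h2⟩ := ihQ
    have h3 := gap_lex h1 h2
    have : Nonempty (P ⊕ₗ Q) := ⟨toLex (Sum.inl n1.some)⟩
    refine ⟨⟨e.symm (toLex (Sum.inl n1.some))⟩, ?_⟩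
    rcases h3 with h3 | h3
    · exact Or.inl (InD.iso h3 e.symm)
    · exact Or.inr (h3.trans (balance_iso e.symm))

/-- the three-element poset with one relation -/
abbrev EE := Fin 2 ⊕ Fin 1

/-- the extremal poset -/
abbrev X7 := (EE ⊕ₗ EE) ⊕ Fin 1

lemma ltE0 : ∀ (z z' : EE),
    #{f : EE ≃ Fin 3 | (∀ a b : EE, a ≤ b → f a ≤ f b) ∧ f z < f z'} ≤ 1 ∨
    #{f : EE ≃ Fin 3 | (∀ a b : EE, a ≤ b → f a ≤ f b) ∧ f z' < f z} ≤ 1 := by
  decide +kernel

lemma cntLt (z z' : EE) : pr EE 3 z z' =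
    (#{f : EE ≃ Fin 3 | (∀ a b : EE, a ≤ b → f a ≤ f b) ∧ f z < f z'} : ℝ) / 3 := by
  classical
  unfold pr
  rw [cardE, Finset.sum_boole]
  congr 2
  rw [← Fintype.card_subtype, ← Fintype.card_subtype, ← Nat.card_eq_fintype_card,
    ← Nat.card_eq_fintype_card]
  rw [Nat.card_congr (Equiv.subtypeSubtypeEquivSubtypeInter
      (fun f : Fin 2 ⊕ Fin 1 ≃ Fin 3 => Monotone f) (fun f => f z < f z'))]
  apply Nat.card_congr
  exact Equiv.subtypeEquivRight fun f =>
    ⟨fun h => ⟨fun a b => @h.1 a b, h.2⟩, fun h => ⟨fun a b => h.1 a b, h.2⟩⟩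

lemma minE (z z' : EE) : min (pr EE 3 z z') (pr EE 3 z' z) ≤ 1 / 3 := by
  rcases ltE0 z z' with h | h
  · refine (min_le_left _ _).trans ?_
    rw [cntLt]
    have : ((#{f : EE ≃ Fin 3 | (∀ a b : EE, a ≤ b → f a ≤ f b) ∧ f z < f z'} : ℕ) : ℝ) ≤ 1 := by
      exact_mod_cast h
    linarith
  · refine (min_le_right _ _).trans ?_
    rw [cntLt]
    have : ((#{f : EE ≃ Fin 3 | (∀ a b : EE, a ≤ b → f a ≤ f b) ∧ f z' < f z} : ℕ) : ℝ) ≤ 1 := by
      exact_mod_cast h
    linarith

lemma pr_zero_of_lt {P : Type} [PartialOrder P] {n : ℕ} {x y : P} (h : x < y) :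
    pr P n y x = 0 := by
  unfold pr
  rw [Finset.sum_eq_zero, zero_div]
  intro f _
  rw [if_neg]
  exact not_lt.2 (lt_of_mono f.2 h).le

lemma pr_self {P : Type} [PartialOrder P] {n : ℕ} (x : P) : pr P n x x = 0 := by
  unfold pr
  rw [Finset.sum_eq_zero, zero_div]
  intro f _
  rw [if_neg]
  exact lt_irrefl _

lemma min_EE2 (z z' : EE ⊕ₗ EE) : min (pr (EE ⊕ₗ EE) 6 z z') (pr (EE ⊕ₗ EE) 6 z' z) ≤ 1 / 3 := by
  have h6 : (6 : ℕ) = 3 + 3 := rfl
  rcases z with a | a <;> rcases z' with b | b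
  · have h1 := pr_lex_inl (P := EE) (Q := EE) (n := 3) (m := 3) (by simp) (by simp) a b
    have h2 := pr_lex_inl (P := EE) (Q := EE) (n := 3) (m := 3) (by simp) (by simp) b a
    have := minE a b
    rw [← h1, ← h2] at this
    exact this
  · refine (min_le_right _ _).trans ?_
    have : pr (EE ⊕ₗ EE) 6 (toLex (Sum.inr b)) (toLex (Sum.inl a)) = 0 :=
      pr_zero_of_lt (Sum.Lex.inl_lt_inr a b)
    calc _ = (0 : ℝ) := this
      _ ≤ _ := by norm_num
  · refine (min_le_left _ _).trans ?_
    have : pr (EE ⊕ₗ EE) 6 (toLex (Sum.inr a)) (toLex (Sum.inl b)) = 0 :=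
      pr_zero_of_lt (Sum.Lex.inl_lt_inr b a)
    calc _ = (0 : ℝ) := this
      _ ≤ _ := by norm_num
  · have h1 := pr_lex_inr (P := EE) (Q := EE) (n := 3) (m := 3) (by simp) (by simp) a b
    have h2 := pr_lex_inr (P := EE) (Q := EE) (n := 3) (m := 3) (by simp) (by simp) b a
    have := minE a b
    rw [← h1, ← h2] at this
    exact this

lemma FF61 {i : ℕ} (hi : i < 6) : FF 6 1 i 0 = (6 - i : ℝ) / 7 := by
  rw [FF_eq_Kf hi (by norm_num)]
  have : i = 0 ∨ i = 1 ∨ i = 2 ∨ i = 3 ∨ i = 4 ∨ i = 5 := by omega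
  rcases this with rfl | rfl | rfl | rfl | rfl | rfl <;> simp [Kf] <;> norm_num

lemma cross_val (x : EE ⊕ₗ EE) (y : Fin 1) :
    min (pr X7 7 (Sum.inl x) (Sum.inr y)) (pr X7 7 (Sum.inr y) (Sum.inl x)) ≤ 8 / 21 := by
  have hy : y = 0 := Subsingleton.elim _ _
  subst hy
  have hc : Fintype.card (EE ⊕ₗ EE) = 6 := by rw [card_lexS]; simp
  have h1 : pr X7 7 (Sum.inl x) (Sum.inr 0) = avg (EE ⊕ₗ EE) 6 x (fun i => (6 - i : ℝ) / 7) := by
    have := pr_disj_cross (P := EE ⊕ₗ EE) (Q := Fin 1) (n := 6) (m := 1) hc (by simp) x 0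
    rw [show (7 : ℕ) = 6 + 1 by rfl, this]
    apply avg_congr
    intro i hi
    rw [avg_one, FF61 hi]
  have h2 : pr X7 7 (Sum.inl x) (Sum.inr 0) + pr X7 7 (Sum.inr 0) (Sum.inl x) = 1 :=
    pr_add (by rw [Fintype.card_sum, hc]; simp) (by simp)
  have key : pr X7 7 (Sum.inl x) (Sum.inr 0) ≤ 8 / 21 ∨
      13 / 21 ≤ pr X7 7 (Sum.inl x) (Sum.inr 0) := by
    rw [h1]
    rcases x with a | a
    · right
      have := avg_lex_inl (P := EE) (Q := EE) (n := 3) (m := 3) (by simp) (by simp) a
        (fun i => (6 - i : ℝ) / 7)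
      change 13 / 21 ≤ avg (EE ⊕ₗ EE) (3 + 3) (toLex (Sum.inl a)) (fun i => (6 - i : ℝ) / 7)
      rw [this, avgE]
      rcases a with a | a
      · have : a = 0 ∨ a = 1 := by omega
        rcases this with rfl | rfl <;> simp [tab] <;> norm_num
      · simp [tab]; norm_num
    · left
      have := avg_lex_inr (P := EE) (Q := EE) (n := 3) (m := 3) (by simp) (by simp) a
        (fun i => (6 - i : ℝ) / 7)
      change avg (EE ⊕ₗ EE) (3 + 3) (toLex (Sum.inr a)) (fun i => (6 - i : ℝ) / 7) ≤ 8 / 21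
      rw [this, avgE]
      rcases a with a | a
      · have : a = 0 ∨ a = 1 := by omega
        rcases this with rfl | rfl <;> simp [tab] <;> norm_num
      · simp [tab]; norm_num
  rcases key with h | h
  · exact (min_le_left _ _).trans h
  · refine (min_le_right _ _).trans ?_
    linarith

lemma balance_X7 : balance X7 ≤ 8 / 21 := by
  have hc : Fintype.card (EE ⊕ₗ EE) = 6 := by rw [card_lexS]; simp
  have hc7 : Fintype.card X7 = 7 := by rw [Fintype.card_sum, hc]; simp
  have : Nonempty (X7 × X7) := ⟨(Sum.inr 0, Sum.inr 0)⟩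
  unfold balance
  apply ciSup_le
  rintro ⟨p, q⟩
  simp only
  rw [prob_eq hc7, prob_eq hc7]
  rcases p with p | p <;> rcases q with q | q
  · have h1 := pr_disj_inl (P := EE ⊕ₗ EE) (Q := Fin 1) (n := 6) (m := 1) hc (by simp) p q
    have h2 := pr_disj_inl (P := EE ⊕ₗ EE) (Q := Fin 1) (n := 6) (m := 1) hc (by simp) q p
    have := min_EE2 p q
    rw [← h1, ← h2] at this
    exact this.trans (by norm_num)
  · exact cross_val p q
  · rw [min_comm]
    exact cross_val q p
  · rw [Subsingleton.elim q p, pr_self]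
    norm_num

lemma X7_not_inD : ¬ InD X7 := by
  intro h
  refine h.few (Sum.inr 0) (Sum.inl (toLex (Sum.inl (Sum.inl 0))))
    (Sum.inl (toLex (Sum.inl (Sum.inl 1)))) (Sum.inl (toLex (Sum.inl (Sum.inr 0))))
    Sum.not_inr_le_inl Sum.not_inl_le_inr Sum.not_inr_le_inl Sum.not_inl_le_inr
    Sum.not_inr_le_inl Sum.not_inl_le_inr ?_ ?_ ?_
  · intro h
    have := toLex.injective (Sum.inl_injective h)
    simp at this
  · intro h
    have := toLex.injective (Sum.inl_injective h)
    simp at this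
  · intro h
    have := toLex.injective (Sum.inl_injective h)
    simp at this

lemma X7_built (base : (P : Type) → [PartialOrder P] → Prop) : Built base X7 := by
  have h1 : Built base (Fin 1) := Built.one _ ⟨OrderIso.refl _⟩
  have h2 : Built base (Fin 1 ⊕ₗ Fin 1) := Built.direct _ _ _ h1 h1 ⟨OrderIso.refl _⟩
  have e : Fin 2 ≃o (Fin 1 ⊕ₗ Fin 1) :=
    { toFun := fun i => if i = 0 then toLex (Sum.inl 0) else toLex (Sum.inr 0)
      invFun := fun z => match ofLex z with
        | Sum.inl _ => 0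
        | Sum.inr _ => 1
      left_inv := by
        intro i
        have : i = 0 ∨ i = 1 := by omega
        rcases this with rfl | rfl <;> simp
      right_inv := by
        intro z
        rcases z with z | z
        · have : z = 0 := Subsingleton.elim _ _
          subst this
          rfl
        · have : z = 0 := Subsingleton.elim _ _
          subst this
          rfl
      map_rel_iff' := by
        intro a b
        have ha : a = 0 ∨ a = 1 := by omega
        have hb : b = 0 ∨ b = 1 := by omega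
        rcases ha with rfl | rfl <;> rcases hb with rfl | rfl <;> simp [Sum.Lex.inl_le_inr] }
  have h3 : Built base EE := by
    have : Built base ((Fin 1 ⊕ₗ Fin 1) ⊕ Fin 1) := Built.disj _ _ _ h2 h1 ⟨OrderIso.refl _⟩
    exact Built.disj _ _ _ h2 h1 ⟨OrderIso.sumCongr e (OrderIso.refl _)⟩
  have h4 : Built base (EE ⊕ₗ EE) := Built.direct _ _ _ h3 h3 ⟨OrderIso.refl _⟩
  exact Built.disj _ _ _ h4 h1 ⟨OrderIso.refl _⟩

end Pool.Agent.H931R3.Bal
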