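import Mathlib
import Pool.Agent.H931R3.Bal10

/-! Autonomous subsets. -/

open Finset

namespace Pool.Agent.H931R3.Bal

open Pool.Agent.H13R3.WB

/-- autonomous subsets (modules) of a poset -/
def Autonomous {P : Type} [PartialOrder P] (M : Set P) : Prop :=
  ∀ x ∈ M, ∀ y ∈ M, ∀ z, z ∉ M → (z ≤ x → z ≤ y) ∧ (x ≤ z → y ≤ z)

variable {P : Type} [Fintype P] [PartialOrder P] {M : Set P} {n k : ℕ}

lemma exists_rk [Fintype M] (hk : Fintype.card M = k) (f : LEn P n) :
    ∃ σ : LEn M k, ∀ x x' : M, σ.1 x < σ.1 x' ↔ f.1 x < f.1 x' := by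
  obtain ⟨σ, hσ⟩ := exists_rank (fun x : M => f.1 x)
    (fun a b h => Subtype.ext (f.1.injective h)) hk
  exact ⟨⟨σ, mono_of_lt fun x y h => (hσ x y).2 (lt_of_mono f.2 h)⟩, hσ⟩

/-- the induced linear extension -/
noncomputable def rk [Fintype M] (hk : Fintype.card M = k) (f : LEn P n) : LEn M k :=
  (exists_rk hk f).choose

lemma rk_spec [Fintype M] (hk : Fintype.card M = k) (f : LEn P n) (x x' : M) :
    (rk hk f).1 x < (rk hk f).1 x' ↔ f.1 x < f.1 x' := (exists_rk hk f).choose_spec x x'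

open Classical in
lemma fiber_le (hM : Autonomous M) [Fintype M] (hk : Fintype.card M = k) (τ τ' : LEn M k) :
    #{f : LEn P n | rk hk f = τ} ≤ #{f : LEn P n | rk hk f = τ'} := by
  let ρ : M ≃ M := τ'.1.trans τ.1.symm
  let π : P ≃ P := Equiv.Perm.ofSubtype (p := fun x => x ∈ M) ρ
  have hin : ∀ x (hx : x ∈ M), π x = ρ ⟨x, hx⟩ := fun x hx =>
    Equiv.Perm.ofSubtype_apply_of_mem ρ hx
  have hout : ∀ x, x ∉ M → π x = x := fun x hx =>
    Equiv.Perm.ofSubtype_apply_of_not_mem ρ hx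
  have hmono : ∀ f : LEn P n, rk hk f = τ → Monotone (π.trans f.1) := by
    intro f hf x y hxy
    show f.1 (π x) ≤ f.1 (π y)
    by_cases hx : x ∈ M
    · by_cases hy : y ∈ M
      · rw [hin x hx, hin y hy]
        rcases hxy.lt_or_eq with h | h
        · have h1 : τ'.1 ⟨x, hx⟩ < τ'.1 ⟨y, hy⟩ := lt_of_mono τ'.2 h
          have h2 : τ.1 (ρ ⟨x, hx⟩) < τ.1 (ρ ⟨y, hy⟩) := by
            show τ.1 (τ.1.symm (τ'.1 ⟨x, hx⟩)) < τ.1 (τ.1.symm (τ'.1 ⟨y, hy⟩))
            simpa using h1
          rw [← hf, rk_spec] at h2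
          exact h2.le
        · subst h
          exact le_rfl
      · rw [hin x hx, hout y hy]
        exact f.2 ((hM x hx _ (ρ ⟨x, hx⟩).2 y hy).2 hxy)
    · by_cases hy : y ∈ M
      · rw [hout x hx, hin y hy]
        exact f.2 ((hM y hy _ (ρ ⟨y, hy⟩).2 x hx).1 hxy)
      · rw [hout x hx, hout y hy]
        exact f.2 hxy
  apply Finset.card_le_card_of_injOn (fun f : LEn P n =>
    if h : Monotone (π.trans f.1) then (⟨π.trans f.1, h⟩ : LEn P n) else f)
  · intro f hf
    have hf' : rk hk f = τ := (mem_filter.1 (mem_coe.1 hf)).2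
    have h := hmono f hf'
    simp only [dif_pos h]
    rw [mem_coe, mem_filter]
    refine ⟨mem_univ _, Subtype.ext (rank_unique _ _ fun x y => ?_)⟩
    rw [rk_spec]
    show f.1 (π x) < f.1 (π y) ↔ _
    rw [hin x x.2, hin y y.2]
    rw [← rk_spec hk f, hf']
    show τ.1 (τ.1.symm (τ'.1 x)) < τ.1 (τ.1.symm (τ'.1 y)) ↔ _
    simp
  · intro f hf g hg hfg
    have hf' := hmono f (mem_filter.1 (mem_coe.1 hf)).2
    have hg' := hmono g (mem_filter.1 (mem_coe.1 hg)).2
    simp only [dif_pos hf', dif_pos hg'] at hfg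
    have h := congrArg Subtype.val hfg
    apply Subtype.ext
    apply Equiv.ext
    intro z
    have := Equiv.congr_fun h (π.symm z)
    simpa using this

lemma pr_autonomous (hM : Autonomous M) [Fintype M] (hn : Fintype.card P = n)
    (hk : Fintype.card M = k) (x y : M) : pr P n x y = pr M k x y := by
  classical
  obtain ⟨τ0⟩ := LEn_nonempty hk
  set N := #{f : LEn P n | rk hk f = τ0} with hN
  have hfib : ∀ τ : LEn M k, #{f : LEn P n | rk hk f = τ} = N := fun τ =>
    le_antisymm (fiber_le hM hk τ τ0) (fiber_le hM hk τ0 τ)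
  have h1 : Fintype.card (LEn P n) = Fintype.card (LEn M k) * N := by
    rw [← card_univ, Finset.card_eq_sum_card_fiberwise (f := rk hk) (t := univ)
      (fun _ _ => mem_univ _), Finset.sum_congr rfl (fun τ _ => hfib τ), Finset.sum_const,
      smul_eq_mul, card_univ]
  have h2 : (∑ f : LEn P n, if f.1 x < f.1 y then (1 : ℝ) else 0) =
      N * ∑ τ : LEn M k, if τ.1 x < τ.1 y then (1 : ℝ) else 0 := by
    rw [← Finset.sum_fiberwise (s := Finset.univ) (g := fun f : LEn P n => rk hk f),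
      Finset.mul_sum]
    apply Finset.sum_congr rfl
    intro τ _
    have h3 : ∀ f ∈ Finset.univ.filter (fun f : LEn P n => rk hk f = τ),
        (if f.1 x < f.1 y then (1 : ℝ) else 0) = if τ.1 x < τ.1 y then (1 : ℝ) else 0 := by
      intro f hf
      rw [← (mem_filter.1 hf).2]
      by_cases h : f.1 x < f.1 y
      · rw [if_pos h, if_pos ((rk_spec hk f x y).2 h)]
      · rw [if_neg h, if_neg (fun h' => h ((rk_spec hk f x y).1 h'))]
    rw [Finset.sum_congr rfl h3, Finset.sum_const, nsmul_eq_mul, hfib]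
  have hP := card_ne hn
  have hMk := card_ne hk
  unfold pr
  rw [h2, h1]
  have hN0 : (N : ℝ) ≠ 0 := by
    intro h
    rw [h1] at hP
    push_cast at hP
    rw [h, mul_zero] at hP
    exact hP rfl
  push_cast
  field_simp

theorem balance_autonomous (hM : Autonomous M) [Fintype M] [Nonempty M] :
    balance M ≤ balance P :=
  balance_le_of (fun x : M => (x : P)) fun x x' => by
    rw [prob_eq rfl, prob_eq rfl, pr_autonomous hM rfl rfl]

end Pool.Agent.H931R3.Bal
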