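import Mathlib
import Pool.Agent.H931R3.Bal14

/-! The first values of the width infima in the class of series-parallel posets. -/

open Finset

namespace Pool.Agent.H931R3.Bal

open Pool.Agent.H13R3.WB

lemma width_one : HasWidth (Fin 1) 1 := by
  classical
  refine ⟨⟨{0}, by simp, by simp⟩, fun s _ => ?_⟩
  have := card_le_univ s
  simpa using this

lemma sp_one : SeriesParallel (Fin 1) := SeriesParallel.one _ ⟨OrderIso.refl _⟩

lemma sp_EE : SeriesParallel EE := by
  have h1 : SeriesParallel (Fin 1) := sp_one
  have h2 : Built noBase X7 := X7_built noBase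
  have e : Fin 2 ≃o (Fin 1 ⊕ₗ Fin 1) :=
    { toFun := fun i => if i = 0 then toLex (Sum.inl 0) else toLex (Sum.inr 0)
      invFun := fun z => match ofLex z with
        | Sum.inl _ => 0
        | Sum.inr _ => 1
      left_inv := by
        intro i
        have : i = 0 ∨ i = 1 := by omega
        rcases this with rfl | rfl <;> simp
      right_inv := by
        intro z
        rcases z with z | z
        · have : z = 0 := Subsingleton.elim _ _
          subst this
          rfl
        · have : z = 0 := Subsingleton.elim _ _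
          subst this
          rfl
      map_rel_iff' := by
        intro a b
        have ha : a = 0 ∨ a = 1 := by omega
        have hb : b = 0 ∨ b = 1 := by omega
        rcases ha with rfl | rfl <;> rcases hb with rfl | rfl <;> simp }
  have h3 : SeriesParallel (Fin 1 ⊕ₗ Fin 1) := SeriesParallel.direct _ _ _ h1 h1 ⟨OrderIso.refl _⟩
  exact SeriesParallel.disj _ _ _ h3 h1 ⟨OrderIso.sumCongr e (OrderIso.refl _)⟩

lemma inD_EE : InD EE := InD.three _ ⟨OrderIso.refl _⟩

lemma width_EE : HasWidth EE 2 := by
  classical
  refine ⟨⟨{Sum.inl 0, Sum.inr 0}, ?_, card_pair (by simp)⟩, fun s hs => InD_width_le inD_EE s hs⟩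
  intro a ha b hb hab hle
  simp only [coe_insert, coe_singleton, Set.mem_insert_iff, Set.mem_singleton_iff] at ha hb
  rcases ha with rfl | rfl <;> rcases hb with rfl | rfl
  · exact hab rfl
  · exact Sum.not_inl_le_inr hle
  · exact Sum.not_inr_le_inl hle
  · exact hab rfl

lemma width_X7 : HasWidth X7 3 := by
  classical
  refine ⟨⟨{Sum.inl (toLex (Sum.inl (Sum.inl 0))), Sum.inl (toLex (Sum.inl (Sum.inr 0))),
    Sum.inr 0}, ?_, ?_⟩, ?_⟩
  · intro a ha b hb hab hle
    simp only [coe_insert, coe_singleton, Set.mem_insert_iff, Set.mem_singleton_iff] at ha hb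
    rcases ha with rfl | rfl | rfl <;> rcases hb with rfl | rfl | rfl
    · exact hab rfl
    · have h1 := Sum.inl_le_inl_iff.1 hle
      have h2 := Sum.Lex.inl_le_inl_iff.1 h1
      exact Sum.not_inl_le_inr h2
    · exact Sum.not_inl_le_inr hle
    · have h1 := Sum.inl_le_inl_iff.1 hle
      have h2 := Sum.Lex.inl_le_inl_iff.1 h1
      exact Sum.not_inr_le_inl h2
    · exact hab rfl
    · exact Sum.not_inl_le_inr hle
    · exact Sum.not_inr_le_inl hle
    · exact Sum.not_inr_le_inl hle
    · exact hab rfl
  · rw [card_insert_of_notMem, card_pair]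
    · simp
    · simp only [mem_insert, mem_singleton, not_or]
      constructor
      · intro h
        have := toLex.injective (Sum.inl_injective h)
        simp at this
      · simp
  · intro s hs
    by_contra hc
    have hcard : (univ : Finset (Fin 3)).card < s.card := by
      rw [card_univ, Fintype.card_fin]; omega
    obtain ⟨p, hp, q, hq, hpq, he⟩ := exists_ne_map_eq_of_card_lt_of_maps_to hcard
      (f := chainMap) (fun _ _ => mem_univ _)
    rcases chainMap_comp p q he with h | h
    · exact hs hp hq hpq h
    · exact hs hq hp hpq.symm h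

theorem dSP_one : dSP 1 = 0 := by
  have hset : {d : ℝ | ∃ (P : Type) (_ : Fintype P) (_ : PartialOrder P), SeriesParallel P ∧
      HasWidth P 1 ∧ balance P = d} = {0} := by
    ext d
    rw [Set.mem_singleton_iff]
    constructor
    · rintro ⟨P, _, _, h1, h2, rfl⟩
      have := SeriesParallel.nonempty h1
      exact balance_chain (total_of_width_one h2)
    · rintro rfl
      exact ⟨Fin 1, inferInstance, inferInstance, sp_one, width_one,
        balance_chain (fun x y => le_total x y)⟩
  unfold dSP
  rw [hset, csInf_singleton]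

lemma dSP_ge {w : ℕ} (hw : 1 ≤ w) {c : ℝ} (h : ∀ (P : Type) [Fintype P] [PartialOrder P],
    SeriesParallel P → HasWidth P w → c ≤ balance P) : c ≤ dSP w := by
  unfold dSP
  apply le_csInf
  · obtain ⟨P, i1, i2, h1, h2⟩ := exists_width w hw
    exact ⟨_, P, i1, i2, h1, h2, rfl⟩
  · rintro d ⟨P, _, _, h1, h2, rfl⟩
    exact h P h1 h2

lemma dSP_le {w : ℕ} (P : Type) [Fintype P] [PartialOrder P] (h1 : SeriesParallel P)
    (h2 : HasWidth P w) : dSP w ≤ balance P := by
  unfold dSP
  apply csInf_le
  · refine ⟨0, ?_⟩
    rintro d ⟨Q, _, _, h3, _, rfl⟩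
    have := SeriesParallel.nonempty h3
    exact balance_nonneg
  · exact ⟨P, inferInstance, inferInstance, h1, h2, rfl⟩

theorem dSP_two : dSP 2 = 1 / 3 := by
  apply le_antisymm
  · exact (dSP_le EE sp_EE width_EE).trans balance_EE_le
  · apply dSP_ge (by norm_num)
    intro P _ _ h1 h2
    rcases sp_gap P h1 with h3 | h3
    · rcases InD_third h3 with h4 | h4
      · exact absurd h4 (not_total_of_width le_rfl h2)
      · exact h4
    · linarith

theorem dSP_three : dSP 3 = 8 / 21 := by
  apply le_antisymm
  · exact (dSP_le X7 sp_sharp.1 width_X7).trans balance_X7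
  · exact dSP_ge (by norm_num) fun P _ _ h1 h2 => sp_width h1 le_rfl h2

theorem dSP_large (w : ℕ) (hw : 3 ≤ w) : 8 / 21 ≤ dSP w :=
  dSP_ge (by omega) fun P _ _ h1 h2 => sp_width h1 hw h2

end Pool.Agent.H931R3.Bal
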