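import Mathlib

set_option autoImplicit false

/-!
Linear arboricity: basic definitions and the two combinatorial lemmas
(two-colouring of slots, counting in trees of maximum degree two).
-/

namespace H931R3.LA

open SimpleGraph

/-- A linear forest: acyclic, every vertex has at most two neighbours. -/
def IsLF {V : Type} (F : SimpleGraph V) : Prop :=
  F.IsAcyclic ∧ ∀ v, (F.neighborSet v).ncard ≤ 2

/-- `G` is the union of `k` linear forests. -/
def Cov {V : Type} (G : SimpleGraph V) (k : ℕ) : Prop :=
  ∃ F : Fin k → SimpleGraph V, (∀ i, IsLF (F i)) ∧ (⨆ i, F i) = G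

/-- The linear arboricity. -/
noncomputable def la {V : Type} (G : SimpleGraph V) : ℕ :=
  sInf {k : ℕ | Cov G k}

/-- Two-colouring of slots.  Every `v` has two slots `(v, false)`, `(v, true)`; slots are put in
boxes by `κ`, at most two slots per box.  Then the slots can be two-coloured such that the two
slots of each `v` get different colours, and the slots of each box get different colours. -/
theorem two_col {V Q : Type} [DecidableEq V] (A : Finset V) :
    ∀ κ : V × Bool → Q,
      (∀ s₁ s₂ s₃ : V × Bool, s₁.1 ∈ A → s₂.1 ∈ A → s₃.1 ∈ A → s₁ ≠ s₂ → s₁ ≠ s₃ → s₂ ≠ s₃ →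
        κ s₁ = κ s₂ → κ s₁ = κ s₃ → False) →
      ∃ c : V × Bool → Bool, (∀ v ∈ A, c (v, false) ≠ c (v, true)) ∧
        ∀ s s' : V × Bool, s.1 ∈ A → s'.1 ∈ A → s ≠ s' → κ s = κ s' → c s ≠ c s' := by
  classical
  induction A using Finset.induction_on with
  | empty =>
    intro κ _
    exact ⟨fun _ => false, by simp, by simp⟩
  | insert v A hv ih =>
    intro κ hκ
    by_cases hq : κ (v, false) = κ (v, true)
    · obtain ⟨c, hc1, hc2⟩ := ih κ (fun s₁ s₂ s₃ h1 h2 h3 => hκ s₁ s₂ s₃
        (Finset.mem_insert_of_mem h1) (Finset.mem_insert_of_mem h2) (Finset.mem_insert_of_mem h3))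
      have key : ∀ s : V × Bool, s.1 ∈ A → ∀ b, κ (v, b) ≠ κ s := by
        intro s hs b hb
        have hsv : s.1 ≠ v := fun h => hv (h ▸ hs)
        have h1 : κ (v, false) = κ s := by
          cases b
          · exact hb
          · exact hq.trans hb
        exact hκ (v, false) (v, true) s (Finset.mem_insert_self _ _) (Finset.mem_insert_self _ _)
          (Finset.mem_insert_of_mem hs) (by simp) (fun h => hsv (by rw [← h]))
          (fun h => hsv (by rw [← h])) hq h1
      refine ⟨fun s => if s.1 = v then s.2 else c s, ?_, ?_⟩
      · intro w hw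
        by_cases hwv : w = v
        · simp [hwv]
        · simp only [hwv, if_false]
          exact hc1 w ((Finset.mem_insert.mp hw).resolve_left hwv)
      · rintro ⟨a, x⟩ ⟨b, y⟩ ha hb hne hk
        dsimp only at ha hb ⊢
        by_cases hav : a = v
        · by_cases hbv : b = v
          · subst hav; subst hbv
            simp only [if_true]
            intro h; exact hne (by rw [h])
          · exfalso
            exact key (b, y) ((Finset.mem_insert.mp hb).resolve_left hbv) x (by rw [← hav]; exact hk)
        · by_cases hbv : b = v
          · exfalso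
            exact key (a, x) ((Finset.mem_insert.mp ha).resolve_left hav) y
              (by rw [← hbv]; exact hk.symm)
          · simp only [hav, hbv, if_false]
            exact hc2 _ _ ((Finset.mem_insert.mp ha).resolve_left hav)
              ((Finset.mem_insert.mp hb).resolve_left hbv) hne hk
    · -- merge the two boxes
      set q₀ := κ (v, false) with hq₀
      set q₁ := κ (v, true) with hq₁
      let κ' : V × Bool → Q := fun s => if κ s = q₁ then q₀ else κ s
      have hne : ∀ s : V × Bool, s.1 ∈ A → ∀ b, (v, b) ≠ s := by
        intro s hs b h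
        exact hv (by rw [← h] at hs; exact hs)
      have uniq : ∀ b, ∀ s s' : V × Bool, s.1 ∈ A → s'.1 ∈ A → κ s = κ (v, b) → κ s' = κ (v, b) →
          s = s' := by
        intro b s s' hs hs' h h'
        by_contra hss
        exact hκ (v, b) s s' (Finset.mem_insert_self _ _) (Finset.mem_insert_of_mem hs)
          (Finset.mem_insert_of_mem hs') (hne s hs b) (hne s' hs' b) hss h.symm h'.symm
      obtain ⟨c, hc1, hc2⟩ := ih κ' (by
        intro s₁ s₂ s₃ h1 h2 h3 h12 h13 h23 e12 e13
        have cases3 : ∀ s : V × Bool, κ' s = q₀ → κ s = κ (v, false) ∨ κ s = κ (v, true) := by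
          intro s hs
          by_cases h : κ s = q₁
          · right; rw [h]
          · left
            have : κ' s = κ s := if_neg h
            rw [← this, hs]
        by_cases hval : κ' s₁ = q₀
        · have a1 := cases3 s₁ hval
          have a2 := cases3 s₂ (e12 ▸ hval)
          have a3 := cases3 s₃ (e13 ▸ hval)
          rcases a1 with a1 | a1 <;> rcases a2 with a2 | a2 <;> rcases a3 with a3 | a3 <;>
            first
              | exact h12 (uniq _ _ _ h1 h2 a1 a2)
              | exact h13 (uniq _ _ _ h1 h3 a1 a3)
              | exact h23 (uniq _ _ _ h2 h3 a2 a3)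
        · have out : ∀ s : V × Bool, κ' s ≠ q₀ → κ' s = κ s := by
            intro s hs
            by_cases h : κ s = q₁
            · exact absurd (if_pos h) hs
            · exact if_neg h
          have b1 := out s₁ hval
          have b2 := out s₂ (e12 ▸ hval)
          have b3 := out s₃ (e13 ▸ hval)
          exact hκ s₁ s₂ s₃ (Finset.mem_insert_of_mem h1) (Finset.mem_insert_of_mem h2)
            (Finset.mem_insert_of_mem h3) h12 h13 h23 (by rw [← b1, ← b2, e12])
            (by rw [← b1, ← b3, e13]))
      -- the value at (v, false)
      have hex : ∃ x : Bool, (∀ s : V × Bool, s.1 ∈ A → κ s = κ (v, false) → c s ≠ x) ∧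
          (∀ s : V × Bool, s.1 ∈ A → κ s = κ (v, true) → c s ≠ !x) := by
        by_cases h0 : ∃ s : V × Bool, s.1 ∈ A ∧ κ s = κ (v, false)
        · obtain ⟨s, hs, hks⟩ := h0
          refine ⟨!(c s), ?_, ?_⟩
          · intro s' hs' hk'
            rw [uniq false s' s hs' hs hk' hks]
            cases c s <;> simp
          · intro s' hs' hk'
            have hss : s ≠ s' := by
              rintro rfl
              exact hq (hks.symm.trans hk')
            have : κ' s = κ' s' := by
              have e1 : κ' s' = q₀ := if_pos hk'
              have e2 : κ' s = q₀ := by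
                by_cases h : κ s = q₁
                · exact if_pos h
                · have : κ' s = κ s := if_neg h
                  rw [this, hks]
              rw [e1, e2]
            have := hc2 s s' hs hs' hss this
            simp only [Bool.not_not]
            exact fun h => this h.symm
        · by_cases h1 : ∃ s : V × Bool, s.1 ∈ A ∧ κ s = κ (v, true)
          · obtain ⟨s, hs, hks⟩ := h1
            refine ⟨c s, ?_, ?_⟩
            · intro s' hs' hk'
              exact absurd ⟨s', hs', hk'⟩ h0
            · intro s' hs' hk'
              rw [uniq true s' s hs' hs hk' hks]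
              cases c s <;> simp
          · exact ⟨true, fun s' hs' hk' => absurd ⟨s', hs', hk'⟩ h0,
              fun s' hs' hk' => absurd ⟨s', hs', hk'⟩ h1⟩
      obtain ⟨x, hx0, hx1⟩ := hex
      refine ⟨fun s => if s.1 = v then (if s.2 then !x else x) else c s, ?_, ?_⟩
      · intro w hw
        by_cases hwv : w = v
        · simp [hwv]
        · simp only [hwv, if_false]
          exact hc1 w ((Finset.mem_insert.mp hw).resolve_left hwv)
      · rintro ⟨a, y⟩ ⟨b, z⟩ ha hb hne' hk
        dsimp only at ha hb ⊢
        by_cases hav : a = v
        · by_cases hbv : b = v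
          · exfalso
            subst hav; subst hbv
            cases y <;> cases z
            · exact hne' rfl
            · exact hq hk
            · exact hq hk.symm
            · exact hne' rfl
          · have hbA := (Finset.mem_insert.mp hb).resolve_left hbv
            subst hav
            cases y
            · simp only [if_true, hbv, if_false, Bool.false_eq_true]
              exact fun h => hx0 (b, z) hbA hk.symm h.symm
            · simp only [if_true, hbv, if_false]
              exact fun h => hx1 (b, z) hbA hk.symm h.symm
        · have haA := (Finset.mem_insert.mp ha).resolve_left hav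
          by_cases hbv : b = v
          · subst hbv
            cases z
            · simp only [if_true, hav, if_false, Bool.false_eq_true]
              exact hx0 (a, y) haA hk
            · simp only [if_true, hav, if_false]
              exact hx1 (a, y) haA hk
          · simp only [hav, hbv, if_false]
            have hbA := (Finset.mem_insert.mp hb).resolve_left hbv
            refine hc2 _ _ haA hbA hne' ?_
            show (if κ (a, y) = q₁ then q₀ else κ (a, y)) = (if κ (b, z) = q₁ then q₀ else κ (b, z))
            rw [hk]

/-- In a tree component, the degree sum is twice the number of vertices minus two. -/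
theorem comp_sum {V : Type} [Fintype V] (L : SimpleGraph V) (hac : L.IsAcyclic)
    (C : L.ConnectedComponent) (f : V → ℕ)
    (hf : ∀ v, (L.neighborSet v).ncard ≤ f v) :
    2 * (C.supp).ncard ≤ (∑ x ∈ C.supp.toFinite.toFinset, f x) + 2 := by
  classical
  have hT := hac.isTree_connectedComponent C
  have h1 := hT.card_edgeFinset
  have h2 := C.toSimpleGraph.sum_degrees_eq_twice_card_edges
  have h3 : ∑ x, C.toSimpleGraph.degree x ≤ ∑ x : C, f x.1 := by
    refine Finset.sum_le_sum fun x _ => le_trans ?_ (hf x.1)
    rw [← SimpleGraph.card_neighborFinset_eq_degree, ← Set.ncard_coe_finset]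
    rw [SimpleGraph.coe_neighborFinset]
    rw [← Set.ncard_image_of_injective _ Subtype.val_injective]
    refine Set.ncard_le_ncard ?_ (Set.toFinite _)
    rintro _ ⟨y, hy, rfl⟩
    exact hy
  have h4 : ∑ x : C, f x.1 = ∑ x ∈ C.supp.toFinite.toFinset, f x := by
    refine (Finset.sum_subtype _ (fun x => ?_) f).symm
    simp only [Set.Finite.mem_toFinset]
    exact Iff.rfl
  have h5 : Fintype.card C = C.supp.ncard := by
    rw [← Nat.card_eq_fintype_card]
    rfl
  rw [← h4, ← h5]
  omega

/-- A component of a linear forest has at most two vertices of degree at most one. -/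
theorem three_ends {V : Type} [Fintype V] (L : SimpleGraph V) (hL : IsLF L) (a b c : V)
    (hab : a ≠ b) (hac : a ≠ c) (hbc : b ≠ c)
    (ha : (L.neighborSet a).ncard ≤ 1) (hb : (L.neighborSet b).ncard ≤ 1)
    (hc : (L.neighborSet c).ncard ≤ 1)
    (h1 : L.Reachable a b) (h2 : L.Reachable a c) : False := by
  classical
  let C := L.connectedComponentMk a
  let f : V → ℕ := fun v => if v = a ∨ v = b ∨ v = c then 1 else 2
  have hf : ∀ v, (L.neighborSet v).ncard ≤ f v := by
    intro v
    by_cases h : v = a ∨ v = b ∨ v = c
    · have : f v = 1 := if_pos h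
      rw [this]
      rcases h with rfl | rfl | rfl <;> assumption
    · have : f v = 2 := if_neg h
      rw [this]
      exact hL.2 v
  have key := comp_sum L hL.1 C f hf
  set S := C.supp.toFinite.toFinset with hS
  have hcard : S.card = C.supp.ncard := by
    rw [Set.ncard_eq_toFinset_card _ C.supp.toFinite]
  have haS : a ∈ S := by rw [hS, Set.Finite.mem_toFinset]; exact rfl
  have hbS : b ∈ S := by
    rw [hS, Set.Finite.mem_toFinset]
    exact ConnectedComponent.sound h1.symm
  have hcS : c ∈ S := by
    rw [hS, Set.Finite.mem_toFinset]
    exact ConnectedComponent.sound h2.symm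
  have hsum : (∑ x ∈ S, f x) + 3 ≤ 2 * S.card := by
    have hsub : ({a, b, c} : Finset V) ⊆ S := by
      intro x hx
      simp only [Finset.mem_insert, Finset.mem_singleton] at hx
      rcases hx with rfl | rfl | rfl <;> assumption
    have h3 : ({a, b, c} : Finset V).card = 3 := Finset.card_eq_three.mpr ⟨a, b, c, hab, hac, hbc, rfl⟩
    have e1 : ∑ x ∈ S, (f x + if x ∈ ({a, b, c} : Finset V) then 1 else 0) = ∑ x ∈ S, 2 := by
      refine Finset.sum_congr rfl fun x _ => ?_
      by_cases hx : x = a ∨ x = b ∨ x = c
      · have : f x = 1 := if_pos hx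
        rw [this, if_pos (by simpa using hx)]
      · have : f x = 2 := if_neg hx
        rw [this, if_neg (by simpa using hx)]
    rw [Finset.sum_add_distrib, ← Finset.sum_filter, Finset.sum_const] at e1
    have e2 : (S.filter (fun x => x ∈ ({a, b, c} : Finset V))) = ({a, b, c} : Finset V) := by
      ext x
      simp only [Finset.mem_filter]
      exact ⟨fun h => h.2, fun h => ⟨hsub h, h⟩⟩
    rw [e2] at e1
    simp only [Finset.sum_const, h3, smul_eq_mul] at e1
    omega
  omega

/-- A linear forest on a nonempty finite vertex set has a vertex of degree at most one. -/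
theorem exists_end {V : Type} [Fintype V] (L : SimpleGraph V) (hL : IsLF L) (a : V) :
    ∃ v, (L.neighborSet v).ncard ≤ 1 := by
  classical
  by_contra hcon
  push Not at hcon
  have h2 : ∀ v, (L.neighborSet v).ncard = 2 := fun v => le_antisymm (hL.2 v) (hcon v)
  have hT := hL.1.isTree_connectedComponent (L.connectedComponentMk a)
  let C := L.connectedComponentMk a
  have h1 := hT.card_edgeFinset
  have h3 := C.toSimpleGraph.sum_degrees_eq_twice_card_edges
  have h4 : ∀ x : C, 2 ≤ C.toSimpleGraph.degree x := by
    intro x
    rw [← SimpleGraph.card_neighborFinset_eq_degree, ← Set.ncard_coe_finset,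
      SimpleGraph.coe_neighborFinset, ← Set.ncard_image_of_injective _ Subtype.val_injective,
      ← h2 x.1]
    refine Set.ncard_le_ncard ?_ (Set.toFinite _)
    intro y hy
    have hyC : y ∈ C.supp := by
      have hx : x.1 ∈ C.supp := x.2
      have hy' : L.Adj x.1 y := hy
      exact (C.mem_supp_congr_adj hy').mp hx
    exact ⟨⟨y, hyC⟩, hy, rfl⟩
  have h5 : ∑ x : C, 2 ≤ ∑ x, C.toSimpleGraph.degree x := Finset.sum_le_sum fun x _ => h4 x
  rw [Finset.sum_const, Finset.card_univ, smul_eq_mul] at h5
  have h6 : C.toSimpleGraph.edgeFinset.card + 1 = Fintype.card C := h1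
  omega

/-- A vertex of degree zero only reaches itself. -/
theorem eq_of_deg_zero {V : Type} [Fintype V] (L : SimpleGraph V) (a b : V)
    (ha : (L.neighborSet a).ncard = 0) (h : L.Reachable a b) : a = b := by
  obtain ⟨w⟩ := h
  cases w with
  | nil => rfl
  | cons hadj _ =>
    exfalso
    rw [Set.ncard_eq_zero (Set.toFinite _)] at ha
    have : _ ∈ L.neighborSet a := hadj
    rw [ha] at this
    exact this

end H931R3.LA
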