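import Pool.Agent.H931R3.LAPet

set_option autoImplicit false

/-!
Absorbing all forests of the second factor at once.
-/

namespace H931R3.LA

open SimpleGraph

/-- The selection of slots in pairs. -/
theorem exists_sel_pairs {V : Type} [Fintype V] (G : SimpleGraph V) (k m : ℕ) (c : Sym2 V → ℕ)
    (hlt : ∀ u v, G.Adj u v → c s(u, v) < k) (hc : ∀ i, IsLF (cls G c i))
    (hdeg : ∀ v, (G.neighborSet v).ncard + 2 * m ≤ 2 * k) :
    ∃ sel : V → Fin m × Bool → ℕ, (∀ v x, sel v x < k) ∧
      (∀ v i, {x | sel v x = i}.ncard + ((cls G c i).neighborSet v).ncard ≤ 2) ∧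
      (∀ v w x, sel v x = sel w x → (cls G c (sel v x)).Reachable v w → v = w) ∧
      (∀ i v w x y, sel v x = i → sel w y = i → (cls G c i).Reachable v w → x.1 = y.1) := by
  classical
  have hslots : ∀ v, ∃ s : Fin m × Bool → ℕ × Bool, Function.Injective s ∧ (∀ x, (s x).1 < k) ∧
      (∀ x, ((cls G c (s x).1).neighborSet v).ncard ≤ 1) ∧
      (∀ x, (s x).2 = true → ((cls G c (s x).1).neighborSet v).ncard = 0) := by
    intro v
    obtain ⟨s, t0, t1, t2, t3⟩ := q_slots (fun i => ((cls G c i).neighborSet v).ncard) k (2 * m)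
      (fun i => (hc i).2 v) (by rw [sum_cls G c k hlt v]; exact hdeg v)
    have e : Fin m × Bool ≃ Fin (2 * m) :=
      Fintype.equivFinOfCardEq (by
        rw [Fintype.card_prod, Fintype.card_fin, Fintype.card_bool, Nat.mul_comm])
    exact ⟨fun x => s (e x), fun x y h => e.injective (t0 h), fun x => t1 _, fun x => t2 _,
      fun x => t3 _⟩
  choose slot hs0 hs1 hs2 hs3 using hslots
  have hboth : ∀ v x y, x ≠ y → (slot v x).1 = (slot v y).1 →
      ((cls G c (slot v x).1).neighborSet v).ncard = 0 := by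
    intro v x y hxy h
    have hne : (slot v x).2 ≠ (slot v y).2 := fun h' => hxy (hs0 v (Prod.ext h h'))
    by_cases hx : (slot v x).2 = true
    · exact hs3 v x hx
    · have hy : (slot v y).2 = true := by
        revert hne hx
        cases (slot v x).2 <;> cases (slot v y).2 <;> simp
      rw [h]
      exact hs3 v y hy
  have hthree : ∀ i v₁ v₂ v₃ x₁ x₂ x₃, (v₁, x₁) ≠ (v₂, x₂) → (v₁, x₁) ≠ (v₃, x₃) →
      (v₂, x₂) ≠ (v₃, x₃) → (slot v₁ x₁).1 = i → (slot v₂ x₂).1 = i → (slot v₃ x₃).1 = i →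
      (cls G c i).Reachable v₁ v₂ → (cls G c i).Reachable v₁ v₃ → False := by
    intro i v₁ v₂ v₃ x₁ x₂ x₃ h12 h13 h23 i1 i2 i3 r12 r13
    have d1 : ((cls G c i).neighborSet v₁).ncard ≤ 1 := by rw [← i1]; exact hs2 v₁ x₁
    have d2 : ((cls G c i).neighborSet v₂).ncard ≤ 1 := by rw [← i2]; exact hs2 v₂ x₂
    have d3 : ((cls G c i).neighborSet v₃).ncard ≤ 1 := by rw [← i3]; exact hs2 v₃ x₃
    have same : ∀ v x y z, x ≠ y → x ≠ z → y ≠ z → (slot v x).1 = i → (slot v y).1 = i →
        (slot v z).1 = i → False := by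
      intro v x y z hxy hxz hyz a1 a2 a3
      have n1 : (slot v x).2 ≠ (slot v y).2 := fun h' => hxy (hs0 v (Prod.ext (a1.trans a2.symm) h'))
      have n2 : (slot v x).2 ≠ (slot v z).2 := fun h' => hxz (hs0 v (Prod.ext (a1.trans a3.symm) h'))
      have n3 : (slot v y).2 ≠ (slot v z).2 := fun h' => hyz (hs0 v (Prod.ext (a2.trans a3.symm) h'))
      revert n1 n2 n3
      cases (slot v x).2 <;> cases (slot v y).2 <;> cases (slot v z).2 <;> simp
    by_cases e1 : v₁ = v₂
    · subst e1
      have n12 : x₁ ≠ x₂ := fun h => h12 (by rw [h])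
      have z := hboth v₁ x₁ x₂ n12 (i1.trans i2.symm)
      rw [i1] at z
      have e2 := eq_of_deg_zero _ _ _ z r13
      subst e2
      exact same v₁ x₁ x₂ x₃ n12 (fun h => h13 (by rw [h])) (fun h => h23 (by rw [h])) i1 i2 i3
    · by_cases e2 : v₁ = v₃
      · subst e2
        have n13 : x₁ ≠ x₃ := fun h => h13 (by rw [h])
        have z := hboth v₁ x₁ x₃ n13 (i1.trans i3.symm)
        rw [i1] at z
        exact e1 (eq_of_deg_zero _ _ _ z r12)
      · by_cases e3 : v₂ = v₃
        · subst e3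
          have n23 : x₂ ≠ x₃ := fun h => h23 (by rw [h])
          have z := hboth v₂ x₂ x₃ n23 (i2.trans i3.symm)
          rw [i2] at z
          exact e1 (eq_of_deg_zero _ _ _ z r12.symm).symm
        · exact three_ends _ (hc _) v₁ v₂ v₃ e1 e2 e3 d1 d2 d3 r12 r13
  let κ : V × (Fin m × Bool) → ℕ × Set V := fun s =>
    ((slot s.1 s.2).1, {w | (cls G c (slot s.1 s.2).1).Reachable s.1 w})
  have hκ : ∀ s s' : V × (Fin m × Bool), κ s = κ s' → (slot s.1 s.2).1 = (slot s'.1 s'.2).1 ∧
      (cls G c (slot s.1 s.2).1).Reachable s.1 s'.1 := by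
    intro s s' h
    have h1 : (κ s).1 = (κ s').1 := by rw [h]
    have h2 : (κ s).2 = (κ s').2 := by rw [h]
    change (slot s.1 s.2).1 = (slot s'.1 s'.2).1 at h1
    change {w | (cls G c (slot s.1 s.2).1).Reachable s.1 w} =
        {w | (cls G c (slot s'.1 s'.2).1).Reachable s'.1 w} at h2
    refine ⟨h1, ?_⟩
    have h3 : s'.1 ∈ {w | (cls G c (slot s'.1 s'.2).1).Reachable s'.1 w} := Reachable.refl _
    rw [← h2] at h3
    exact h3
  have hκ' : ∀ v w x y, (slot v x).1 = (slot w y).1 → (cls G c (slot v x).1).Reachable v w →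
      κ (v, x) = κ (w, y) := by
    intro v w x y h hr
    refine Prod.ext h ?_
    show {u | (cls G c (slot v x).1).Reachable v u} = {u | (cls G c (slot w y).1).Reachable w u}
    rw [← h]
    ext u
    show (cls G c (slot v x).1).Reachable v u ↔ (cls G c (slot v x).1).Reachable w u
    exact ⟨fun hu => hr.symm.trans hu, fun hu => hr.trans hu⟩
  obtain ⟨lab, hp1, hp2⟩ := pair_labels m κ (by
    intro s₁ s₂ s₃ h12 h13 h23 e12 e13
    obtain ⟨i12, r12⟩ := hκ s₁ s₂ e12
    obtain ⟨i13, r13⟩ := hκ s₁ s₃ e13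
    exact hthree _ s₁.1 s₂.1 s₃.1 s₁.2 s₂.2 s₃.2 h12 h13 h23 rfl i12.symm i13.symm r12 r13)
  refine ⟨fun v x => (slot v (lab v x)).1, fun v x => hs1 _ _, ?_, ?_, ?_⟩
  · intro v i
    set T := {x | (slot v (lab v x)).1 = i} with hT
    have hinj : Set.InjOn (fun x => (slot v (lab v x)).2) T := by
      intro a ha b hb hab
      exact hp1 v (hs0 v (Prod.ext (ha.trans hb.symm) hab))
    have hcard : T.ncard = ((fun x => (slot v (lab v x)).2) '' T).ncard :=
      hinj.ncard_image.symm
    rcases Set.eq_empty_or_nonempty T with h0 | ⟨x, hx⟩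
    · rw [h0, Set.ncard_empty, Nat.zero_add]
      exact (hc i).2 v
    · have d1 : ((cls G c i).neighborSet v).ncard ≤ 1 := by
        have := hs2 v (lab v x)
        rw [show (slot v (lab v x)).1 = i from hx] at this
        exact this
      rcases Nat.eq_zero_or_pos ((cls G c i).neighborSet v).ncard with hz | hz
      · rw [hz, Nat.add_zero, hcard]
        refine le_trans (Set.ncard_le_ncard (Set.subset_univ _) (Set.toFinite _)) ?_
        rw [Set.ncard_univ]
        simp
      · have hsub : (fun x => (slot v (lab v x)).2) '' T ⊆ {false} := by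
          rintro _ ⟨y, hy, rfl⟩
          by_contra hcon
          have hyt : (slot v (lab v y)).2 = true := by
            revert hcon
            show ¬ ((slot v (lab v y)).2 = false) → _
            cases (slot v (lab v y)).2 <;> simp
          have := hs3 v (lab v y) hyt
          rw [show (slot v (lab v y)).1 = i from hy] at this
          omega
        have h1 := Set.ncard_le_ncard hsub (Set.toFinite _)
        rw [Set.ncard_singleton] at h1
        omega
  · intro v w x h hr
    change (slot v (lab v x)).1 = (slot w (lab w x)).1 at h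
    change (cls G c (slot v (lab v x)).1).Reachable v w at hr
    by_contra hvw
    have := (hp2 v w x x (fun h' => hvw (congrArg Prod.fst h')) (hκ' _ _ _ _ h hr)).2
    exact this rfl
  · intro i v w x y hx hy hr
    change (slot v (lab v x)).1 = i at hx
    change (slot w (lab w y)).1 = i at hy
    by_cases hxy : (v, lab v x) = (w, lab w y)
    · have h1 : v = w := congrArg Prod.fst hxy
      subst h1
      rw [hp1 v (congrArg Prod.snd hxy)]
    · exact (hp2 v w x y hxy (hκ' _ _ _ _ (hx.trans hy.symm) (by rw [hx]; exact hr))).1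

/-- **Main theorem**: if `G` is covered by `k` and `H` by `m` linear forests, and all degrees of
`G` are at most `2 k - 2 m`, then `G □ H` is covered by `k` linear forests. -/
theorem cov_boxProd_all {V W : Type} [Finite V] [Finite W] {G : SimpleGraph V}
    {H : SimpleGraph W} {k m : ℕ} (hG : Cov G k) (hH : Cov H m)
    (hdeg : ∀ v, (G.neighborSet v).ncard + 2 * m ≤ 2 * k) : Cov (G □ H) k := by
  classical
  have := Fintype.ofFinite V
  have := Fintype.ofFinite W
  obtain ⟨c, hlt, hc⟩ := exists_col hG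
  obtain ⟨d, hdlt, hd⟩ := exists_col hH
  obtain ⟨sel, s0, s1, s2, s3⟩ := exists_sel_pairs G k m c hlt hc hdeg
  choose ε hε using fun j => edge_two_col (cls H d j) (hd j)
  -- the condition at an edge `e` of `H` and a vertex `v` of `G`
  let p : ℕ → V → Sym2 W → Prop := fun i v e =>
    ∃ h : d e < m, sel v (⟨d e, h⟩, ε (d e) e) = i
  refine ⟨fun i => mix (cls G c i.val) H (p i.val), ?_, ?_⟩
  · intro i
    refine ⟨mix_acyclic_gen _ _ _ (hc _).1 ?_ ?_, ?_⟩
    · intro u
      by_cases hex : ∃ (j : ℕ) (hj : j < m) (b : Bool) (v : V),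
          (cls G c i.val).Reachable u v ∧ sel v (⟨j, hj⟩, b) = i.val
      · obtain ⟨j, hj, b, v, hv, hs⟩ := hex
        refine (hd j).1.anti ?_
        rintro x y ⟨hxy, w, hw, hlt', hs'⟩
        refine ⟨hxy, ?_⟩
        have := s3 i.val v w _ _ hs hs' (hv.symm.trans hw)
        exact (congrArg Fin.val this).symm
      · refine (isAcyclic_bot : (⊥ : SimpleGraph W).IsAcyclic).anti ?_
        rintro x y ⟨hxy, w, hw, hlt', hs'⟩
        exact absurd ⟨_, hlt', _, w, hw, hs'⟩ hex
    · rintro u v e ⟨h1, hu⟩ ⟨_, hv⟩ hr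
      exact s2 u v _ (hu.trans hv.symm) (by rw [hu]; exact hr)
    · rintro ⟨v, h⟩
      refine le_trans (mix_degree _ _ _ _) ?_
      dsimp only
      set T := {h' | H.Adj h h' ∧ p i.val v s(h, h')} with hT
      let g : W → ℕ × Bool := fun h' => (d s(h, h'), ε (d s(h, h')) s(h, h'))
      have hinj : Set.InjOn g T := by
        intro a ha b hb hab
        by_contra hne
        have h1 : d s(h, a) = d s(h, b) := congrArg Prod.fst hab
        have h2 : ε (d s(h, a)) s(h, a) = ε (d s(h, b)) s(h, b) := congrArg Prod.snd hab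
        rw [← h1] at h2
        exact hε (d s(h, a)) h a b ⟨ha.1, rfl⟩ ⟨hb.1, h1.symm⟩ hne h2
      have hsub : g '' T ⊆ (fun x : Fin m × Bool => (x.1.val, x.2)) '' {x | sel v x = i.val} := by
        rintro _ ⟨a, ⟨_, hlt', hs⟩, rfl⟩
        exact ⟨(⟨d s(h, a), hlt'⟩, ε (d s(h, a)) s(h, a)), hs, rfl⟩
      have hT1 : T.ncard ≤ {x | sel v x = i.val}.ncard := by
        rw [← hinj.ncard_image]
        exact le_trans (Set.ncard_le_ncard hsub (Set.toFinite _))
          (Set.ncard_image_le (Set.toFinite _))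
      have := s1 v i.val
      omega
  · ext x y
    rw [iSup_adj, boxProd_adj]
    constructor
    · rintro ⟨i, (⟨h1, h2⟩ | ⟨h1, h2, _⟩)⟩
      · exact Or.inl ⟨h2.1, h1⟩
      · exact Or.inr ⟨h2, h1⟩
    · rintro (⟨h1, h2⟩ | ⟨h1, h2⟩)
      · exact ⟨⟨c s(x.1, y.1), hlt _ _ h1⟩, Or.inl ⟨h2, h1, rfl⟩⟩
      · have hlt' := hdlt _ _ h1
        exact ⟨⟨sel x.1 (⟨d s(x.2, y.2), hlt'⟩, ε (d s(x.2, y.2)) s(x.2, y.2)), s0 _ _⟩,
          Or.inr ⟨h2, h1, hlt', rfl⟩⟩

end H931R3.LA
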