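import Pool.Agent.H931R3.LASel

set_option autoImplicit false

/-!
The forests of the Cartesian product.
-/

namespace H931R3.LA

open SimpleGraph

/-- Closed predicates propagate along reachability. -/
theorem reach_induct {V : Type} {G : SimpleGraph V} {R : V → Prop} {x y : V}
    (h : G.Reachable x y) (hx : R x) (hR : ∀ a b, R a → G.Adj a b → R b) : R y := by
  obtain ⟨w⟩ := h
  induction w with
  | nil => exact hx
  | cons hadj _ ih => exact ih (hR _ _ hx hadj)

/-- The mixed product: horizontal edges from `L`, vertical edges from `F` at the places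
where `p` holds. -/
def mix {V W : Type} (L : SimpleGraph V) (F : SimpleGraph W) (p : V → Sym2 W → Prop) :
    SimpleGraph (V × W) where
  Adj x y := (x.2 = y.2 ∧ L.Adj x.1 y.1) ∨ (x.1 = y.1 ∧ F.Adj x.2 y.2 ∧ p x.1 s(x.2, y.2))
  symm.symm := by
    rintro x y (⟨h1, h2⟩ | ⟨h1, h2, h3⟩)
    · exact Or.inl ⟨h1.symm, h2.symm⟩
    · refine Or.inr ⟨h1.symm, h2.symm, ?_⟩
      rw [Sym2.eq_swap, ← h1]; exact h3
  loopless.irrefl := by
    rintro x (⟨_, h2⟩ | ⟨_, h2, _⟩)
    · exact h2.ne rfl
    · exact h2.ne rfl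

theorem mix_acyclic {V W : Type} (L : SimpleGraph V) (F : SimpleGraph W) (p : V → Sym2 W → Prop)
    (hL : L.IsAcyclic) (hF : F.IsAcyclic)
    (hp : ∀ u v e, p u e → p v e → L.Reachable u v → u = v) : (mix L F p).IsAcyclic := by
  classical
  rw [isAcyclic_iff_forall_adj_isBridge] at hL hF ⊢
  rintro ⟨u, h⟩ ⟨w, h'⟩ (⟨h1, h2⟩ | ⟨h1, h2, h3⟩)
  · -- horizontal edge
    dsimp only at h1 h2
    subst h1
    rw [isBridge_iff]
    intro hreach
    have hbr := hL h2
    rw [isBridge_iff] at hbr
    have hle : L.deleteEdges {s(u, w)} ≤ L := L.deleteEdges_le _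
    let S : V × W → Prop := fun x =>
      (x.2 = h ∧ (L.deleteEdges {s(u, w)}).Reachable u x.1) ∨
      (x.2 ≠ h ∧ L.Reachable u x.1 ∧ ∃ z, F.Adj h z ∧ (F.deleteEdges {s(h, z)}).Reachable z x.2 ∧
        ∃ s, p s s(h, z) ∧ (L.deleteEdges {s(u, w)}).Reachable u s)
    have hS : S (w, h) := by
      refine reach_induct hreach (R := S) (Or.inl ⟨rfl, Reachable.refl _⟩) ?_
      rintro ⟨a, y⟩ ⟨a', y'⟩ hSa hadj
      rw [deleteEdges_adj] at hadj
      obtain ⟨hadj, hne⟩ := hadj
      simp only [Set.mem_singleton_iff] at hne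
      rcases hadj with ⟨e1, e2⟩ | ⟨e1, e2, e3⟩
      · dsimp only at e1 e2
        subst e1
        rcases hSa with ⟨hy, hr⟩ | ⟨hy, hr, hz⟩
        · dsimp only at hy hr
          subst hy
          refine Or.inl ⟨rfl, hr.trans (Adj.reachable ?_)⟩
          rw [deleteEdges_adj]
          refine ⟨e2, ?_⟩
          simp only [Set.mem_singleton_iff]
          intro hcon
          apply hne
          rw [Sym2.eq_iff] at hcon ⊢
          rcases hcon with ⟨c1, c2⟩ | ⟨c1, c2⟩
          · exact Or.inl ⟨by rw [c1], by rw [c2]⟩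
          · exact Or.inr ⟨by rw [c1], by rw [c2]⟩
        · exact Or.inr ⟨hy, hr.trans e2.reachable, hz⟩
      · dsimp only at e1 e2 e3
        subst e1
        rcases hSa with ⟨hy, hr⟩ | ⟨hy, hr, z, hz1, hz2, s, hs1, hs2⟩
        · dsimp only at hy hr
          subst hy
          refine Or.inr ⟨e2.ne', hr.mono hle, y', e2, Reachable.refl _, a, e3, hr⟩
        · dsimp only at hy hr hz2
          by_cases hy' : y' = h
          · -- returns to the level of h
            subst hy'
            have hyz : y = z := by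
              by_contra hyz
              have hb := hF hz1
              rw [isBridge_iff] at hb
              apply hb
              refine (hz2.trans (Adj.reachable ?_)).symm
              rw [deleteEdges_adj]
              refine ⟨e2, ?_⟩
              simp only [Set.mem_singleton_iff]
              intro hcon
              rw [Sym2.eq_iff] at hcon
              rcases hcon with ⟨c1, _⟩ | ⟨c1, _⟩
              · exact hy c1
              · exact hyz c1
            subst hyz
            have hsa : a = s := by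
              refine hp a s s(y', y) ?_ hs1 (hr.symm.trans (hs2.mono hle))
              rw [Sym2.eq_swap]; exact e3
            exact Or.inl ⟨rfl, hsa ▸ hs2⟩
          · refine Or.inr ⟨hy', hr, z, hz1, hz2.trans (Adj.reachable ?_), s, hs1, hs2⟩
            rw [deleteEdges_adj]
            refine ⟨e2, ?_⟩
            simp only [Set.mem_singleton_iff]
            intro hcon
            rw [Sym2.eq_iff] at hcon
            rcases hcon with ⟨c1, _⟩ | ⟨_, c2⟩
            · exact hy c1
            · exact hy' c2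
    rcases hS with ⟨_, hr⟩ | ⟨hy, _⟩
    · exact hbr hr
    · exact hy rfl
  · -- vertical edge
    dsimp only at h1 h2 h3
    subst h1
    rw [isBridge_iff]
    intro hreach
    have hbr := hF h2
    rw [isBridge_iff] at hbr
    let R : V × W → Prop := fun x =>
      L.Reachable u x.1 ∧ (F.deleteEdges {s(h, h')}).Reachable h x.2
    have hR : R (u, h') := by
      refine reach_induct hreach (R := R) ⟨Reachable.refl _, Reachable.refl _⟩ ?_
      rintro ⟨a, y⟩ ⟨a', y'⟩ ⟨hRa, hRy⟩ hadj
      rw [deleteEdges_adj] at hadj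
      obtain ⟨hadj, hne⟩ := hadj
      simp only [Set.mem_singleton_iff] at hne
      dsimp only at hRa hRy
      rcases hadj with ⟨e1, e2⟩ | ⟨e1, e2, e3⟩
      · dsimp only at e1 e2
        subst e1
        exact ⟨hRa.trans e2.reachable, hRy⟩
      · dsimp only at e1 e2 e3
        subst e1
        refine ⟨hRa, hRy.trans (Adj.reachable ?_)⟩
        rw [deleteEdges_adj]
        refine ⟨e2, ?_⟩
        simp only [Set.mem_singleton_iff]
        intro hcon
        have hua : u = a := by
          refine hp u a s(h, h') h3 ?_ hRa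
          rw [← hcon]; exact e3
        apply hne
        subst hua
        rw [Sym2.eq_iff] at hcon ⊢
        rcases hcon with ⟨c1, c2⟩ | ⟨c1, c2⟩
        · exact Or.inl ⟨by rw [c1], by rw [c2]⟩
        · exact Or.inr ⟨by rw [c1], by rw [c2]⟩
    exact hbr hR.2

/-- The neighbours in a mixed product. -/
theorem mix_degree {V W : Type} [Finite V] [Finite W] (L : SimpleGraph V) (F : SimpleGraph W)
    (p : V → Sym2 W → Prop) (x : V × W) :
    ((mix L F p).neighborSet x).ncard ≤
      (L.neighborSet x.1).ncard + {h' | F.Adj x.2 h' ∧ p x.1 s(x.2, h')}.ncard := by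
  classical
  have hsub : (mix L F p).neighborSet x ⊆
      ((fun u => (u, x.2)) '' (L.neighborSet x.1)) ∪
        ((fun h' => (x.1, h')) '' {h' | F.Adj x.2 h' ∧ p x.1 s(x.2, h')}) := by
    rintro ⟨a, y⟩ (⟨e1, e2⟩ | ⟨e1, e2, e3⟩)
    · left
      dsimp only at e1 e2
      exact ⟨a, e2, by rw [e1]⟩
    · right
      dsimp only at e1 e2 e3
      exact ⟨y, ⟨e2, e3⟩, by rw [e1]⟩
  refine le_trans (Set.ncard_le_ncard hsub (Set.toFinite _)) ?_
  refine le_trans (Set.ncard_union_le _ _) ?_
  exact Nat.add_le_add (Set.ncard_image_le (Set.toFinite _)) (Set.ncard_image_le (Set.toFinite _))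

/-- A linear forest has a proper edge colouring with two colours. -/
theorem edge_two_col {W : Type} [Fintype W] (F : SimpleGraph W) (hF : IsLF F) :
    ∃ ε : Sym2 W → Bool, ∀ w a b, F.Adj w a → F.Adj w b → a ≠ b → ε s(w, a) ≠ ε s(w, b) := by
  classical
  obtain ⟨C⟩ := hF.1.colorable_two
  let β : W → Bool := fun w => decide (C w = 0)
  have hβ : ∀ u v, F.Adj u v → β u ≠ β v := by
    intro u v huv hb
    have h1 : C u ≠ C v := C.valid huv
    have h2 : (C u = 0) ↔ (C v = 0) := by
      have : decide (C u = 0) = decide (C v = 0) := hb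
      exact decide_eq_decide.mp this
    apply h1
    by_cases h0 : C u = 0
    · rw [h0, h2.mp h0]
    · have h0' : C v ≠ 0 := fun h => h0 (h2.mpr h)
      revert h0 h0'
      generalize C u = x
      generalize C v = y
      revert x y
      decide
  let κ : Sym2 W × Bool → Set W := fun s => {w | w ∈ s.1 ∧ β w = s.2}
  have hκ : ∀ w a, F.Adj w a → κ (s(w, a), β w) = {w} := by
    intro w a hwa
    ext x
    simp only [κ, Sym2.mem_iff, Set.mem_singleton_iff]
    constructor
    · rintro ⟨rfl | rfl, hx⟩
      · rfl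
      · exact absurd hx.symm (hβ _ _ hwa)
    · rintro rfl
      exact ⟨Or.inl rfl, rfl⟩
  have hform : ∀ s : Sym2 W × Bool, s.1 ∈ F.edgeFinset → ∃ w a, F.Adj w a ∧ s = (s(w, a), β w) := by
    rintro ⟨e, b⟩ he
    dsimp only at he
    rw [mem_edgeFinset] at he
    induction e using Sym2.ind with
    | _ x y =>
      have hxy : F.Adj x y := he
      by_cases hb : β x = b
      · exact ⟨x, y, hxy, by rw [hb]⟩
      · refine ⟨y, x, hxy.symm, ?_⟩
        have h3 := hβ _ _ hxy
        have : β y = b := by
          revert h3 hb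
          cases β x <;> cases β y <;> cases b <;> simp
        rw [this, Sym2.eq_swap]
  obtain ⟨c, hc1, hc2⟩ := two_col F.edgeFinset κ (by
    intro s₁ s₂ s₃ m1 m2 m3 h12 h13 h23 e12 e13
    obtain ⟨w1, a1, ad1, r1⟩ := hform s₁ m1
    obtain ⟨w2, a2, ad2, r2⟩ := hform s₂ m2
    obtain ⟨w3, a3, ad3, r3⟩ := hform s₃ m3
    rw [r1, r2, hκ _ _ ad1, hκ _ _ ad2] at e12
    rw [r1, r3, hκ _ _ ad1, hκ _ _ ad3] at e13
    have f12 : w1 = w2 := Set.singleton_injective e12
    have f13 : w1 = w3 := Set.singleton_injective e13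
    subst f12; subst f13
    have g12 : a1 ≠ a2 := by
      rintro rfl; exact h12 (r1.trans r2.symm)
    have g13 : a1 ≠ a3 := by
      rintro rfl; exact h13 (r1.trans r3.symm)
    have g23 : a2 ≠ a3 := by
      rintro rfl; exact h23 (r2.trans r3.symm)
    have hsub : (({a1, a2, a3} : Finset W) : Set W) ⊆ F.neighborSet w1 := by
      intro x hx
      simp only [Finset.coe_insert, Finset.coe_singleton, Set.mem_insert_iff,
        Set.mem_singleton_iff] at hx
      rcases hx with rfl | rfl | rfl <;> assumption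
    have h1 := Set.ncard_le_ncard hsub (Set.toFinite _)
    rw [Set.ncard_coe_finset, Finset.card_eq_three.mpr ⟨a1, a2, a3, g12, g13, g23, rfl⟩] at h1
    have := hF.2 w1
    omega)
  refine ⟨fun e => c (e, false), ?_⟩
  intro w a b ha hb hab
  have hma : s(w, a) ∈ F.edgeFinset := by rw [mem_edgeFinset]; exact ha
  have hmb : s(w, b) ∈ F.edgeFinset := by rw [mem_edgeFinset]; exact hb
  have hne : s(w, a) ≠ s(w, b) := by
    intro h
    rw [Sym2.eq_iff] at h
    rcases h with ⟨_, h⟩ | ⟨h, _⟩
    · exact hab h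
    · exact hb.ne h
  have hκe : κ (s(w, a), β w) = κ (s(w, b), β w) := by rw [hκ _ _ ha, hκ _ _ hb]
  have h2 := hc2 (s(w, a), β w) (s(w, b), β w) hma hmb
    (fun h => hne (congrArg Prod.fst h)) hκe
  have ha1 := hc1 _ hma
  have hb1 := hc1 _ hmb
  show c (s(w, a), false) ≠ c (s(w, b), false)
  revert h2 ha1 hb1
  cases β w
  · intro h2 _ _; exact h2
  · generalize c (s(w, a), false) = x1
    generalize c (s(w, a), true) = x2
    generalize c (s(w, b), false) = x3
    generalize c (s(w, b), true) = x4
    cases x1 <;> cases x2 <;> cases x3 <;> cases x4 <;> simp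

theorem isLF_horizontal {V W : Type} [Finite V] [Finite W] (L : SimpleGraph V) (hL : IsLF L) :
    IsLF (mix L (⊥ : SimpleGraph W) (fun _ _ => False)) := by
  refine ⟨mix_acyclic _ _ _ hL.1 isAcyclic_bot (fun u v e h _ _ => h.elim), ?_⟩
  intro x
  refine le_trans (mix_degree _ _ _ x) ?_
  have h0 : {h' : W | (⊥ : SimpleGraph W).Adj x.2 h' ∧ False} = ∅ := by
    ext y; simp
  rw [h0, Set.ncard_empty]
  exact hL.2 x.1

theorem isLF_vertical {V W : Type} [Finite V] [Finite W] (F : SimpleGraph W) (hF : IsLF F) :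
    IsLF (mix (⊥ : SimpleGraph V) F (fun _ _ => True)) := by
  refine ⟨mix_acyclic _ _ _ isAcyclic_bot hF.1 (fun u v e _ _ h => reachable_bot.mp h), ?_⟩
  intro x
  refine le_trans (mix_degree _ _ _ x) ?_
  have h0 : (⊥ : SimpleGraph V).neighborSet x.1 = ∅ := by
    ext y; simp
  have h1 : {h' : W | F.Adj x.2 h' ∧ True} = F.neighborSet x.2 := by
    ext y; simp
  rw [h0, h1, Set.ncard_empty, Nat.zero_add]
  exact hF.2 x.2

/-- The trivial bound: the covers of the factors add up. -/
theorem cov_boxProd {V W : Type} [Finite V] [Finite W] {G : SimpleGraph V} {H : SimpleGraph W}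
    {k m : ℕ} (hG : Cov G k) (hH : Cov H m) : Cov (G □ H) (k + m) := by
  classical
  obtain ⟨A, hA, hAG⟩ := hG
  obtain ⟨B, hB, hBH⟩ := hH
  refine ⟨Fin.append (fun i => mix (A i) ⊥ (fun _ _ => False))
    (fun j => mix ⊥ (B j) (fun _ _ => True)), ?_, ?_⟩
  · intro i
    refine Fin.addCases (fun i => ?_) (fun j => ?_) i
    · rw [Fin.append_left]
      exact isLF_horizontal _ (hA i)
    · rw [Fin.append_right]
      exact isLF_vertical _ (hB j)
  · ext x y
    rw [iSup_adj, boxProd_adj]
    constructor
    · rintro ⟨i, hi⟩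
      revert hi
      refine Fin.addCases (fun i => ?_) (fun j => ?_) i
      · rw [Fin.append_left]
        rintro (⟨h1, h2⟩ | ⟨_, h2, _⟩)
        · refine Or.inl ⟨?_, h1⟩
          rw [← hAG, iSup_adj]
          exact ⟨i, h2⟩
        · exact absurd h2 (by simp)
      · rw [Fin.append_right]
        rintro (⟨_, h2⟩ | ⟨h1, h2, _⟩)
        · exact absurd h2 (by simp)
        · refine Or.inr ⟨?_, h1⟩
          rw [← hBH, iSup_adj]
          exact ⟨j, h2⟩
    · rintro (⟨h1, h2⟩ | ⟨h1, h2⟩)
      · rw [← hAG, iSup_adj] at h1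
        obtain ⟨i, hi⟩ := h1
        refine ⟨Fin.castAdd m i, ?_⟩
        rw [Fin.append_left]
        exact Or.inl ⟨h2, hi⟩
      · rw [← hBH, iSup_adj] at h1
        obtain ⟨j, hj⟩ := h1
        refine ⟨Fin.natAdd k j, ?_⟩
        rw [Fin.append_right]
        exact Or.inr ⟨h2, hj, trivial⟩

/-- The mixed classes are linear forests. -/
theorem isLF_mix {V W : Type} [Fintype V] [Fintype W] {G : SimpleGraph V} {c : Sym2 V → ℕ}
    {F : SimpleGraph W} (hc : ∀ i, IsLF (cls G c i)) (hF : IsLF F) (ε : Sym2 W → Bool)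
    (hε : ∀ w a b, F.Adj w a → F.Adj w b → a ≠ b → ε s(w, a) ≠ ε s(w, b))
    (sel : V → Bool → ℕ)
    (h1 : ∀ v x, ((cls G c (sel v x)).neighborSet v).ncard ≤ 1)
    (h2 : ∀ v, sel v false = sel v true → ((cls G c (sel v false)).neighborSet v).ncard = 0)
    (h3 : ∀ v w x, sel v x = sel w x → (cls G c (sel v x)).Reachable v w → v = w) (i : ℕ) :
    IsLF (mix (cls G c i) F (fun v e => sel v (ε e) = i)) := by
  classical
  refine ⟨mix_acyclic _ _ _ (hc i).1 hF.1 ?_, ?_⟩
  · intro u v e hu hv hr
    exact h3 u v (ε e) (hu.trans hv.symm) (by rw [hu]; exact hr)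
  · rintro ⟨v, h⟩
    refine le_trans (mix_degree _ _ _ _) ?_
    dsimp only
    set T := {h' | F.Adj h h' ∧ sel v (ε s(h, h')) = i} with hT
    have hinj : Set.InjOn (fun h' => ε s(h, h')) T := by
      intro a ha b hb hab
      by_contra hne
      exact hε h a b ha.1 hb.1 hne hab
    have hT1 : T.ncard ≤ {x : Bool | sel v x = i}.ncard := by
      rw [← Set.ncard_image_of_injOn hinj]
      refine Set.ncard_le_ncard ?_ (Set.toFinite _)
      rintro _ ⟨a, ha, rfl⟩
      exact ha.2
    by_cases hf : sel v false = i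
    · by_cases ht : sel v true = i
      · have h0 := h2 v (hf.trans ht.symm)
        rw [hf] at h0
        have : {x : Bool | sel v x = i}.ncard ≤ 2 := by
          refine le_trans (Set.ncard_le_ncard (Set.subset_univ _) (Set.toFinite _)) ?_
          rw [Set.ncard_univ]
          simp
        omega
      · have h0 := h1 v false
        rw [hf] at h0
        have : {x : Bool | sel v x = i} = {false} := by
          ext x
          cases x
          · simp [hf]
          · simp [ht]
        rw [this, Set.ncard_singleton] at hT1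
        omega
    · by_cases ht : sel v true = i
      · have h0 := h1 v true
        rw [ht] at h0
        have : {x : Bool | sel v x = i} = {true} := by
          ext x
          cases x
          · simp [hf]
          · simp [ht]
        rw [this, Set.ncard_singleton] at hT1
        omega
      · have : {x : Bool | sel v x = i} = ∅ := by
          ext x
          cases x
          · simp [hf]
          · simp [ht]
        rw [this, Set.ncard_empty] at hT1
        have := (hc i).2 v
        omega

/-- **Main construction**: if every vertex of `G` has degree at most `2 k - 2` then one forest of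
the second factor can be absorbed. -/
theorem cov_boxProd_spare {V W : Type} [Finite V] [Finite W] {G : SimpleGraph V}
    {H : SimpleGraph W} {k m : ℕ} (hG : Cov G k) (hH : Cov H (m + 1))
    (hdeg : ∀ v, (G.neighborSet v).ncard + 2 ≤ 2 * k) : Cov (G □ H) (k + m) := by
  classical
  haveI := Fintype.ofFinite V
  haveI := Fintype.ofFinite W
  obtain ⟨c, hlt, hc⟩ := exists_col hG
  obtain ⟨d, hdlt, hd⟩ := exists_col hH
  obtain ⟨sel, s0, s1, s2, s3⟩ := exists_sel G k c hlt hc hdeg
  obtain ⟨ε, hε⟩ := edge_two_col (cls H d 0) (hd 0)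
  refine ⟨Fin.append
    (fun i => mix (cls G c i.val) (cls H d 0) (fun v e => sel v (ε e) = i.val))
    (fun j => mix ⊥ (cls H d (j.val + 1)) (fun _ _ => True)), ?_, ?_⟩
  · intro i
    refine Fin.addCases (fun i => ?_) (fun j => ?_) i
    · rw [Fin.append_left]
      exact isLF_mix hc (hd 0) ε hε sel s1 s2 s3 i.val
    · rw [Fin.append_right]
      exact isLF_vertical _ (hd _)
  · ext x y
    rw [iSup_adj, boxProd_adj]
    constructor
    · rintro ⟨i, hi⟩
      revert hi
      refine Fin.addCases (fun i => ?_) (fun j => ?_) i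
      · rw [Fin.append_left]
        rintro (⟨h1, h2⟩ | ⟨h1, h2, _⟩)
        · exact Or.inl ⟨h2.1, h1⟩
        · exact Or.inr ⟨h2.1, h1⟩
      · rw [Fin.append_right]
        rintro (⟨_, h2⟩ | ⟨h1, h2, _⟩)
        · exact absurd h2 (by simp)
        · exact Or.inr ⟨h2.1, h1⟩
    · rintro (⟨h1, h2⟩ | ⟨h1, h2⟩)
      · refine ⟨Fin.castAdd m ⟨c s(x.1, y.1), hlt _ _ h1⟩, ?_⟩
        rw [Fin.append_left]
        exact Or.inl ⟨h2, h1, rfl⟩
      · have hdl := hdlt _ _ h1
        rcases Nat.eq_zero_or_pos (d s(x.2, y.2)) with h0 | hpos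
        · refine ⟨Fin.castAdd m ⟨sel x.1 (ε s(x.2, y.2)), s0 _ _⟩, ?_⟩
          rw [Fin.append_left]
          exact Or.inr ⟨h2, ⟨h1, h0⟩, rfl⟩
        · refine ⟨Fin.natAdd k ⟨d s(x.2, y.2) - 1, by omega⟩, ?_⟩
          rw [Fin.append_right]
          refine Or.inr ⟨h2, ⟨h1, ?_⟩, trivial⟩
          show d s(x.2, y.2) = d s(x.2, y.2) - 1 + 1
          omega

end H931R3.LA
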