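import Mathlib

set_option autoImplicit false
set_option linter.unusedSectionVars false

namespace Pool.Agent.H931R3.NG

open Finset Function
open scoped Classical

variable {α : Type} [Fintype α] {V : Type}

/-- `n` vertex-disjoint copies of `G` inside `S`, all whose edges satisfy `R`. -/
def Cop (G : SimpleGraph α) (n : ℕ) (R : V → V → Prop) (S : Finset V) : Prop :=
  ∃ f : Fin n × α → V, Injective f ∧ (∀ p, f p ∈ S) ∧
    ∀ p q, p.1 = q.1 → G.Adj p.2 q.2 → R (f p) (f q)

/-- `K` is a clique in colour `b`. -/
def Mono (c : V → V → Bool) (b : Bool) (K : Finset V) : Prop :=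
  ∀ x ∈ K, ∀ y ∈ K, x ≠ y → c x y = b

/-- a copy of the component of `v` inside `S`. -/
def CompCop (G : SimpleGraph α) (v : α) (R : V → V → Prop) (S : Finset V) : Prop :=
  ∃ h : α → V, (∀ u, G.Reachable v u → h u ∈ S) ∧
    (∀ u w, G.Reachable v u → G.Reachable v w → h u = h w → u = w) ∧
    ∀ u w, G.Reachable v u → G.Adj u w → R (h u) (h w)

lemma bnot_of_ne (x y : Bool) (h : x ≠ y) : x = !y := by
  revert h; revert x y; decide

lemma Cop.mono {G : SimpleGraph α} {n : ℕ} {R : V → V → Prop} {S T : Finset V}
    (h : Cop G n R S) (hST : S ⊆ T) : Cop G n R T := by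
  obtain ⟨f, h1, h2, h3⟩ := h
  exact ⟨f, h1, fun p => hST (h2 p), h3⟩

lemma Cop.le {G : SimpleGraph α} {n m : ℕ} {R : V → V → Prop} {S : Finset V}
    (h : Cop G n R S) (hm : m ≤ n) : Cop G m R S := by
  obtain ⟨f, h1, h2, h3⟩ := h
  refine ⟨fun p => f (Fin.castLE hm p.1, p.2), ?_, fun p => h2 _, ?_⟩
  · intro p q hpq
    have := h1 hpq
    simp only [Prod.mk.injEq, Fin.castLE_inj] at this
    exact Prod.ext this.1 this.2
  · intro p q hpq hG
    exact h3 _ _ (by simp [hpq]) hG

lemma Cop.zero {G : SimpleGraph α} {R : V → V → Prop} {S : Finset V} : Cop G 0 R S :=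
  ⟨fun p => p.1.elim0, fun p => p.1.elim0, fun p => p.1.elim0, fun p => p.1.elim0⟩

lemma Cop.union {G : SimpleGraph α} {n m : ℕ} {R : V → V → Prop} {S T : Finset V}
    (h : Cop G n R S) (h' : Cop G m R T) (hd : Disjoint S T) : Cop G (n + m) R (S ∪ T) := by
  obtain ⟨f, h1, h2, h3⟩ := h
  obtain ⟨g, k1, k2, k3⟩ := h'
  have hne : ∀ p q, f p ≠ g q := by
    intro p q hpq
    exact (Finset.disjoint_left.mp hd) (h2 p) (hpq ▸ k2 q)
  let F : Fin (n + m) × α → V := fun p =>
    Fin.addCases (motive := fun _ => V) (fun i => f (i, p.2)) (fun j => g (j, p.2)) p.1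
  have Fl : ∀ (i : Fin n) (a : α), F (Fin.castAdd m i, a) = f (i, a) := by
    intro i a; simp [F]
  have Fr : ∀ (i : Fin m) (a : α), F (Fin.natAdd n i, a) = g (i, a) := by
    intro i a; simp [F]
  refine ⟨F, ?_, ?_, ?_⟩
  · rintro ⟨i, a⟩ ⟨j, b⟩ hij
    induction i using Fin.addCases with
    | left i =>
      induction j using Fin.addCases with
      | left j =>
        rw [Fl, Fl] at hij
        have := h1 hij
        simp only [Prod.mk.injEq] at this
        rw [this.1, this.2]
      | right j =>
        rw [Fl, Fr] at hij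
        exact absurd hij (hne _ _)
    | right i =>
      induction j using Fin.addCases with
      | left j =>
        rw [Fl, Fr] at hij
        exact absurd hij.symm (hne _ _)
      | right j =>
        rw [Fr, Fr] at hij
        have := k1 hij
        simp only [Prod.mk.injEq] at this
        rw [this.1, this.2]
  · rintro ⟨i, a⟩
    induction i using Fin.addCases with
    | left i => rw [Fl]; exact Finset.mem_union_left _ (h2 _)
    | right i => rw [Fr]; exact Finset.mem_union_right _ (k2 _)
  · rintro ⟨i, a⟩ ⟨j, b⟩ hij hG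
    simp only at hij hG
    subst hij
    induction i using Fin.addCases with
    | left i => rw [Fl, Fl]; exact h3 _ _ rfl hG
    | right i => rw [Fr, Fr]; exact k3 _ _ rfl hG

/-- If `A` is joined to `B` in colour `b`, `B` is a `b`-clique and `J` is independent, then we
can put copies of `G` with `J` in `A` and the rest in `B`. -/
lemma cop_of_pair (G : SimpleGraph α) {c : V → V → Bool} (hc : ∀ x y, c x y = c y x) (b : Bool)
    {A B : Finset V} (hAB : Disjoint A B) (hB : Mono c b B)
    (hAB' : ∀ x ∈ A, ∀ y ∈ B, c x y = b) (J : Finset α)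
    (hJ : ∀ u ∈ J, ∀ v ∈ J, ¬ G.Adj u v) (q : ℕ)
    (h1 : q * J.card ≤ A.card) (h2 : q * (Fintype.card α - J.card) ≤ B.card) :
    Cop G q (fun x y => c x y = b) (A ∪ B) := by
  have e1 : Nonempty ((Fin q × J) ↪ A) := by
    apply Function.Embedding.nonempty_of_card_le
    simpa using h1
  have e2 : Nonempty ((Fin q × (Jᶜ : Finset α)) ↪ B) := by
    apply Function.Embedding.nonempty_of_card_le
    simpa [Finset.card_compl] using h2
  obtain ⟨e1⟩ := e1
  obtain ⟨e2⟩ := e2
  let f : Fin q × α → V := fun p =>
    if h : p.2 ∈ J then (e1 (p.1, ⟨p.2, h⟩) : V)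
    else (e2 (p.1, ⟨p.2, Finset.mem_compl.mpr h⟩) : V)
  have f1 : ∀ p : Fin q × α, p.2 ∈ J → f p ∈ A := by
    intro p hp; simp only [f, dif_pos hp]; exact (e1 _).2
  have f2 : ∀ p : Fin q × α, p.2 ∉ J → f p ∈ B := by
    intro p hp; simp only [f, dif_neg hp]; exact (e2 _).2
  have finj : Injective f := by
    intro p q hpq
    by_cases hp : p.2 ∈ J <;> by_cases hq : q.2 ∈ J
    · simp only [f, dif_pos hp, dif_pos hq] at hpq
      have := e1.injective (Subtype.ext hpq)
      simp only [Prod.mk.injEq, Subtype.mk.injEq] at this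
      exact Prod.ext this.1 this.2
    · exact absurd (f1 p hp) (by rw [hpq]; exact fun h => (Finset.disjoint_left.mp hAB) h (f2 q hq))
    · exact absurd (f1 q hq) (by rw [← hpq]; exact fun h => (Finset.disjoint_left.mp hAB) h (f2 p hp))
    · simp only [f, dif_neg hp, dif_neg hq] at hpq
      have := e2.injective (Subtype.ext hpq)
      simp only [Prod.mk.injEq, Subtype.mk.injEq] at this
      exact Prod.ext this.1 this.2
  refine ⟨f, finj, ?_, ?_⟩
  · intro p
    by_cases hp : p.2 ∈ J
    · exact Finset.mem_union_left _ (f1 p hp)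
    · exact Finset.mem_union_right _ (f2 p hp)
  · intro p q hpq hG
    by_cases hp : p.2 ∈ J <;> by_cases hq : q.2 ∈ J
    · exact absurd hG (hJ _ hp _ hq)
    · exact hAB' _ (f1 p hp) _ (f2 q hq)
    · rw [hc]; exact hAB' _ (f1 q hq) _ (f2 p hp)
    · refine hB _ (f2 p hp) _ (f2 q hq) ?_
      intro h
      have := finj h
      rw [this] at hG
      exact G.loopless.irrefl _ hG

lemma cop_of_clique (G : SimpleGraph α) {c : V → V → Bool} (hc : ∀ x y, c x y = c y x) (b : Bool)
    {B : Finset V} (hB : Mono c b B) (q : ℕ)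
    (h2 : q * (Fintype.card α) ≤ B.card) :
    Cop G q (fun x y => c x y = b) B := by
  have := cop_of_pair G hc b (A := ∅) (B := B) (by simp) hB (by simp) ∅ (by simp) q (by simp)
    (by simpa using h2)
  simpa using this

/-- Ramsey's theorem for two colours. -/
theorem ramsey (k : ℕ) : ∀ L : ℕ, ∃ R : ℕ, ∀ (V : Type) (c : V → V → Bool),
    (∀ x y, c x y = c y x) → ∀ b : Bool, ∀ S : Finset V, R ≤ S.card →
      (∃ K ⊆ S, K.card = k ∧ Mono c b K) ∨ (∃ K ⊆ S, K.card = L ∧ Mono c (!b) K) := by
  induction k with
  | zero =>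
    intro L
    refine ⟨0, fun V c hc b S _ => Or.inl ⟨∅, by simp, by simp, by simp [Mono]⟩⟩
  | succ k ihk =>
    intro L
    induction L with
    | zero => exact ⟨0, fun V c hc b S _ => Or.inr ⟨∅, by simp, by simp, by simp [Mono]⟩⟩
    | succ L ihL =>
      obtain ⟨R1, hR1⟩ := ihk (L + 1)
      obtain ⟨R2, hR2⟩ := ihL
      refine ⟨R1 + R2 + 1, fun V c hc b S hS => ?_⟩
      have hne : S.Nonempty := by
        rw [← Finset.card_pos]; omega
      obtain ⟨v, hv⟩ := hne
      set S1 := (S.erase v).filter (fun x => c v x = b) with hS1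
      set S2 := (S.erase v).filter (fun x => ¬ (c v x = b)) with hS2
      have hcard : S1.card + S2.card = S.card - 1 := by
        rw [hS1, hS2, Finset.card_filter_add_card_filter_not, Finset.card_erase_of_mem hv]
      have hcase : R1 ≤ S1.card ∨ R2 ≤ S2.card := by omega
      have hsub1 : S1 ⊆ S := (Finset.filter_subset _ _).trans (Finset.erase_subset _ _)
      have hsub2 : S2 ⊆ S := (Finset.filter_subset _ _).trans (Finset.erase_subset _ _)
      have hv1 : v ∉ S1 := by simp [hS1]
      have hv2 : v ∉ S2 := by simp [hS2]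
      rcases hcase with h | h
      · rcases hR1 V c hc b S1 h with ⟨K, hK, hKc, hKm⟩ | ⟨K, hK, hKc, hKm⟩
        · left
          refine ⟨insert v K, ?_, ?_, ?_⟩
          · exact Finset.insert_subset hv (hK.trans hsub1)
          · rw [Finset.card_insert_of_notMem (fun h => hv1 (hK h)), hKc]
          · intro x hx y hy hxy
            rw [Finset.mem_insert] at hx hy
            rcases hx with rfl | hx <;> rcases hy with rfl | hy
            · exact absurd rfl hxy
            · exact (Finset.mem_filter.mp (hK hy)).2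
            · rw [hc]; exact (Finset.mem_filter.mp (hK hx)).2
            · exact hKm x hx y hy hxy
        · right
          exact ⟨K, hK.trans hsub1, hKc, hKm⟩
      · rcases hR2 V c hc b S2 h with ⟨K, hK, hKc, hKm⟩ | ⟨K, hK, hKc, hKm⟩
        · left
          exact ⟨K, hK.trans hsub2, hKc, hKm⟩
        · right
          have key : ∀ y ∈ K, c v y = !b := by
            intro y hy
            have := (Finset.mem_filter.mp (hK hy)).2
            cases b <;> simpa using this
          refine ⟨insert v K, ?_, ?_, ?_⟩
          · exact Finset.insert_subset hv (hK.trans hsub2)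
          · rw [Finset.card_insert_of_notMem (fun h => hv2 (hK h)), hKc]
          · intro x hx y hy hxy
            rw [Finset.mem_insert] at hx hy
            rcases hx with rfl | hx <;> rcases hy with rfl | hy
            · exact absurd rfl hxy
            · exact key y hy
            · rw [hc]; exact key x hx
            · exact hKm x hx y hy hxy

/-- greedy tiling: no clique of size `L` in colour `!b` gives many disjoint copies in colour `b`. -/
theorem greedy (G : SimpleGraph α) (L : ℕ) : ∃ R : ℕ, ∀ (V : Type) (c : V → V → Bool),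
    (∀ x y, c x y = c y x) → ∀ b : Bool, ∀ S : Finset V,
      (∀ K ⊆ S, K.card = L → ¬ Mono c (!b) K) → ∀ q : ℕ, q * Fintype.card α + R ≤ S.card →
      Cop G q (fun x y => c x y = b) S := by
  obtain ⟨R, hR⟩ := ramsey (Fintype.card α) L
  refine ⟨R, fun V c hc b S hS q => ?_⟩
  induction q generalizing S with
  | zero => intro _; exact Cop.zero
  | succ q ih =>
    intro hq
    rcases hR V c hc b S (by nlinarith) with ⟨K, hK, hKc, hKm⟩ | ⟨K, hK, hKc, hKm⟩
    · have h1 : Cop G 1 (fun x y => c x y = b) K := cop_of_clique G hc b hKm 1 (by simp [hKc])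
      have h2 : Cop G q (fun x y => c x y = b) (S \ K) := by
        apply ih
        · intro K' hK' hc'
          exact hS K' (hK'.trans Finset.sdiff_subset) hc'
        · rw [Finset.card_sdiff_of_subset hK, hKc]
          have : (q + 1) * Fintype.card α = q * Fintype.card α + Fintype.card α := by ring
          omega
      have h3 := h2.union h1 Finset.sdiff_disjoint
      exact h3.mono (by
        intro x hx
        rcases Finset.mem_union.mp hx with h | h
        · exact (Finset.mem_sdiff.mp h).1
        · exact hK h)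
    · exact absurd hKm (hS K hK hKc)

end Pool.Agent.H931R3.NG
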