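import Pool.Agent.H931R3.NGStruct2

set_option autoImplicit false
set_option linter.unusedSectionVars false

namespace Pool.Agent.H931R3.NG

open Finset Function
open scoped Classical

variable {α : Type} [Fintype α]

theorem structure_lemma (G : SimpleGraph α) (hiso : ∀ v, ∃ u, G.Adj v u) (J : Finset α)
    (hJ : ∀ u ∈ J, ∀ v ∈ J, ¬ G.Adj u v)
    (hmax : ∀ K : Finset α, (∀ u ∈ K, ∀ v ∈ K, ¬ G.Adj u v) → K.card ≤ J.card)
    (hlt : J.card < Fintype.card α) :
    ∃ n₀, ∀ n₁, n₀ ≤ n₁ → ∃ (V : Type) (_ : Fintype V) (c : V → V → Bool) (b : Bool)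
      (A O : Finset V), (∀ x y, c x y = c y x) ∧ Disjoint A O ∧
      ram G n₁ ≤ O.card + n₁ * Fintype.card α ∧
      (∀ v, ¬ CompCop G v (fun x y => c x y = b) O) ∧
      n₁ * J.card ≤ A.card ∧ (∀ x ∈ A, ∀ y ∈ O, c x y = !b) ∧
      ¬ Cop G n₁ (fun x y => c x y = !b) (A ∪ O) := by
  obtain ⟨nb, D, hD⟩ := ram_eventually G hiso J hJ hmax hlt
  obtain ⟨L, hL⟩ := bowtie G J hJ
  obtain ⟨R, hR⟩ := greedy G L
  obtain ⟨k, hk⟩ : ∃ k, k = Fintype.card α := ⟨_, rfl⟩
  obtain ⟨a, ha⟩ : ∃ a, a = k - J.card := ⟨_, rfl⟩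
  rw [← hk] at hD hL hR hlt ⊢
  rw [← ha] at hD hL
  have ha1 : 1 ≤ a := by omega
  obtain ⟨w0, hw0⟩ : ∃ w0, w0 = (k + a) * (k + R) + D := ⟨_, rfl⟩
  refine ⟨nb + (w0 + k * (k + R) + 2) + (k + R), fun n₁ hn₁ => ?_⟩
  obtain ⟨M₁, hM₁⟩ : ∃ M₁, n₁ = M₁ + (k + R) := ⟨n₁ - (k + R), by omega⟩
  obtain ⟨M, hM⟩ : ∃ M, M = 2 ^ w0 * M₁ := ⟨_, rfl⟩
  have hM1 : 1 ≤ M := by
    rw [hM]
    have : 1 ≤ M₁ := by omega
    have h2 : 1 ≤ 2 ^ w0 := Nat.one_le_two_pow
    nlinarith
  obtain ⟨L', hL'⟩ := hom_pair (k * M + a * M)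
  obtain ⟨R', hR'⟩ := greedy G L'
  rw [← hk] at hR'
  obtain ⟨n, hn⟩ : ∃ n, n = n₁ + M + R' + (k + R) + 2 := ⟨_, rfl⟩
  have hDn := hD n (by omega)
  have hkn : k * n + n ≤ (k + a) * n := by nlinarith
  obtain ⟨N, hN⟩ : ∃ N, ram G n = N + 1 := ⟨ram G n - 1, by omega⟩
  obtain ⟨c, hc, hbad⟩ := exists_bad G n N (by omega)
  have hNsize : n * k + R' ≤ (Finset.univ : Finset (Fin N)).card := by
    simp only [Finset.card_univ, Fintype.card_fin]
    have : n * k = k * n := mul_comm _ _
    omega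
  have hcl : ∀ b : Bool, ∃ P : Finset (Fin N), P.card = L' ∧ Mono c b P := by
    intro b
    by_contra hcon
    push Not at hcon
    apply hbad (!b)
    apply hR' _ c hc (!b) Finset.univ _ n hNsize
    intro K _ hKc hKm
    rw [Bool.not_not] at hKm
    exact hcon K hKc hKm
  obtain ⟨P, hPc, hP⟩ := hcl true
  obtain ⟨Q, hQc, hQ⟩ := hcl false
  obtain ⟨b, A0, B0, _, _, hAB0, hA0c, hB0c, hA0, hB0, hAB0c⟩ :=
    hL' _ c hc true P Q hP hQ hPc.ge hQc.ge
  have hkM : 1 ≤ k * M := by nlinarith
  have haM : 1 ≤ a * M := by nlinarith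
  obtain ⟨A, hA, hAc⟩ := Finset.exists_subset_card_eq (s := A0) (n := k * M - 1) (by omega)
  obtain ⟨B, hB, hBc⟩ := Finset.exists_subset_card_eq (s := B0) (n := a * M - 1) (by omega)
  have hAB : Disjoint A B := Finset.disjoint_of_subset_left hA
    (Finset.disjoint_of_subset_right hB hAB0)
  have hAm : Mono c b A := fun x hx y hy hxy => hA0 x (hA hx) y (hA hy) hxy
  have hBm : Mono c (!b) B := fun x hx y hy hxy => hB0 x (hB hx) y (hB hy) hxy
  have hABc : ∀ x ∈ A, ∀ y ∈ B, c x y = !b := fun x hx y hy => hAB0c x (hA hx) y (hB hy)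
  have hN2 : N + 2 = (k + a) * n + D := by omega
  have hMn : M + (k + R) ≤ n := by omega
  have hdesc := descend G J hJ k a L R D hk ha ha1 hlt.le hL hR N (Fintype.card_fin N) c hc n M
    hN2 hM1 hbad b A B hAB hAm hBm hABc (by omega) (by omega) (n - (M + (k + R))) (by omega)
  have e : n - (n - (M + (k + R))) = M + (k + R) := by omega
  rw [e] at hdesc
  obtain ⟨A', O, h1, h2, h3, h4, h5, h6⟩ := phase2 G hiso J hJ k a R D hk ha ha1 hlt.le (by omega)
    N c hc n M hN2 b A B hAB hAm hBm hABc (by omega) (by omega) hdesc hMn w0 M₁ hw0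
    (by omega) hM
  rw [← hM₁] at h2 h4 h6
  have h7 := hD n₁ (by omega)
  exact ⟨Fin N, inferInstance, c, b, A', O, hc, h1, by omega, h3, h4, h5, h6⟩

lemma cop_card [Nonempty α] {G : SimpleGraph α} {β : Type} [Fintype β] {t : ℕ} {R : β → β → Prop}
    {S : Finset β} (h : Cop G t R S) : t ≤ Fintype.card β := by
  obtain ⟨f, h1, _, _⟩ := h
  have h2 := Fintype.card_le_of_injective f h1
  simp only [Fintype.card_prod, Fintype.card_fin] at h2
  have h3 : 1 ≤ Fintype.card α := Fintype.card_pos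
  nlinarith

theorem main_noiso [Nonempty α] (G : SimpleGraph α) (hiso : ∀ v, ∃ u, G.Adj v u) :
    ∃ n₀, ∀ n, n₀ ≤ n → ∀ (β : Type) [Fintype β] (F : SimpleGraph β),
      (∀ c : β → β → Bool, (∀ x y, c x y = c y x) → ∃ b : Bool, ∃ f : Fin n × α → β,
        Function.Injective f ∧ ∀ p q : Fin n × α, p.1 = q.1 → G.Adj p.2 q.2 →
          F.Adj (f p) (f q) ∧ c (f p) (f q) = b) →
      Cop G (ram G n / Fintype.card α) F.Adj Finset.univ := by
  -- maximum independent set
  obtain ⟨J, hJmem, hJmax⟩ := Finset.exists_max_image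
    (Finset.univ.filter (fun K : Finset α => ∀ u ∈ K, ∀ v ∈ K, ¬ G.Adj u v)) Finset.card
    ⟨∅, by simp⟩
  have hJ : ∀ u ∈ J, ∀ v ∈ J, ¬ G.Adj u v := (Finset.mem_filter.mp hJmem).2
  have hmax : ∀ K : Finset α, (∀ u ∈ K, ∀ v ∈ K, ¬ G.Adj u v) → K.card ≤ J.card :=
    fun K hK => hJmax K (by simpa using hK)
  have hlt : J.card < Fintype.card α := by
    obtain ⟨v⟩ := ‹Nonempty α›
    obtain ⟨u, hu⟩ := hiso v
    rw [← Finset.card_univ]
    apply Finset.card_lt_card
    rw [Finset.ssubset_univ_iff]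
    intro h
    exact hJ v (by simp [h]) u (by simp [h]) hu
  obtain ⟨n₀, hn₀⟩ := structure_lemma G hiso J hJ hmax hlt
  have hkpos : 1 ≤ Fintype.card α := Fintype.card_pos
  obtain ⟨k, hk⟩ : ∃ k, k = Fintype.card α := ⟨_, rfl⟩
  refine ⟨n₀ + 1, fun n hn β _ F hF => ?_⟩
  obtain ⟨V, _, c, b, A, O, hc, hAO, hOc, hOn, hAc, hAOc, hblue⟩ := hn₀ n (by omega)
  rw [← hk] at hOc hkpos ⊢
  by_contra hcon
  -- the maximum number t of disjoint copies
  obtain ⟨t, ht, htmax⟩ : ∃ t, Cop G t F.Adj Finset.univ ∧ ¬ Cop G (t + 1) F.Adj Finset.univ := by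
    by_contra h
    push Not at h
    have hall : ∀ t, Cop G t F.Adj Finset.univ := by
      intro t
      induction t with
      | zero => exact Cop.zero
      | succ t ih => exact h t ih
    have := cop_card (hall (Fintype.card β + 1))
    omega
  have htT : t < ram G n / k := by
    by_contra h
    push Not at h
    exact hcon (ht.le h)
  have htk : (t + 1) * k ≤ ram G n := by
    calc (t + 1) * k ≤ (ram G n / k) * k := Nat.mul_le_mul_right _ htT
      _ ≤ ram G n := Nat.div_mul_le_self _ _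
  have hnt : n ≤ t := by
    obtain ⟨b', f, h1, h2⟩ := hF (fun _ _ => true) (fun _ _ => rfl)
    by_contra h
    push Not at h
    apply htmax
    have : Cop G n F.Adj Finset.univ :=
      ⟨f, h1, fun _ => Finset.mem_univ _, fun p q hp hq => (h2 p q hp hq).1⟩
    exact this.le h
  obtain ⟨f, hf1, _, hf3⟩ := ht
  obtain ⟨s, hs⟩ : ∃ s, t = (n - 1) + s := ⟨t - (n - 1), by omega⟩
  have hs1 : 1 ≤ s := by omega
  let g : Fin s × α → β := fun p => f (⟨(n - 1) + p.1.val, by omega⟩, p.2)
  have hg1 : Injective g := by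
    intro p q hpq
    have := hf1 hpq
    simp only [Prod.mk.injEq, Fin.mk.injEq] at this
    exact Prod.ext (Fin.ext (by omega)) this.2
  set U : Finset β := Finset.univ.image g with hU
  have hUc : U.card = s * k := by
    rw [hU, Finset.card_image_of_injective _ hg1]
    simp [hk]
  have hUcop : Cop G s F.Adj U := by
    refine ⟨g, hg1, fun p => Finset.mem_image_of_mem _ (Finset.mem_univ _), ?_⟩
    intro p q hp hq
    exact hf3 _ _ (by simp [hp]) hq
  have hX : ¬ Cop G n F.Adj Uᶜ := by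
    intro h
    apply htmax
    have h2 := (h.union hUcop (by
      rw [disjoint_comm]; exact disjoint_compl_right)).mono (Finset.subset_univ _)
    exact h2.le (by omega)
  -- injection of U into O
  have hUO : U.card ≤ O.card := by
    rw [hUc]
    have e1 : (t + 1) * k = s * k + n * k := by
      rw [← add_mul]; congr 1; omega
    omega
  obtain ⟨e⟩ : Nonempty (U ↪ O) := by
    apply Function.Embedding.nonempty_of_card_le
    simpa using hUO
  have hOne : ∃ o, o ∈ O := by
    rw [← Finset.Nonempty, ← Finset.card_pos]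
    have : 1 ≤ s * k := by nlinarith
    omega
  obtain ⟨o, _⟩ := hOne
  let φ : β → V := fun x => if h : x ∈ U then (e ⟨x, h⟩ : V) else o
  have hφ1 : ∀ x ∈ U, φ x ∈ O := by
    intro x hx; simp only [φ, dif_pos hx]; exact (e _).2
  have hφ2 : ∀ x ∈ U, ∀ y ∈ U, φ x = φ y → x = y := by
    intro x hx y hy hxy
    simp only [φ, dif_pos hx, dif_pos hy] at hxy
    have := e.injective (Subtype.ext hxy)
    simpa using this
  let c' : β → β → Bool := fun x y =>
    if x ∈ U then (if y ∈ U then c (φ x) (φ y) else !b) else (if y ∈ U then !b else b)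
  have hc' : ∀ x y, c' x y = c' y x := by
    intro x y
    simp only [c']
    by_cases hx : x ∈ U <;> by_cases hy : y ∈ U
    · simp only [if_pos hx, if_pos hy]; exact hc _ _
    · simp only [if_pos hx, if_neg hy]
    · simp only [if_neg hx, if_pos hy]
    · simp only [if_neg hx, if_neg hy]
  obtain ⟨b', h, hh1, hh2⟩ := hF c' hc'
  by_cases hb : b' = b
  · subst hb
    by_cases hex : ∃ p, h p ∈ U
    · obtain ⟨p, hp⟩ := hex
      let P : Finset (Fin n × α) := Finset.univ.filter (fun q => h q ∈ U)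
      have hP : ∀ q, q ∈ P ↔ h q ∈ U := by intro q; simp [P]
      have hcl : ∀ q ∈ P, ∀ u, G.Adj q.2 u → (q.1, u) ∈ P := by
        intro q hq u hu
        rw [hP] at hq ⊢
        by_contra hu'
        have := (hh2 q (q.1, u) rfl hu).2
        simp only [c', if_pos hq, if_neg hu'] at this
        cases b' <;> simp at this
      have hreach : ∀ u, G.Reachable p.2 u → h (p.1, u) ∈ U := by
        intro u hu
        rw [← hP]
        exact closed_reach G P hcl p.1 p.2 u ((hP _).mpr hp) hu
      apply hOn p.2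
      refine ⟨fun u => φ (h (p.1, u)), fun u hu => hφ1 _ (hreach u hu), ?_, ?_⟩
      · intro u w hu hw huw
        have h1 := hφ2 _ (hreach u hu) _ (hreach w hw) huw
        have h2 := hh1 h1
        simpa using h2
      · intro u w hu huw
        have h1 := hreach u hu
        have h2 := hreach w (hu.trans huw.reachable)
        have h3 := (hh2 (p.1, u) (p.1, w) rfl huw).2
        simp only [c', if_pos h1, if_pos h2] at h3
        exact h3
    · push Not at hex
      apply hX
      exact ⟨h, hh1, fun p => Finset.mem_compl.mpr (hex p), fun p q hp hq => (hh2 p q hp hq).1⟩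
  · have hb' : b' = !b := bnot_of_ne _ _ hb
    subst hb'
    -- vertices outside U form an independent set in every copy
    have hQ : (Finset.univ.filter (fun p : Fin n × α => h p ∉ U)).card ≤ n * J.card := by
      apply card_fst_snd
      intro j
      apply hmax
      intro u hu v hv huv
      rw [Finset.mem_filter] at hu hv
      have := (hh2 (j, u) (j, v) rfl huv).2
      simp only [c', if_neg hu.2, if_neg hv.2] at this
      cases b <;> simp at this
    obtain ⟨e2⟩ : Nonempty ((Finset.univ.filter (fun p : Fin n × α => h p ∉ U)) ↪ A) := by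
      apply Function.Embedding.nonempty_of_card_le
      rw [Fintype.card_coe, Fintype.card_coe]
      exact hQ.trans hAc
    let F' : Fin n × α → V := fun p =>
      if hp : h p ∈ U then φ (h p)
      else (e2 ⟨p, Finset.mem_filter.mpr ⟨Finset.mem_univ _, hp⟩⟩ : V)
    have F1 : ∀ p, h p ∈ U → F' p = φ (h p) := by
      intro p hp; simp only [F', dif_pos hp]
    have F2 : ∀ p, h p ∉ U → F' p ∈ A := by
      intro p hp; simp only [F', dif_neg hp]; exact (e2 _).2
    have F1' : ∀ p, h p ∈ U → F' p ∈ O := by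
      intro p hp; rw [F1 p hp]; exact hφ1 _ hp
    apply hblue
    refine ⟨F', ?_, ?_, ?_⟩
    · intro p q hpq
      by_cases hp : h p ∈ U <;> by_cases hq : h q ∈ U
      · rw [F1 p hp, F1 q hq] at hpq
        exact hh1 (hφ2 _ hp _ hq hpq)
      · exfalso
        have h1 := F2 q hq
        rw [← hpq] at h1
        exact (Finset.disjoint_left.mp hAO) h1 (F1' p hp)
      · exfalso
        have h1 := F2 p hp
        rw [hpq] at h1
        exact (Finset.disjoint_left.mp hAO) h1 (F1' q hq)
      · simp only [F', dif_neg hp, dif_neg hq] at hpq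
        have := e2.injective (Subtype.ext hpq)
        simpa using this
    · intro p
      by_cases hp : h p ∈ U
      · exact Finset.mem_union_right _ (F1' p hp)
      · exact Finset.mem_union_left _ (F2 p hp)
    · intro p q hpq hG
      have h3 := (hh2 p q hpq hG).2
      by_cases hp : h p ∈ U <;> by_cases hq : h q ∈ U
      · show c (F' p) (F' q) = !b
        rw [F1 p hp, F1 q hq]
        simp only [c', if_pos hp, if_pos hq] at h3
        exact h3
      · show c (F' p) (F' q) = !b
        rw [hc]; exact hAOc _ (F2 q hq) _ (F1' p hp)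
      · exact hAOc _ (F2 p hp) _ (F1' q hq)
      · simp only [c', if_neg hp, if_neg hq] at h3
        cases b <;> simp at h3

end Pool.Agent.H931R3.NG
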