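import Pool.Agent.H931R3.NGBasic

set_option autoImplicit false
set_option linter.unusedSectionVars false

namespace Pool.Agent.H931R3.NG

open Finset Function
open scoped Classical

variable {α : Type} [Fintype α]

theorem hom_pair (m : ℕ) : ∃ L : ℕ, ∀ (V : Type) (c : V → V → Bool),
    (∀ x y, c x y = c y x) → ∀ b : Bool, ∀ P Q : Finset V, Mono c b P → Mono c (!b) Q →
      L ≤ P.card → L ≤ Q.card → ∃ (b' : Bool) (A B : Finset V), A ⊆ P ∪ Q ∧ B ⊆ P ∪ Q ∧
        Disjoint A B ∧ A.card = m ∧ B.card = m ∧ Mono c b' A ∧ Mono c (!b') B ∧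
        ∀ x ∈ A, ∀ y ∈ B, c x y = !b' := by
  refine ⟨2 * m + 2 ^ (2 * m) * m + 1, fun V c hc b P Q hP hQ h1 h2 => ?_⟩
  obtain ⟨P0, hP0, hP0c⟩ := Finset.exists_subset_card_eq (s := P) (n := 2 * m) (by omega)
  have hint : (Q ∩ P).card ≤ 1 := by
    rw [Finset.card_le_one]
    intro x hx y hy
    by_contra hxy
    rw [Finset.mem_inter] at hx hy
    have e1 := hP x hx.2 y hy.2 hxy
    have e2 := hQ x hx.1 y hy.1 hxy
    rw [e1] at e2
    cases b <;> simp at e2
  have hQ' : 2 * m + 2 ^ (2 * m) * m ≤ (Q \ P).card := by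
    have := Finset.card_sdiff_add_card_inter Q P
    omega
  obtain ⟨Y, hY, hYc⟩ := Finset.exists_le_card_fiber_of_mul_le_card_of_maps_to
    (s := Q \ P) (t := P0.powerset) (f := fun q => P0.filter (fun p => c p q = b)) (n := m)
    (by intro q _; simp) ⟨∅, by simp⟩ (by rw [Finset.card_powerset, hP0c]; omega)
  obtain ⟨B0, hB0, hB0c⟩ := Finset.exists_subset_card_eq hYc
  have hYP : Y ⊆ P0 := Finset.mem_powerset.mp hY
  have hB0Q : ∀ x ∈ B0, x ∈ Q ∧ x ∉ P := fun x hx => by
    have := (Finset.mem_filter.mp (hB0 hx)).1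
    exact Finset.mem_sdiff.mp this
  have hB0Y : ∀ x ∈ B0, ∀ p ∈ P0, (c p x = b ↔ p ∈ Y) := fun x hx p hp => by
    have := (Finset.mem_filter.mp (hB0 hx)).2
    rw [← this]
    simp [hp]
  have hcase : m ≤ Y.card ∨ m ≤ (P0 \ Y).card := by
    rw [Finset.card_sdiff_of_subset hYP]
    omega
  have hsplit : ∀ (z : Bool), z ≠ b → z = !b := by intro z hz; cases z <;> cases b <;> simp_all
  rcases hcase with h | h
  · obtain ⟨Y0, hY0, hY0c⟩ := Finset.exists_subset_card_eq h
    refine ⟨!b, B0, Y0, ?_, ?_, ?_, hB0c, hY0c, ?_, ?_, ?_⟩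
    · intro x hx; exact Finset.mem_union_right _ (hB0Q x hx).1
    · intro x hx; exact Finset.mem_union_left _ (hP0 (hYP (hY0 hx)))
    · rw [Finset.disjoint_left]
      intro x hx hx'
      exact (hB0Q x hx).2 (hP0 (hYP (hY0 hx')))
    · intro x hx y hy hxy
      exact hQ x (hB0Q x hx).1 y (hB0Q y hy).1 hxy
    · intro x hx y hy hxy
      rw [Bool.not_not]
      exact hP x (hP0 (hYP (hY0 hx))) y (hP0 (hYP (hY0 hy))) hxy
    · intro x hx y hy
      rw [Bool.not_not, hc]
      exact (hB0Y x hx y (hYP (hY0 hy))).mpr (hY0 hy)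
  · obtain ⟨Y0, hY0, hY0c⟩ := Finset.exists_subset_card_eq h
    have hY0P : ∀ y ∈ Y0, y ∈ P0 ∧ y ∉ Y := fun y hy => Finset.mem_sdiff.mp (hY0 hy)
    refine ⟨b, Y0, B0, ?_, ?_, ?_, hY0c, hB0c, ?_, ?_, ?_⟩
    · intro x hx; exact Finset.mem_union_left _ (hP0 (hY0P x hx).1)
    · intro x hx; exact Finset.mem_union_right _ (hB0Q x hx).1
    · rw [Finset.disjoint_left]
      intro x hx hx'
      exact (hB0Q x hx').2 (hP0 (hY0P x hx).1)
    · intro x hx y hy hxy
      exact hP x (hP0 (hY0P x hx).1) y (hP0 (hY0P y hy).1) hxy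
    · intro x hx y hy hxy
      exact hQ x (hB0Q x hx).1 y (hB0Q y hy).1 hxy
    · intro x hx y hy
      apply hsplit
      intro h'
      exact (hY0P x hx).2 ((hB0Y y hy x (hY0P x hx).1).mp h')

theorem bowtie (G : SimpleGraph α) (J : Finset α) (hJ : ∀ u ∈ J, ∀ v ∈ J, ¬ G.Adj u v) :
    ∃ L : ℕ, ∀ (V : Type) (c : V → V → Bool),
    (∀ x y, c x y = c y x) → ∀ b : Bool, ∀ S P Q : Finset V, P ⊆ S → Q ⊆ S →
      Mono c b P → Mono c (!b) Q → P.card = L → Q.card = L →
      ∃ T ⊆ S, T.card = Fintype.card α + (Fintype.card α - J.card) ∧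
        ∀ b', Cop G 1 (fun x y => c x y = b') T := by
  obtain ⟨L, hL⟩ := hom_pair (Fintype.card α)
  refine ⟨L, fun V c hc b S P Q hPS hQS hP hQ h1 h2 => ?_⟩
  obtain ⟨b', A, B, hA, hB, hd, hAc, hBc, hAm, hBm, hAB⟩ := hL V c hc b P Q hP hQ h1.ge h2.ge
  obtain ⟨B', hB', hB'c⟩ := Finset.exists_subset_card_eq (s := B)
    (n := Fintype.card α - J.card) (by omega)
  have hd' : Disjoint A B' := Finset.disjoint_of_subset_right hB' hd
  have hPQ : P ∪ Q ⊆ S := Finset.union_subset hPS hQS
  refine ⟨A ∪ B', ?_, ?_, ?_⟩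
  · exact Finset.union_subset (hA.trans hPQ) ((hB'.trans hB).trans hPQ)
  · rw [Finset.card_union_of_disjoint hd', hAc, hB'c]
  · intro b''
    by_cases hb : b'' = b'
    · subst hb
      exact (cop_of_clique G hc b'' hAm 1 (by simp [hAc])).mono Finset.subset_union_left
    · have hb' : b'' = !b' := by cases b'' <;> cases b' <;> simp_all
      subst hb'
      apply cop_of_pair G hc (!b') hd' (fun x hx y hy hxy => hBm x (hB' hx) y (hB' hy) hxy)
        (fun x hx y hy => hAB x hx y (hB' hy)) J hJ 1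
      · rw [one_mul, hAc]; exact Finset.card_le_univ J
      · rw [one_mul, hB'c]

/-- The Ramsey number of `n` disjoint copies of `G`. -/
noncomputable def ram (G : SimpleGraph α) (n : ℕ) : ℕ :=
  sInf {N : ℕ | ∀ c : Fin N → Fin N → Bool,
                (∀ x y : Fin N, c x y = c y x) → ∃ b : Bool,
                ∃ g : Fin n × α → Fin N, Function.Injective g ∧
                  ∀ p q : Fin n × α, p.1 = q.1 → G.Adj p.2 q.2 →
                    c (g p) (g q) = b}

lemma ram_mem (G : SimpleGraph α) (n : ℕ) :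
    ∀ c : Fin (ram G n) → Fin (ram G n) → Bool,
                (∀ x y : Fin (ram G n), c x y = c y x) → ∃ b : Bool,
                ∃ g : Fin n × α → Fin (ram G n), Function.Injective g ∧
                  ∀ p q : Fin n × α, p.1 = q.1 → G.Adj p.2 q.2 →
                    c (g p) (g q) = b := by
  have hne : {N : ℕ | ∀ c : Fin N → Fin N → Bool,
                (∀ x y : Fin N, c x y = c y x) → ∃ b : Bool,
                ∃ g : Fin n × α → Fin N, Function.Injective g ∧
                  ∀ p q : Fin n × α, p.1 = q.1 → G.Adj p.2 q.2 →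
                    c (g p) (g q) = b}.Nonempty := by
    obtain ⟨R, hR⟩ := ramsey (n * Fintype.card α) (n * Fintype.card α)
    refine ⟨R, fun c hc => ?_⟩
    rcases hR (Fin R) c hc true Finset.univ (by simp) with ⟨K, _, hKc, hKm⟩ | ⟨K, _, hKc, hKm⟩
    · obtain ⟨f, h1, _, h3⟩ := cop_of_clique G hc true hKm n hKc.ge
      exact ⟨true, f, h1, h3⟩
    · obtain ⟨f, h1, _, h3⟩ := cop_of_clique G hc (!true) hKm n hKc.ge
      exact ⟨!true, f, h1, h3⟩
  exact Nat.sInf_mem hne

lemma ram_arrow (G : SimpleGraph α) (n : ℕ) {V : Type} (c : V → V → Bool)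
    (hc : ∀ x y, c x y = c y x) (S : Finset V) (hS : ram G n ≤ S.card) :
    ∃ b, Cop G n (fun x y => c x y = b) S := by
  have : Nonempty (Fin (ram G n) ↪ S) := by
    apply Function.Embedding.nonempty_of_card_le
    simpa using hS
  obtain ⟨e⟩ := this
  obtain ⟨b, g, h1, h2⟩ := ram_mem G n (fun x y => c (e x) (e y)) (fun x y => hc _ _)
  refine ⟨b, fun p => (e (g p) : V), ?_, fun p => (e (g p)).2, h2⟩
  intro p q hpq
  exact h1 (e.injective (Subtype.ext hpq))

lemma ram_le (G : SimpleGraph α) (n N : ℕ)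
    (h : ∀ c : Fin N → Fin N → Bool, (∀ x y, c x y = c y x) →
      ∃ b, Cop G n (fun x y => c x y = b) Finset.univ) : ram G n ≤ N := by
  apply Nat.sInf_le
  intro c hc
  obtain ⟨b, f, h1, _, h3⟩ := h c hc
  exact ⟨b, f, h1, h3⟩

lemma exists_bad (G : SimpleGraph α) (n N : ℕ) (h : N < ram G n) :
    ∃ c : Fin N → Fin N → Bool, (∀ x y, c x y = c y x) ∧
      ∀ b, ¬ Cop G n (fun x y => c x y = b) Finset.univ := by
  by_contra hcon
  push Not at hcon
  exact absurd (ram_le G n N hcon) (by omega)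

lemma card_fst_snd {n : ℕ} (P : Fin n × α → Prop) [DecidablePred P] (i : ℕ)
    (h : ∀ j : Fin n, (Finset.univ.filter (fun v : α => P (j, v))).card ≤ i) :
    (Finset.univ.filter P).card ≤ n * i := by
  have h1 : (Finset.univ.filter P).card
      = ∑ j : Fin n, (Finset.univ.filter (fun v : α => P (j, v))).card := by
    rw [Finset.card_filter, Fintype.sum_prod_type]
    apply Finset.sum_congr rfl
    intro j _
    rw [Finset.card_filter]
  rw [h1]
  calc _ ≤ ∑ j : Fin n, i := Finset.sum_le_sum (fun j _ => h j)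
    _ = n * i := by simp

/-- lower bound -/
lemma ram_lower (G : SimpleGraph α) (hiso : ∀ v, ∃ u, G.Adj v u) (J : Finset α)
    (hmax : ∀ K : Finset α, (∀ u ∈ K, ∀ v ∈ K, ¬ G.Adj u v) → K.card ≤ J.card)
    (hlt : J.card < Fintype.card α) (n : ℕ) :
    (Fintype.card α + (Fintype.card α - J.card)) * n ≤ ram G n + 1 := by
  by_contra hcon
  push Not at hcon
  set k := Fintype.card α with hk
  have hn : 1 ≤ n := by
    rcases Nat.eq_zero_or_pos n with h | h
    · subst h; simp at hcon
    · exact h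
  set a := k - J.card with ha
  have ha1 : 1 ≤ a := by omega
  let c : Fin (ram G n) → Fin (ram G n) → Bool := fun x y =>
    decide (x.val < k * n - 1 ∧ y.val < k * n - 1)
  have hc : ∀ x y, c x y = c y x := by
    intro x y; simp only [c, and_comm]
  obtain ⟨b, f, h1, _, h3⟩ := ram_arrow G n c hc Finset.univ (by simp)
  have hkn : 1 ≤ k * n := by
    have : 1 ≤ k := by omega
    nlinarith
  have han : 1 ≤ a * n := by nlinarith
  cases b with
  | true =>
    have hX : ∀ p : Fin n × α, (f p).val < k * n - 1 := by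
      intro p
      obtain ⟨u, hu⟩ := hiso p.2
      have := h3 p (p.1, u) rfl hu
      simp only [c, decide_eq_true_eq] at this
      exact this.1
    have : Fintype.card (Fin n × α) ≤ Fintype.card (Fin (k * n - 1)) := by
      apply Fintype.card_le_of_injective (fun p => (⟨(f p).val, hX p⟩ : Fin (k * n - 1)))
      intro p q hpq
      apply h1
      simp only [Fin.mk.injEq] at hpq
      exact Fin.ext hpq
    simp only [Fintype.card_prod, Fintype.card_fin] at this
    rw [← hk, mul_comm n k] at this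
    omega
  | false =>
    have hX : (Finset.univ.filter (fun p : Fin n × α => (f p).val < k * n - 1)).card
        ≤ n * J.card := by
      apply card_fst_snd
      intro j
      apply hmax
      intro u hu v hv huv
      rw [Finset.mem_filter] at hu hv
      have := h3 (j, u) (j, v) rfl huv
      simp only [c, decide_eq_false_iff_not] at this
      exact this ⟨hu.2, hv.2⟩
    have htot : (Finset.univ.filter (fun p : Fin n × α => (f p).val < k * n - 1)).card
        + (Finset.univ.filter (fun p : Fin n × α => ¬ (f p).val < k * n - 1)).card = n * k := by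
      rw [Finset.card_filter_add_card_filter_not]
      simp [hk]
    have hY : (Finset.univ.filter (fun p : Fin n × α => ¬ (f p).val < k * n - 1)).card
        ≤ ram G n - (k * n - 1) := by
      have h5 : (Finset.univ.filter (fun p : Fin n × α => ¬ (f p).val < k * n - 1)).card
          ≤ (Finset.Ico (k * n - 1) (ram G n)).card := by
        apply Finset.card_le_card_of_injOn (fun p => (f p).val)
        · intro p hp
          rw [Finset.mem_coe, Finset.mem_filter] at hp
          rw [Finset.mem_coe, Finset.mem_Ico]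
          exact ⟨not_lt.mp hp.2, (f p).2⟩
        · intro p _ q _ hpq
          exact h1 (Fin.ext hpq)
      simpa using h5
    have h6 : n * k = n * J.card + n * a := by
      rw [← mul_add]; congr 1; omega
    have h7 : (k + a) * n = k * n + a * n := by ring
    have h8 : n * a = a * n := by ring
    have h9 : n * a ≤ ram G n - (k * n - 1) := by omega
    have h10 : ram G n + 1 < k * n + a * n := by rw [← h7]; exact hcon
    have h11 : n * a ≥ 1 := by rw [h8]; exact han
    omega

lemma ram_rec (G : SimpleGraph α) (hiso : ∀ v, ∃ u, G.Adj v u) (J : Finset α)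
    (hJ : ∀ u ∈ J, ∀ v ∈ J, ¬ G.Adj u v)
    (hmax : ∀ K : Finset α, (∀ u ∈ K, ∀ v ∈ K, ¬ G.Adj u v) → K.card ≤ J.card)
    (hlt : J.card < Fintype.card α) :
    ∃ n₀, ∀ n, n₀ ≤ n → ram G (n + 1) ≤ ram G n + (Fintype.card α + (Fintype.card α - J.card)) := by
  obtain ⟨L, hL⟩ := bowtie G J hJ
  obtain ⟨R, hR⟩ := greedy G L
  refine ⟨R, fun n hn => ?_⟩
  have hlow := ram_lower G hiso J hmax hlt n
  set k := Fintype.card α with hk
  set a := k - J.card with ha
  have ha1 : 1 ≤ a := by omega
  have hsize : (n + 1) * k + R ≤ ram G n + (k + a) := by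
    have e1 : (k + a) * n = k * n + a * n := by ring
    have e2 : (n + 1) * k = k * n + k := by ring
    have e3 : n ≤ a * n := by nlinarith
    omega
  apply ram_le
  intro c hc
  by_cases h1 : ∃ P : Finset (Fin (ram G n + (k + a))), P.card = L ∧ Mono c true P
  · by_cases h2 : ∃ P : Finset (Fin (ram G n + (k + a))), P.card = L ∧ Mono c false P
    · obtain ⟨P, hPc, hP⟩ := h1
      obtain ⟨Q, hQc, hQ⟩ := h2
      obtain ⟨T, _, hTc, hT⟩ := hL _ c hc true Finset.univ P Q (Finset.subset_univ _)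
        (Finset.subset_univ _) hP hQ hPc hQc
      obtain ⟨b, hb⟩ := ram_arrow G n c hc (Finset.univ \ T) (by
        rw [Finset.card_sdiff_of_subset (Finset.subset_univ _), hTc]; simp)
      exact ⟨b, (hb.union (hT b) Finset.sdiff_disjoint).mono (Finset.subset_univ _)⟩
    · refine ⟨true, hR _ c hc true Finset.univ ?_ (n + 1) (by simpa using hsize)⟩
      intro K _ hKc hKm
      exact h2 ⟨K, hKc, hKm⟩
  · refine ⟨false, hR _ c hc false Finset.univ ?_ (n + 1) (by simpa using hsize)⟩
    intro K _ hKc hKm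
    exact h1 ⟨K, hKc, hKm⟩

lemma ram_eventually (G : SimpleGraph α) (hiso : ∀ v, ∃ u, G.Adj v u) (J : Finset α)
    (hJ : ∀ u ∈ J, ∀ v ∈ J, ¬ G.Adj u v)
    (hmax : ∀ K : Finset α, (∀ u ∈ K, ∀ v ∈ K, ¬ G.Adj u v) → K.card ≤ J.card)
    (hlt : J.card < Fintype.card α) :
    ∃ n₀ D, ∀ n, n₀ ≤ n →
      ram G n + 1 = (Fintype.card α + (Fintype.card α - J.card)) * n + D := by
  obtain ⟨n₁, hn₁⟩ := ram_rec G hiso J hJ hmax hlt
  have hlow := ram_lower G hiso J hmax hlt
  set s := Fintype.card α + (Fintype.card α - J.card) with hs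
  let E : ℕ → ℕ := fun n => ram G n + 1 - s * n
  have hE : ∀ n, ram G n + 1 = s * n + E n := by
    intro n
    have := hlow n
    simp only [E]; omega
  have hanti : ∀ n, n₁ ≤ n → E (n + 1) ≤ E n := by
    intro n hn
    have h1 := hn₁ n hn
    have h2 := hE n
    have h3 := hE (n + 1)
    have h4 : s * (n + 1) = s * n + s := by ring
    omega
  -- minimum of E over n ≥ n₁
  have hex : ∃ v, ∃ n, n₁ ≤ n ∧ E n = v := ⟨_, n₁, le_refl _, rfl⟩
  obtain ⟨n₂, hn₂, hv⟩ := Nat.find_spec hex
  have hmin : ∀ n, n₁ ≤ n → Nat.find hex ≤ E n := fun n hn => Nat.find_min' hex ⟨n, hn, rfl⟩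
  refine ⟨n₂, Nat.find hex, fun n hn => ?_⟩
  have hle : E n ≤ Nat.find hex := by
    induction n, hn using Nat.le_induction with
    | base => exact hv.le
    | succ m hm ih => exact (hanti m (hn₂.trans hm)).trans ih
  have hge := hmin n (hn₂.trans hn)
  rw [hE n]
  omega

end Pool.Agent.H931R3.NG
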