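import Pool.Agent.H931R3.NGRam

set_option autoImplicit false
set_option linter.unusedSectionVars false

namespace Pool.Agent.H931R3.NG

open Finset Function
open scoped Classical

variable {α : Type} [Fintype α]

lemma closed_reach (G : SimpleGraph α) {q : ℕ} (P : Finset (Fin q × α))
    (hcl : ∀ p ∈ P, ∀ u, G.Adj p.2 u → (p.1, u) ∈ P) (j : Fin q) (v u : α)
    (hv : (j, v) ∈ P) (h : G.Reachable v u) : (j, u) ∈ P := by
  obtain ⟨w⟩ := h
  induction w with
  | nil => exact hv
  | cons hadj _ ih => exact ih (hcl _ hv _ hadj)

lemma comp_removal (G : SimpleGraph α) (hiso : ∀ v, ∃ u, G.Adj v u) {V : Type} (v0 : V)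
    {c : V → V → Bool} (hc : ∀ x y, c x y = c y x) (b : Bool) (A O B W : Finset V)
    (hd : Disjoint A O) (hA : Mono c b A) (hO : O = B ∪ W) (hB : Mono c (!b) B)
    (q : ℕ) (hq : W.card < q) (hno : ¬ Cop G q (fun x y => c x y = b) (A ∪ O)) :
    ∃ O' ⊆ O, A.card + O.card + 1 ≤ O'.card + q * Fintype.card α ∧
      ∀ v, ¬ CompCop G v (fun x y => c x y = b) O' := by
  have key : ∀ d : ℕ, ∀ (P : Finset (Fin q × α)) (g : Fin q × α → V),
      q * Fintype.card α ≤ P.card + d → Set.InjOn g P → (∀ p ∈ P, g p ∈ O) →
      (∀ p ∈ P, ∀ u, G.Adj p.2 u → (p.1, u) ∈ P) →
      (∀ p ∈ P, ∀ p' ∈ P, p.1 = p'.1 → G.Adj p.2 p'.2 → c (g p) (g p') = b) →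
      ∃ O' ⊆ O, A.card + O.card + 1 ≤ O'.card + q * Fintype.card α ∧
      ∀ v, ¬ CompCop G v (fun x y => c x y = b) O' := by
    intro d
    induction d with
    | zero =>
      intro P g hPd hinj hPO hcl hcol
      exfalso
      apply hno
      have hPu : P = Finset.univ := by
        apply Finset.eq_univ_of_card
        have := Finset.card_le_univ P
        simp only [Fintype.card_prod, Fintype.card_fin] at this ⊢
        omega
      refine ⟨g, ?_, ?_, ?_⟩
      · intro x y hxy
        exact hinj (by simp [hPu]) (by simp [hPu]) hxy
      · intro p; exact Finset.mem_union_right _ (hPO p (by simp [hPu]))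
      · intro p p' h1 h2
        exact hcol p (by simp [hPu]) p' (by simp [hPu]) h1 h2
    | succ d ih =>
      intro P g hPd hinj hPO hcl hcol
      by_cases hex : ∃ v, CompCop G v (fun x y => c x y = b) (O \ P.image g)
      · obtain ⟨v, h, hh1, hh2, hh3⟩ := hex
        -- find an index j with (j, v) ∉ P
        have hj : ∃ j : Fin q, (j, v) ∉ P := by
          by_contra hcon
          push Not at hcon
          obtain ⟨u, hu⟩ := hiso v
          have hu' : ∀ j : Fin q, (j, u) ∈ P := fun j => hcl _ (hcon j) _ hu
          have hW : ∀ j : Fin q, g (j, v) ∈ W ∨ g (j, u) ∈ W := by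
            intro j
            by_contra hcon2
            push Not at hcon2
            have h1 : g (j, v) ∈ B := by
              have := hPO _ (hcon j)
              rw [hO, Finset.mem_union] at this
              exact this.resolve_right hcon2.1
            have h2 : g (j, u) ∈ B := by
              have := hPO _ (hu' j)
              rw [hO, Finset.mem_union] at this
              exact this.resolve_right hcon2.2
            have h3 : g (j, v) ≠ g (j, u) := by
              intro he
              have := hinj (hcon j) (hu' j) he
              simp only [Prod.mk.injEq, true_and] at this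
              exact G.ne_of_adj hu this
            have h4 := hB _ h1 _ h2 h3
            have h5 := hcol _ (hcon j) _ (hu' j) rfl hu
            rw [h4] at h5
            cases b <;> simp at h5
          let e : Fin q → V := fun j => if g (j, v) ∈ W then g (j, v) else g (j, u)
          have he : ∀ j, e j ∈ W := by
            intro j
            simp only [e]
            split_ifs with h'
            · exact h'
            · exact (hW j).resolve_left h'
          have heinj : Injective e := by
            intro j j' hjj
            simp only [e] at hjj
            have aux : ∀ x y : α, (x = v ∨ x = u) → (y = v ∨ y = u) →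
                g (j, x) = g (j', y) → j = j' := by
              intro x y hx hy hxy
              have hx' : (j, x) ∈ P := by rcases hx with rfl | rfl; exact hcon j; exact hu' j
              have hy' : (j', y) ∈ P := by rcases hy with rfl | rfl; exact hcon j'; exact hu' j'
              have := hinj hx' hy' hxy
              simp only [Prod.mk.injEq] at this
              exact this.1
            split_ifs at hjj
            · exact aux v v (Or.inl rfl) (Or.inl rfl) hjj
            · exact aux v u (Or.inl rfl) (Or.inr rfl) hjj
            · exact aux u v (Or.inr rfl) (Or.inl rfl) hjj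
            · exact aux u u (Or.inr rfl) (Or.inr rfl) hjj
          have : q ≤ W.card := by
            have := Finset.card_le_card_of_injOn (s := Finset.univ) (t := W) e
              (fun j _ => he j) (fun x _ y _ h => heinj h)
            simpa using this
          omega
        obtain ⟨j, hj⟩ := hj
        have hjC : ∀ u, G.Reachable v u → (j, u) ∉ P := by
          intro u hu hP
          exact hj (closed_reach G P hcl j u v hP hu.symm)
        let C : Finset (Fin q × α) := Finset.univ.filter (fun p => p.1 = j ∧ G.Reachable v p.2)
        have hC : ∀ p, p ∈ C ↔ p.1 = j ∧ G.Reachable v p.2 := by intro p; simp [C]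
        have hCP : ∀ p ∈ C, p ∉ P := by
          intro p hp hP
          rw [hC] at hp
          apply hjC p.2 hp.2
          rw [← hp.1]; exact hP
        let g' : Fin q × α → V := fun p => if p ∈ P then g p else h p.2
        have g'1 : ∀ p ∈ P, g' p = g p := fun p hp => by simp [g', hp]
        have g'2 : ∀ p ∈ C, g' p = h p.2 := fun p hp => by simp [g', hCP p hp]
        apply ih (P ∪ C) g'
        · have hdisj : Disjoint P C := by
            rw [Finset.disjoint_left]; intro p hp hC'; exact hCP p hC' hp
          rw [Finset.card_union_of_disjoint hdisj]
          have : 1 ≤ C.card := by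
            rw [Nat.one_le_iff_ne_zero, Finset.card_ne_zero]
            exact ⟨(j, v), (hC _).mpr ⟨rfl, SimpleGraph.Reachable.refl _⟩⟩
          omega
        · intro x hx y hy hxy
          rw [Finset.mem_coe, Finset.mem_union] at hx hy
          rcases hx with hx | hx <;> rcases hy with hy | hy
          · rw [g'1 x hx, g'1 y hy] at hxy
            exact hinj hx hy hxy
          · rw [g'1 x hx, g'2 y hy] at hxy
            exfalso
            have := hh1 y.2 ((hC y).mp hy).2
            rw [Finset.mem_sdiff] at this
            apply this.2
            rw [← hxy]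
            exact Finset.mem_image_of_mem _ hx
          · rw [g'2 x hx, g'1 y hy] at hxy
            exfalso
            have := hh1 x.2 ((hC x).mp hx).2
            rw [Finset.mem_sdiff] at this
            apply this.2
            rw [hxy]
            exact Finset.mem_image_of_mem _ hy
          · rw [g'2 x hx, g'2 y hy] at hxy
            have h1 := (hC x).mp hx
            have h2 := (hC y).mp hy
            exact Prod.ext (h1.1.trans h2.1.symm) (hh2 _ _ h1.2 h2.2 hxy)
        · intro p hp
          rcases Finset.mem_union.mp hp with hp | hp
          · rw [g'1 p hp]; exact hPO p hp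
          · rw [g'2 p hp]
            exact (Finset.mem_sdiff.mp (hh1 p.2 ((hC p).mp hp).2)).1
        · intro p hp u hu
          rcases Finset.mem_union.mp hp with hp | hp
          · exact Finset.mem_union_left _ (hcl p hp u hu)
          · apply Finset.mem_union_right
            rw [hC] at hp ⊢
            exact ⟨hp.1, hp.2.trans hu.reachable⟩
        · intro p hp p' hp' h1 h2
          rcases Finset.mem_union.mp hp with hp | hp <;> rcases Finset.mem_union.mp hp' with hp' | hp'
          · rw [g'1 p hp, g'1 p' hp']; exact hcol p hp p' hp' h1 h2
          · exfalso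
            have := hcl p hp p'.2 h2
            rw [h1] at this
            exact hCP p' hp' this
          · exfalso
            have := hcl p' hp' p.2 h2.symm
            rw [← h1] at this
            exact hCP p hp this
          · rw [g'2 p hp, g'2 p' hp']
            exact hh3 _ _ ((hC p).mp hp).2 h2
      · push Not at hex
        refine ⟨O \ P.image g, Finset.sdiff_subset, ?_, hex⟩
        have him : P.image g ⊆ O := by
          intro x hx
          obtain ⟨p, hp, rfl⟩ := Finset.mem_image.mp hx
          exact hPO p hp
        have hcard : (P.image g).card = P.card := Finset.card_image_of_injOn hinj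
        rw [Finset.card_sdiff_of_subset him, hcard]
        have hPO' : P.card ≤ O.card := by rw [← hcard]; exact Finset.card_le_card him
        by_contra hcon
        have hA' : q * Fintype.card α - P.card ≤ A.card := by omega
        apply hno
        have e1 : Nonempty ((Pᶜ : Finset (Fin q × α)) ↪ A) := by
          apply Function.Embedding.nonempty_of_card_le
          simpa [Finset.card_compl] using hA'
        obtain ⟨e1⟩ := e1
        let f : Fin q × α → V := fun p =>
          if h : p ∈ P then g p else (e1 ⟨p, Finset.mem_compl.mpr h⟩ : V)
        have f1 : ∀ p, p ∈ P → f p = g p := by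
          intro p hp; simp only [f, dif_pos hp]
        have f2 : ∀ p, p ∉ P → f p ∈ A := by
          intro p hp; simp only [f, dif_neg hp]; exact (e1 _).2
        have finj : Injective f := by
          intro p p' hpp
          by_cases hp : p ∈ P <;> by_cases hp' : p' ∈ P
          · rw [f1 p hp, f1 p' hp'] at hpp; exact hinj hp hp' hpp
          · exfalso
            have h1 := f2 p' hp'
            rw [← hpp, f1 p hp] at h1
            exact (Finset.disjoint_left.mp hd) h1 (hPO p hp)
          · exfalso
            have h1 := f2 p hp
            rw [hpp, f1 p' hp'] at h1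
            exact (Finset.disjoint_left.mp hd) h1 (hPO p' hp')
          · simp only [f, dif_neg hp, dif_neg hp'] at hpp
            have := e1.injective (Subtype.ext hpp)
            simpa using this
        refine ⟨f, finj, ?_, ?_⟩
        · intro p
          by_cases hp : p ∈ P
          · rw [f1 p hp]; exact Finset.mem_union_right _ (hPO p hp)
          · exact Finset.mem_union_left _ (f2 p hp)
        · intro p p' h1 h2
          by_cases hp : p ∈ P
          · have hp' : p' ∈ P := by
              have := hcl p hp p'.2 h2
              rw [h1] at this
              exact this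
            show c (f p) (f p') = b
            rw [f1 p hp, f1 p' hp']
            exact hcol p hp p' hp' h1 h2
          · have hp' : p' ∉ P := by
              intro hp'
              have := hcl p' hp' p.2 h2.symm
              rw [← h1] at this
              exact hp this
            refine hA _ (f2 p hp) _ (f2 p' hp') ?_
            intro he
            have := finj he
            rw [this] at h2
            exact G.loopless.irrefl _ h2
  exact key (q * Fintype.card α) ∅ (fun _ => v0) (by simp) (by simp) (by simp) (by simp) (by simp)

/-- Removing bow-ties outside a fixed homogeneous pair. -/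
lemma descend (G : SimpleGraph α) (J : Finset α) (hJ : ∀ u ∈ J, ∀ v ∈ J, ¬ G.Adj u v)
    (k a L R D : ℕ) (hk : k = Fintype.card α) (ha : a = k - J.card) (ha1 : 1 ≤ a) (hJk : J.card ≤ k)
    (hL : ∀ (V : Type) (c : V → V → Bool),
      (∀ x y, c x y = c y x) → ∀ b : Bool, ∀ S P Q : Finset V, P ⊆ S → Q ⊆ S →
      Mono c b P → Mono c (!b) Q → P.card = L → Q.card = L →
      ∃ T ⊆ S, T.card = k + a ∧ ∀ b', Cop G 1 (fun x y => c x y = b') T)
    (hR : ∀ (V : Type) (c : V → V → Bool),
      (∀ x y, c x y = c y x) → ∀ b : Bool, ∀ S : Finset V,
      (∀ K ⊆ S, K.card = L → ¬ Mono c (!b) K) → ∀ q : ℕ, q * k + R ≤ S.card →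
      Cop G q (fun x y => c x y = b) S)
    {V : Type} [Fintype V] (N : ℕ) (hV : Fintype.card V = N)
    (c : V → V → Bool) (hc : ∀ x y, c x y = c y x) (n M : ℕ)
    (hN : N + 2 = (k + a) * n + D) (hM : 1 ≤ M)
    (hbad : ∀ b, ¬ Cop G n (fun x y => c x y = b) Finset.univ) (b : Bool)
    (A B : Finset V) (hAB : Disjoint A B) (hA : Mono c b A) (hB : Mono c (!b) B)
    (hABc : ∀ x ∈ A, ∀ y ∈ B, c x y = !b) (hAc : A.card + 1 = k * M) (hBc : B.card + 1 = a * M) :
    ∀ j, j + M + (k + R) ≤ n → ∃ W : Finset V, Disjoint (A ∪ B) W ∧
      W.card + (k + a) * j + A.card + B.card = N ∧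
      ∀ b', ¬ Cop G (n - j) (fun x y => c x y = b') (A ∪ B ∪ W) := by
  intro j
  induction j with
  | zero =>
    intro _
    refine ⟨Finset.univ \ (A ∪ B), Finset.disjoint_sdiff, ?_, ?_⟩
    · have h1 := Finset.card_sdiff_of_subset (Finset.subset_univ (A ∪ B))
      have h2 := Finset.card_union_of_disjoint hAB
      have h3 := Finset.card_le_univ (A ∪ B)
      simp only [Finset.card_univ, hV] at h1 h3
      rw [h1, h2] at *
      omega
    · intro b' h
      apply hbad b'
      rw [Nat.sub_zero] at h
      exact h.mono (Finset.subset_univ _)
  | succ j ih =>
    intro hj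
    obtain ⟨W, hWd, hWc, hWb⟩ := ih (by omega)
    -- size of W
    obtain ⟨p, hp⟩ : ∃ p, n = j + M + p := ⟨n - j - M, by omega⟩
    have hWc' : W.card = (k + a) * p + D := by
      have e1 : (k + a) * n = (k + a) * j + (k * M + a * M) + (k + a) * p := by
        rw [hp]; ring
      omega
    have hp1 : k + R + 1 ≤ p := by omega
    have hbig : (p + 1) * k + R ≤ W.card := by
      rw [hWc']
      have e1 : (k + a) * p = k * p + a * p := by ring
      have e2 : (p + 1) * k = k * p + k := by ring
      have e3 : p ≤ a * p := by nlinarith
      omega
    have hAt : Cop G (M - 1) (fun x y => c x y = b) A := by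
      apply cop_of_clique G hc b hA
      rw [← hk]
      have : (M - 1) * k = k * M - k := by
        rw [Nat.sub_mul, one_mul, mul_comm]
      have : 1 ≤ k := by omega
      omega
    have hBt : Cop G (M - 1) (fun x y => c x y = !b) (A ∪ B) := by
      apply cop_of_pair G hc (!b) hAB hB hABc J hJ
      · have h1 : (M - 1) * J.card ≤ (M - 1) * k := Nat.mul_le_mul_left _ hJk
        have h2 : (M - 1) * k = k * M - k := by
          rw [Nat.sub_mul, one_mul, mul_comm]
        omega
      · rw [← hk, ← ha]
        have h2 : (M - 1) * a = a * M - a := by
          rw [Nat.sub_mul, one_mul, mul_comm]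
        omega
    have hn' : n - j = p + 1 + (M - 1) := by omega
    have hclq1 : ∃ P ⊆ W, P.card = L ∧ Mono c b P := by
      by_contra hcon
      push Not at hcon
      have := hR _ c hc (!b) W (by
        intro K hK hKc hKm
        rw [Bool.not_not] at hKm
        exact hcon K hK hKc hKm) (p + 1) hbig
      have h2 := this.union hBt (by
        rw [disjoint_comm]; exact hWd)
      apply hWb (!b)
      rw [hn']
      exact h2.mono (by rw [Finset.union_comm])
    have hclq2 : ∃ Q ⊆ W, Q.card = L ∧ Mono c (!b) Q := by
      by_contra hcon
      push Not at hcon
      have := hR _ c hc b W (by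
        intro K hK hKc hKm
        exact hcon K hK hKc hKm) (p + 1) hbig
      have h2 := this.union hAt (by
        rw [disjoint_comm]; exact Finset.disjoint_of_subset_left Finset.subset_union_left hWd)
      apply hWb b
      rw [hn']
      refine h2.mono ?_
      intro x hx
      rcases Finset.mem_union.mp hx with hx | hx
      · exact Finset.mem_union_right _ hx
      · exact Finset.mem_union_left _ (Finset.mem_union_left _ hx)
    obtain ⟨P, hPW, hPc, hP⟩ := hclq1
    obtain ⟨Q, hQW, hQc, hQ⟩ := hclq2
    obtain ⟨T, hTW, hTc, hT⟩ := hL _ c hc b W P Q hPW hQW hP hQ hPc hQc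
    refine ⟨W \ T, Finset.disjoint_of_subset_right Finset.sdiff_subset hWd, ?_, ?_⟩
    · have h1 := Finset.card_sdiff_of_subset hTW
      have h2 := Finset.card_le_card hTW
      have h3 : (k + a) * (j + 1) = (k + a) * j + (k + a) := by ring
      omega
    · intro b' h
      apply hWb b'
      have h1 : n - j = (n - (j + 1)) + 1 := by omega
      rw [h1]
      refine (h.union (hT b') ?_).mono ?_
      · rw [Finset.disjoint_union_left]
        exact ⟨Finset.disjoint_of_subset_right hTW hWd, Finset.sdiff_disjoint⟩
      · intro x hx
        rcases Finset.mem_union.mp hx with hx | hx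
        · rcases Finset.mem_union.mp hx with hx | hx
          · exact Finset.mem_union_left _ hx
          · exact Finset.mem_union_right _ (Finset.mem_sdiff.mp hx).1
        · exact Finset.mem_union_right _ (hTW hx)

end Pool.Agent.H931R3.NG
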