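import Pool.Agent.H931R3.NGStruct

set_option autoImplicit false
set_option linter.unusedSectionVars false

namespace Pool.Agent.H931R3.NG

open Finset Function
open scoped Classical

variable {α : Type} [Fintype α]

lemma phase2 (G : SimpleGraph α) (hiso : ∀ v, ∃ u, G.Adj v u) (J : Finset α)
    (hJ : ∀ u ∈ J, ∀ v ∈ J, ¬ G.Adj u v)
    (k a R D : ℕ) (hk : k = Fintype.card α) (ha : a = k - J.card) (ha1 : 1 ≤ a) (hJk : J.card ≤ k)
    (hJ1 : 1 ≤ k)
    {V : Type} [Fintype V] (N : ℕ)
    (c : V → V → Bool) (hc : ∀ x y, c x y = c y x) (n M : ℕ)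
    (hN : N + 2 = (k + a) * n + D)
    (b : Bool)
    (A B : Finset V) (hAB : Disjoint A B) (hA : Mono c b A) (hB : Mono c (!b) B)
    (hABc : ∀ x ∈ A, ∀ y ∈ B, c x y = !b) (hAc : A.card + 1 = k * M) (hBc : B.card + 1 = a * M)
    (hdesc : ∃ W : Finset V, Disjoint (A ∪ B) W ∧
      W.card + (k + a) * (n - (M + (k + R))) + A.card + B.card = N ∧
      ∀ b', ¬ Cop G (M + (k + R)) (fun x y => c x y = b') (A ∪ B ∪ W))
    (hn : M + (k + R) ≤ n)
    (w0 M₁ : ℕ) (hw0 : w0 = (k + a) * (k + R) + D) (hM₁ : w0 + k * (k + R) + 2 ≤ M₁)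
    (hMM : M = 2 ^ w0 * M₁) :
    ∃ A O : Finset V, Disjoint A O ∧
      (k + a) * (M₁ + (k + R)) + D ≤ O.card + (M₁ + (k + R)) * k + 1 ∧
      (∀ v, ¬ CompCop G v (fun x y => c x y = b) O) ∧
      (M₁ + (k + R)) * J.card ≤ A.card ∧ (∀ x ∈ A, ∀ y ∈ O, c x y = !b) ∧
      ¬ Cop G (M₁ + (k + R)) (fun x y => c x y = !b) (A ∪ O) := by
  obtain ⟨W, hWd, hWc, hWb⟩ := hdesc
  have hM1M : M₁ ≤ M := by
    rw [hMM]; exact Nat.le_mul_of_pos_left _ (by positivity)
  have hWc' : W.card = w0 := by
    obtain ⟨t, ht⟩ : ∃ t, n = t + (M + (k + R)) := ⟨n - (M + (k + R)), by omega⟩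
    have e1 : (k + a) * n = (k + a) * (n - (M + (k + R))) + (k * M + a * M) + (k + a) * (k + R) := by
      rw [ht, Nat.add_sub_cancel]; ring
    omega
  -- homogeneous part of A
  have hpig : (W.powerset).card * (k * M₁ - 1) ≤ A.card := by
    rw [Finset.card_powerset, hWc', Nat.mul_sub, mul_one]
    have e1 : 2 ^ w0 * (k * M₁) = k * M := by rw [hMM]; ring
    have e2 : 1 ≤ 2 ^ w0 := Nat.one_le_two_pow
    omega
  obtain ⟨Y, hY, hYc⟩ := Finset.exists_le_card_fiber_of_mul_le_card_of_maps_to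
    (s := A) (t := W.powerset) (f := fun x => W.filter (fun w => c x w = b)) (n := k * M₁ - 1)
    (by intro q _; simp) ⟨∅, by simp⟩ hpig
  obtain ⟨A1, hA1, hA1c⟩ := Finset.exists_subset_card_eq hYc
  have hYW : Y ⊆ W := Finset.mem_powerset.mp hY
  have hA1A : A1 ⊆ A := fun x hx => (Finset.mem_filter.mp (hA1 hx)).1
  have hA1Y : ∀ x ∈ A1, ∀ w ∈ W, (c x w = b ↔ w ∈ Y) := fun x hx w hw => by
    have := (Finset.mem_filter.mp (hA1 hx)).2
    rw [← this]
    simp [hw]
  obtain ⟨B1, hB1, hB1c⟩ := Finset.exists_subset_card_eq (s := B) (n := a * M₁ - 1) (by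
    have : a * M₁ ≤ a * M := Nat.mul_le_mul_left _ hM1M
    omega)
  have haM : 1 ≤ a * M₁ := by nlinarith
  have hkM : 1 ≤ k * M₁ := by nlinarith
  -- no monochromatic copies in the smaller set
  have hA1B1 : Disjoint A1 B1 := Finset.disjoint_of_subset_left hA1A
    (Finset.disjoint_of_subset_right hB1 hAB)
  have hsub : A ∪ B = (A1 ∪ B1) ∪ ((A \ A1) ∪ (B \ B1)) := by
    ext x
    simp only [Finset.mem_union, Finset.mem_sdiff]
    constructor
    · rintro (h | h)
      · by_cases h' : x ∈ A1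
        · exact Or.inl (Or.inl h')
        · exact Or.inr (Or.inl ⟨h, h'⟩)
      · by_cases h' : x ∈ B1
        · exact Or.inl (Or.inr h')
        · exact Or.inr (Or.inr ⟨h, h'⟩)
    · rintro ((h | h) | (h | h))
      · exact Or.inl (hA1A h)
      · exact Or.inr (hB1 h)
      · exact Or.inl h.1
      · exact Or.inr h.1
  have hAd : Disjoint (A \ A1) (B \ B1) := Finset.disjoint_of_subset_left Finset.sdiff_subset
    (Finset.disjoint_of_subset_right Finset.sdiff_subset hAB)
  have hcA : (A \ A1).card = (M - M₁) * k := by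
    rw [Finset.card_sdiff_of_subset hA1A, hA1c]
    have : (M - M₁) * k = k * M - k * M₁ := by rw [Nat.sub_mul, mul_comm, mul_comm M₁]
    omega
  have hcB : (B \ B1).card = (M - M₁) * a := by
    rw [Finset.card_sdiff_of_subset hB1, hB1c]
    have : (M - M₁) * a = a * M - a * M₁ := by rw [Nat.sub_mul, mul_comm, mul_comm M₁]
    omega
  have hX : ∀ b', Cop G (M - M₁) (fun x y => c x y = b') ((A \ A1) ∪ (B \ B1)) := by
    intro b'
    by_cases hb : b' = b
    · subst hb
      refine (cop_of_clique G hc b' (B := A \ A1) ?_ (M - M₁) ?_).mono Finset.subset_union_left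
      · intro x hx y hy hxy
        exact hA x (Finset.sdiff_subset hx) y (Finset.sdiff_subset hy) hxy
      · rw [hcA, hk]
    · have hb' : b' = !b := bnot_of_ne _ _ hb
      subst hb'
      apply cop_of_pair G hc (!b) hAd _ _ J hJ
      · rw [hcA]; exact Nat.mul_le_mul_left _ hJk
      · rw [hcB, ← hk, ← ha]
      · intro x hx y hy hxy
        exact hB x (Finset.sdiff_subset hx) y (Finset.sdiff_subset hy) hxy
      · intro x hx y hy
        exact hABc x (Finset.sdiff_subset hx) y (Finset.sdiff_subset hy)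
  have hno : ∀ b', ¬ Cop G (M₁ + (k + R)) (fun x y => c x y = b') (A1 ∪ B1 ∪ W) := by
    intro b' h
    apply hWb b'
    have e : M + (k + R) = (M₁ + (k + R)) + (M - M₁) := by omega
    rw [e]
    refine (h.union (hX b') ?_).mono ?_
    · rw [Finset.disjoint_union_left]
      constructor
      · rw [Finset.disjoint_left]
        intro x hx hx'
        rcases Finset.mem_union.mp hx with h1 | h1 <;> rcases Finset.mem_union.mp hx' with h2 | h2
        · exact (Finset.mem_sdiff.mp h2).2 h1
        · exact (Finset.disjoint_left.mp hAB) (hA1A h1) (Finset.mem_sdiff.mp h2).1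
        · exact (Finset.disjoint_left.mp hAB) (Finset.mem_sdiff.mp h2).1 (hB1 h1)
        · exact (Finset.mem_sdiff.mp h2).2 h1
      · rw [disjoint_comm]
        refine Finset.disjoint_of_subset_left ?_ hWd
        rw [hsub]
        exact Finset.subset_union_right
    · rw [hsub]
      intro x hx
      simp only [Finset.mem_union] at hx ⊢
      tauto
  -- split W
  set Wr := Y with hWr
  set Wb := W \ Y with hWb'
  have hWr_col : ∀ w ∈ Wr, ∀ x ∈ A1, c w x = b := by
    intro w hw x hx
    rw [hc]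
    exact (hA1Y x hx w (hYW hw)).mpr hw
  have hWb_col : ∀ x ∈ A1, ∀ w ∈ Wb, c x w = !b := by
    intro x hx w hw
    have h1 := Finset.mem_sdiff.mp hw
    have h2 : ¬ (c x w = b) := fun h => h1.2 ((hA1Y x hx w h1.1).mp h)
    exact bnot_of_ne _ _ h2
  have hWcard : Wr.card + Wb.card = w0 := by
    rw [hWb', Finset.card_sdiff_of_subset hYW, hWc']
    have := Finset.card_le_card hYW
    omega
  -- choose A'' inside A1
  have hxle : (k - 1) * Wr.card ≤ k * M₁ - 1 := by
    have h1 : (k - 1) * Wr.card ≤ (k - 1) * M₁ := Nat.mul_le_mul_left _ (by omega)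
    have h2 : (k - 1) * M₁ = k * M₁ - M₁ := by rw [Nat.sub_mul, one_mul]
    omega
  obtain ⟨A2, hA2, hA2c⟩ := Finset.exists_subset_card_eq (s := A1) (n := (k - 1) * Wr.card)
    (by rw [hA1c]; exact hxle)
  have hA1W : Disjoint A1 W := Finset.disjoint_of_subset_left
    (hA1A.trans Finset.subset_union_left) hWd
  have hB1W : Disjoint B1 W := Finset.disjoint_of_subset_left
    (hB1.trans Finset.subset_union_right) hWd
  have hWrA2 : Disjoint Wr A2 := by
    rw [disjoint_comm]
    exact Finset.disjoint_of_subset_left hA2 (Finset.disjoint_of_subset_right hYW hA1W)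
  obtain ⟨v0⟩ : Nonempty α := by
    rw [← Fintype.card_pos_iff]; omega
  have hredt : Cop G Wr.card (fun x y => c x y = b) (Wr ∪ A2) := by
    apply cop_of_pair G hc b hWrA2 _ _ {v0}
    · intro u hu v hv
      rw [Finset.mem_singleton] at hu hv
      subst hu; subst hv
      exact G.loopless.irrefl _
    · simp
    · rw [hA2c, Finset.card_singleton, ← hk, mul_comm]
    · intro x hx y hy hxy
      exact hA x (hA1A (hA2 hx)) y (hA1A (hA2 hy)) hxy
    · intro x hx y hy
      exact hWr_col x hx y (hA2 hy)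
  set A' := A1 \ A2 with hA'
  have hA'c : A'.card = (k * M₁ - 1) - (k - 1) * Wr.card := by
    rw [hA', Finset.card_sdiff_of_subset hA2, hA1c, hA2c]
  set n₁ := M₁ + (k + R) with hn₁
  have hOd : Disjoint A' (B1 ∪ Wb) := by
    rw [Finset.disjoint_union_right]
    constructor
    · exact Finset.disjoint_of_subset_left Finset.sdiff_subset hA1B1
    · exact Finset.disjoint_of_subset_left Finset.sdiff_subset
        (Finset.disjoint_of_subset_right Finset.sdiff_subset hA1W)
  have hB1Wb : Disjoint B1 Wb := Finset.disjoint_of_subset_right Finset.sdiff_subset hB1W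
  have hnored : ¬ Cop G (n₁ - Wr.card) (fun x y => c x y = b) (A' ∪ (B1 ∪ Wb)) := by
    intro h
    apply hno b
    have e : n₁ = (n₁ - Wr.card) + Wr.card := by omega
    rw [e]
    refine (h.union hredt ?_).mono ?_
    · rw [Finset.disjoint_left]
      intro x hx hx'
      rcases Finset.mem_union.mp hx with h1 | h1
      · rcases Finset.mem_union.mp hx' with h2 | h2
        · exact (Finset.disjoint_left.mp hA1W) (Finset.mem_sdiff.mp h1).1 (hYW h2)
        · exact (Finset.mem_sdiff.mp h1).2 h2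
      · rcases Finset.mem_union.mp h1 with h1 | h1 <;> rcases Finset.mem_union.mp hx' with h2 | h2
        · exact (Finset.disjoint_left.mp hB1W) h1 (hYW h2)
        · exact (Finset.disjoint_left.mp hA1B1) (hA2 h2) h1
        · exact (Finset.mem_sdiff.mp h1).2 h2
        · exact (Finset.disjoint_left.mp hA1W) (hA2 h2) (Finset.mem_sdiff.mp h1).1
    · intro x hx
      simp only [Finset.mem_union] at hx ⊢
      rcases hx with (h1 | h1 | h1) | (h1 | h1)
      · exact Or.inl (Or.inl (Finset.mem_sdiff.mp h1).1)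
      · exact Or.inl (Or.inr h1)
      · exact Or.inr (Finset.mem_sdiff.mp h1).1
      · exact Or.inr (hYW h1)
      · exact Or.inl (Or.inl (hA2 h1))
  have hVne : ∃ v : V, v ∈ A1 := by
    rw [← Finset.Nonempty, ← Finset.card_pos, hA1c]
    have : 2 ≤ k * M₁ := by nlinarith
    omega
  obtain ⟨vv, _⟩ := hVne
  obtain ⟨O', hO', hO'c, hO'n⟩ := comp_removal G hiso vv hc b A' (B1 ∪ Wb) B1 Wb hOd
    (fun x hx y hy hxy => hA x (hA1A (Finset.sdiff_subset hx)) y
      (hA1A (Finset.sdiff_subset hy)) hxy) rfl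
    (fun x hx y hy hxy => hB x (hB1 hx) y (hB1 hy) hxy) (n₁ - Wr.card) (by omega) hnored
  refine ⟨A1, O', ?_, ?_, hO'n, ?_, ?_, ?_⟩
  · refine Finset.disjoint_of_subset_right hO' ?_
    rw [Finset.disjoint_union_right]
    exact ⟨hA1B1, Finset.disjoint_of_subset_right Finset.sdiff_subset hA1W⟩
  · rw [hA'c, Finset.card_union_of_disjoint hB1Wb, hB1c, ← hk] at hO'c
    have e1 : (n₁ - Wr.card) * k = n₁ * k - Wr.card * k := Nat.sub_mul _ _ _
    have e2 : Wr.card * k ≤ n₁ * k := Nat.mul_le_mul_right _ (by omega)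
    have e3 : (k - 1) * Wr.card = Wr.card * k - Wr.card := by
      rw [Nat.sub_mul, one_mul, mul_comm]
    have e4 : Wr.card ≤ Wr.card * k := Nat.le_mul_of_pos_right _ (by omega)
    have e5 : (k + a) * n₁ = k * M₁ + a * M₁ + (k + a) * (k + R) := by rw [hn₁]; ring
    omega
  · rw [hA1c]
    -- n₁ * |J| ≤ k M₁ - 1
    have e1 : J.card + a = k := by omega
    have e2 : n₁ * J.card + n₁ * a = n₁ * k := by rw [← mul_add, e1]
    have e3 : n₁ ≤ n₁ * a := Nat.le_mul_of_pos_right _ (by omega)
    have e4 : n₁ * k = k * M₁ + k * (k + R) := by rw [hn₁]; ring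
    omega
  · intro x hx y hy
    have := hO' hy
    rcases Finset.mem_union.mp this with h1 | h1
    · exact hABc x (hA1A hx) y (hB1 h1)
    · exact hWb_col x hx y h1
  · intro h
    apply hno (!b)
    refine h.mono ?_
    intro x hx
    simp only [Finset.mem_union]
    rcases Finset.mem_union.mp hx with h1 | h1
    · exact Or.inl (Or.inl h1)
    · rcases Finset.mem_union.mp (hO' h1) with h2 | h2
      · exact Or.inl (Or.inr h2)
      · exact Or.inr (Finset.mem_sdiff.mp h2).1

end Pool.Agent.H931R3.NG
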